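import Pool.Agent.Work.MP_376faf_co_hw.Defs

/-! Module A: algebra of bridges (prefixes, reversal, reflection). -/

set_option autoImplicit false

namespace Pool.Agent.Work.MP_376faf_co_hw

open Pool.Agent.Work.MP_376faf_co_lower
open scoped ENNReal

theorem bridge_nil : Bridge [] := by
  refine ⟨⟨by simp, ?_⟩, ?_⟩
  · intro a ha b hb _
    simp only [List.length_nil, Set.mem_Iic, Nat.le_zero] at ha hb
    rw [ha, hb]
  · intro i h0 h1
    simp only [List.length_nil, Nat.le_zero] at h1
    omega

theorem bridge_E : Bridge [eE] := by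
  refine ⟨⟨by simp [Un, eE], ?_⟩, ?_⟩
  · intro a ha b hb hab
    simp only [List.length_cons, List.length_nil, zero_add, Set.mem_Iic] at ha hb
    interval_cases a <;> interval_cases b <;> simp_all [pos, eE, Prod.ext_iff]
  · intro i h0 h1
    simp only [List.length_cons, List.length_nil, zero_add] at h1
    have : i = 1 := by omega
    subst this
    simp [pos, eE]

theorem bridge_EN {σ : ℤ} (hσ : σ = 1 ∨ σ = -1) : Bridge [eE, (0, σ)] := by
  refine ⟨⟨?_, ?_⟩, ?_⟩
  · rcases hσ with rfl | rfl <;> simp [Un, eE]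
  · intro a ha b hb hab
    simp only [List.length_cons, List.length_nil, zero_add, Set.mem_Iic] at ha hb
    rcases hσ with rfl | rfl <;> interval_cases a <;> interval_cases b <;>
      simp_all [pos, eE, Prod.ext_iff]
  · intro i h0 h1
    simp only [List.length_cons, List.length_nil, zero_add] at h1
    interval_cases i <;> simp [pos, eE]

theorem sum_nonneg {l : List Pt} (h : Bridge l) : 0 ≤ l.sum.1 := by
  rw [← pos_len]
  exact h.nonneg le_rfl

theorem eq_nil {l : List Pt} (h : Bridge l) (h0 : l.sum.1 ≤ 0) : l = [] := by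
  by_contra hne
  have hl : 0 < l.length := List.length_pos_iff.2 hne
  have := (h.2 l.length hl le_rfl).1
  rw [pos_len] at this
  omega

theorem head_eq {s : Pt} {l : List Pt} (h : Bridge (s :: l)) : s = eE := by
  have h1 := (h.2 1 one_pos (by simp)).1
  have h2 := h.1.1 s (by simp)
  have h3 : pos (s :: l) 1 = s := by simp [pos]
  rw [h3] at h1
  unfold Un at h2
  have h4 := abs_nonneg s.2
  rw [abs_of_pos h1] at h2
  have h5 : s.1 = 1 := by omega
  have h6 : s.2 = 0 := by
    have : |s.2| = 0 := by omega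
    exact abs_eq_zero.1 this
  unfold eE
  exact Prod.ext h5 h6

/-- middle part of a factorisation -/
theorem bridge_mid {p r : List Pt} {q : List Pt} (hpr : Bridge (p ++ r)) (hq : Bridge (r ++ q)) :
    Bridge r := by
  refine ⟨?_, fun i h0 hi => ⟨?_, ?_⟩⟩
  · have := hq.1.take r.length
    rwa [List.take_left'] at this
    rfl
  · have := (hq.2 i h0 (by rw [List.length_append]; omega)).1
    rwa [pos_append_left _ _ hi] at this
  · have h1 := hpr.le_end (i := p.length + i) (by rw [List.length_append]; omega)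
    rw [List.length_append, pos_append_right, pos_append_right] at h1
    simp only [Prod.fst_add] at h1
    omega

/-- two bridge factorisations of the same bridge -/
theorem levi {a b p q : List Pt} (ha : Bridge a) (hb : Bridge b) (hp : Bridge p) (hq : Bridge q)
    (h : a ++ b = p ++ q) (hs : p.sum.1 ≤ a.sum.1) :
    ∃ r, Bridge r ∧ a = p ++ r ∧ q = r ++ b := by
  rcases List.append_eq_append_iff.1 h with ⟨r, hr1, hr2⟩ | ⟨r, hr1, hr2⟩
  · -- p = a ++ r, b = r ++ q
    have hr : Bridge r := bridge_mid (p := a) (q := q) (hr1 ▸ hp) (hr2 ▸ hb)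
    have : r = [] := by
      apply eq_nil hr
      rw [hr1, List.sum_append] at hs
      simp only [Prod.fst_add] at hs
      omega
    subst this
    refine ⟨[], bridge_nil, ?_, ?_⟩
    · rw [hr1]; simp
    · rw [hr2]; simp
  · -- a = p ++ r, q = r ++ b
    exact ⟨r, bridge_mid (p := p) (q := b) (hr1 ▸ ha) (hr2 ▸ hq), hr1, hr2⟩

theorem levi_eq {a b p q : List Pt} (ha : Bridge a) (hb : Bridge b) (hp : Bridge p) (hq : Bridge q)
    (h : a ++ b = p ++ q) (hs : p.sum.1 = a.sum.1) : a = p ∧ b = q := by
  obtain ⟨r, hr, h1, h2⟩ := levi ha hb hp hq h hs.le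
  have : r = [] := by
    apply eq_nil hr
    rw [h1, List.sum_append] at hs
    simp only [Prod.fst_add] at hs
    omega
  subst this
  exact ⟨by simpa using h1, by simpa using h2.symm⟩

theorem Pre.bridge {b : List Pt} {t : ℕ} {h : ℤ} (hp : Pre b t h) : Bridge b := by
  obtain ⟨p, q, rfl, hp, hq, -⟩ := hp
  exact bridge_append hp hq

theorem Pre.le {b : List Pt} {t : ℕ} {h : ℤ} (hp : Pre b t h) : (t : ℤ) ≤ b.sum.1 := by
  obtain ⟨p, q, rfl, hp, hq, hs⟩ := hp
  rw [List.sum_append, hs]
  have := sum_nonneg hq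
  simp only [Prod.fst_add]
  omega

theorem pre_zero {b : List Pt} (hb : Bridge b) : Pre b 0 0 :=
  ⟨[], b, rfl, bridge_nil, hb, by simp; rfl⟩

theorem pre_full {b : List Pt} {t : ℕ} (hb : BridgeW t b) : Pre b t b.sum.2 :=
  ⟨b, [], by simp, hb.1, bridge_nil, Prod.ext hb.2 rfl⟩

theorem pre_unique {b : List Pt} {t : ℕ} {h h' : ℤ} (h1 : Pre b t h) (h2 : Pre b t h') :
    h = h' := by
  obtain ⟨p, q, rfl, hp, hq, hs⟩ := h1
  obtain ⟨p', q', he, hp', hq', hs'⟩ := h2
  obtain ⟨h3, -⟩ := levi_eq hp hq hp' hq' he (by rw [hs, hs'])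
  rw [h3, hs'] at hs
  exact (Prod.mk.inj hs).2.symm

theorem pre_left {a b : List Pt} (ha : Bridge a) (hb : Bridge b) {t : ℕ} {h : ℤ}
    (ht : (t : ℤ) ≤ a.sum.1) : Pre (a ++ b) t h ↔ Pre a t h := by
  constructor
  · rintro ⟨p, q, he, hp, hq, hs⟩
    obtain ⟨r, hr, h1, h2⟩ := levi ha hb hp hq he (by rw [hs]; exact ht)
    exact ⟨p, r, h1, hp, hr, hs⟩
  · rintro ⟨p, q, rfl, hp, hq, hs⟩
    exact ⟨p, q ++ b, by simp, hp, bridge_append hq hb, hs⟩

theorem pre_right {a b : List Pt} (ha : Bridge a) (hb : Bridge b) {k : ℕ} {g : ℤ}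
    (hk : a.sum = ((k : ℤ), g)) {t : ℕ} {h : ℤ} : Pre (a ++ b) (k + t) (g + h) ↔ Pre b t h := by
  constructor
  · rintro ⟨p, q, he, hp, hq, hs⟩
    obtain ⟨r, hr, h1, h2⟩ := levi hp hq ha hb he.symm (by rw [hs, hk]; push_cast; simp)
    refine ⟨r, q, h2, hr, hq, ?_⟩
    rw [h1, List.sum_append, hk] at hs
    have h3 := congrArg Prod.fst hs
    have h4 := congrArg Prod.snd hs
    simp only [Prod.fst_add, Prod.snd_add, Nat.cast_add] at h3 h4
    exact Prod.ext (by simp only; omega) (by simp only; omega)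
  · rintro ⟨p, q, rfl, hp, hq, hs⟩
    refine ⟨a ++ p, q, by simp, bridge_append ha hp, hq, ?_⟩
    rw [List.sum_append, hk, hs]
    simp

@[simp] theorem rb_rb (l : List Pt) : rb (rb l) = l := by
  cases l with
  | nil => rfl
  | cons s l => simp [rb]

@[simp] theorem rb_length (l : List Pt) : (rb l).length = l.length := by
  cases l with
  | nil => rfl
  | cons s l => simp [rb]

@[simp] theorem rb_sum (l : List Pt) : (rb l).sum = l.sum := by
  cases l with
  | nil => rfl
  | cons s l => simp [rb, List.sum_reverse]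

theorem pos_rb {s : Pt} {l : List Pt} {i : ℕ} (hi : i ≤ l.length) :
    pos (rb (s :: l)) (i + 1) = s + (s :: l).sum - pos (s :: l) (l.length + 1 - i) := by
  have h1 : (s :: l).sum = ((s :: l).take (l.length + 1 - i)).sum +
      ((s :: l).drop (l.length + 1 - i)).sum := by
    rw [← List.sum_append, List.take_append_drop]
  have h2 : (s :: l).drop (l.length + 1 - i) = l.drop (l.length - i) := by
    rw [show l.length + 1 - i = (l.length - i) + 1 by omega, List.drop_succ_cons]
  rw [h1, h2]
  unfold pos rb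
  simp only [List.take_succ_cons, List.sum_cons]
  rw [List.take_reverse, List.sum_reverse]
  abel

theorem rb_bridge {l : List Pt} (h : Bridge l) : Bridge (rb l) := by
  cases l with
  | nil => exact h
  | cons s l =>
    have hs := head_eq h
    have hlen : (rb (s :: l)).length = l.length + 1 := by simp
    have hx : ∀ i ≤ l.length, 0 < (pos (rb (s :: l)) (i + 1)).1 ∧
        (pos (rb (s :: l)) (i + 1)).1 ≤ (s :: l).sum.1 := by
      intro i hi
      rw [pos_rb hi, hs]
      have h1 := h.2 (l.length + 1 - i) (by omega) (by simp only [List.length_cons]; omega)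
      rw [pos_len, hs] at h1
      simp only [Prod.fst_sub, Prod.fst_add, eE] at h1 ⊢
      omega
    refine ⟨⟨?_, ?_⟩, ?_⟩
    · intro t ht
      apply h.1.1 t
      simpa [rb] using ht
    · intro a ha b hb hab
      simp only [Set.mem_Iic, hlen] at ha hb
      rcases Nat.eq_zero_or_pos a with ha0 | ha0 <;> rcases Nat.eq_zero_or_pos b with hb0 | hb0
      · rw [ha0, hb0]
      · exfalso
        obtain ⟨b', rfl⟩ : ∃ b', b = b' + 1 := ⟨b - 1, by omega⟩
        have := (hx b' (by omega)).1
        rw [← hab, ha0] at this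
        simp at this
      · exfalso
        obtain ⟨a', rfl⟩ : ∃ a', a = a' + 1 := ⟨a - 1, by omega⟩
        have := (hx a' (by omega)).1
        rw [hab, hb0] at this
        simp at this
      · obtain ⟨a', rfl⟩ : ∃ a', a = a' + 1 := ⟨a - 1, by omega⟩
        obtain ⟨b', rfl⟩ : ∃ b', b = b' + 1 := ⟨b - 1, by omega⟩
        rw [pos_rb (by omega), pos_rb (by omega)] at hab
        have h2 := sub_right_inj.1 hab
        have h3 := h.1.2 (show l.length + 1 - a' ∈ Set.Iic (s :: l).length by
            simp only [Set.mem_Iic, List.length_cons]; omega)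
          (show l.length + 1 - b' ∈ Set.Iic (s :: l).length by
            simp only [Set.mem_Iic, List.length_cons]; omega) h2
        omega
    · intro i h0 hi
      rw [hlen] at hi
      obtain ⟨i', rfl⟩ : ∃ i', i = i' + 1 := ⟨i - 1, by omega⟩
      rw [pos_len, rb_sum]
      exact hx i' (by omega)

theorem rb_W {A : ℕ} {l : List Pt} (h : BridgeW A l) : BridgeW A (rb l) :=
  ⟨rb_bridge h.1, by rw [rb_sum]; exact h.2⟩

theorem rb_append {a b : List Pt} (ha : Bridge a) (hb : Bridge b) :
    rb (a ++ b) = rb b ++ rb a := by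
  cases a with
  | nil => simp [rb]
  | cons s a =>
    cases b with
    | nil => simp [rb]
    | cons s' b =>
      rw [head_eq ha, head_eq hb]
      simp [rb]

theorem rb_injective : Function.Injective rb := fun a b h => by
  rw [← rb_rb a, h, rb_rb]

theorem pre_rb {b : List Pt} {k : ℕ} {g : ℤ} (hk : b.sum = ((k : ℤ), g)) {s t : ℕ} {h : ℤ}
    (hst : s + t = k) (hp : Pre b s h) : Pre (rb b) t (g - h) := by
  obtain ⟨p, q, rfl, hp, hq, hs⟩ := hp
  refine ⟨rb q, rb p, rb_append hp hq, rb_bridge hq, rb_bridge hp, ?_⟩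
  rw [rb_sum]
  rw [List.sum_append, hs] at hk
  have h3 := congrArg Prod.fst hk
  have h4 := congrArg Prod.snd hk
  simp only [Prod.fst_add, Prod.snd_add] at h3 h4
  exact Prod.ext (by simp only; omega) (by simp only; omega)

@[simp] theorem ry_ry (l : List Pt) : ry (ry l) = l := by
  unfold ry
  rw [List.map_map]
  conv_rhs => rw [← List.map_id l]
  congr 1
  funext s
  simp

@[simp] theorem ry_length (l : List Pt) : (ry l).length = l.length := by simp [ry]

theorem ry_sum (l : List Pt) : (ry l).sum = (l.sum.1, -l.sum.2) := by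
  induction l with
  | nil => simp [ry]; rfl
  | cons a l ih =>
    have : ry (a :: l) = (a.1, -a.2) :: ry l := rfl
    rw [this, List.sum_cons, ih, List.sum_cons]
    refine Prod.ext (by simp) ?_
    simp only [Prod.snd_add]
    ring

theorem ry_append (a b : List Pt) : ry (a ++ b) = ry a ++ ry b := by simp [ry]

theorem pos_ry (l : List Pt) (i : ℕ) : pos (ry l) i = ((pos l i).1, -(pos l i).2) := by
  unfold pos
  rw [← ry_sum]
  unfold ry
  rw [List.map_take]

theorem ry_walk {l : List Pt} (h : Walk l) : Walk (ry l) := by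
  refine ⟨?_, ?_⟩
  · intro s hs
    obtain ⟨t, ht, rfl⟩ := List.mem_map.1 hs
    have := h.1 t ht
    simpa [Un] using this
  · intro a ha b hb hab
    simp only [Set.mem_Iic, ry_length] at ha hb
    rw [pos_ry, pos_ry] at hab
    have h1 := congrArg Prod.fst hab
    have h2 := congrArg Prod.snd hab
    exact h.2 ha hb (Prod.ext h1 (by simpa using h2))

theorem ry_bridge {l : List Pt} (h : Bridge l) : Bridge (ry l) := by
  refine ⟨ry_walk h.1, fun i h0 hi => ?_⟩
  rw [ry_length] at hi ⊢
  rw [pos_ry, pos_ry]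
  exact h.2 i h0 hi

theorem ry_W {A : ℕ} {l : List Pt} (h : BridgeW A l) : BridgeW A (ry l) :=
  ⟨ry_bridge h.1, by rw [ry_sum]; exact h.2⟩

theorem pre_ry {b : List Pt} {t : ℕ} {h : ℤ} (hp : Pre b t h) : Pre (ry b) t (-h) := by
  obtain ⟨p, q, rfl, hp, hq, hs⟩ := hp
  exact ⟨ry p, ry q, ry_append p q, ry_bridge hp, ry_bridge hq, by rw [ry_sum, hs]⟩

@[simp] theorem ng_length (l : List Pt) : (ng l).length = l.length := by simp [ng]

theorem ng_ng (l : List Pt) : ng (ng l) = l := by
  unfold ng
  rw [List.map_map]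
  conv_rhs => rw [← List.map_id l]
  congr 1
  funext s
  simp

theorem ng_append (a b : List Pt) : ng (a ++ b) = ng a ++ ng b := by simp [ng]

theorem pos_ng (l : List Pt) (i : ℕ) : pos (ng l) i = - pos l i := by
  unfold pos ng
  rw [← List.map_take, sum_map_neg]

theorem ng_walk {l : List Pt} (h : Walk l) : Walk (ng l) := by
  refine ⟨?_, ?_⟩
  · intro s hs
    obtain ⟨t, ht, rfl⟩ := List.mem_map.1 hs
    have := h.1 t ht
    simpa [Un] using this
  · intro a ha b hb hab
    simp only [Set.mem_Iic, ng_length] at ha hb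
    rw [pos_ng, pos_ng] at hab
    exact h.2 ha hb (neg_inj.1 hab)

/-- flipping and reflecting is negation -/
theorem map_fl_ry (l : List Pt) : (ry l).map fl = ng l := by
  unfold ry ng
  rw [List.map_map]
  rfl

end Pool.Agent.Work.MP_376faf_co_hw
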