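import Pool.Agent.Work.MP_376faf_co_lower.Model
import Pool.Agent.Work.MP_376faf_co_hw.PreB

/-! Module F: the bridge masses are at most 1 at the critical point. -/

set_option autoImplicit false

namespace Pool.Agent.Work.MP_376faf_co_hw

open Pool.Agent.Work.MP_376faf_co_lower
open Filter Topology
open scoped ENNReal

theorem eq_of_pos {l m : List Pt} (h : l.length = m.length)
    (hp : ∀ i ≤ l.length, pos l i = pos m i) : l = m := by
  refine List.ext_getElem h ?_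
  intro i h1 h2
  have e1 := pos_succ l h1
  have e2 := pos_succ m h2
  rw [hp i h1.le, hp (i + 1) h1, e2] at e1
  exact (add_left_cancel e1).symm

theorem walk_mass_le (n : ℕ) (x : ℝ≥0∞) :
    mass x (fun l => Walk l ∧ l.length = n) ≤ (Nat.card (WalkFun n) : ℝ≥0∞) * x ^ n := by
  classical
  have : Fintype (WalkFun n) := Fintype.ofFinite _
  have h1 : ∑' _ : WalkFun n, x ^ n = (Nat.card (WalkFun n) : ℝ≥0∞) * x ^ n := by
    rw [tsum_fintype, Finset.sum_const, Finset.card_univ, nsmul_eq_mul, Nat.card_eq_fintype_card]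
  rw [← h1]
  unfold mass
  refine tsum_le_inj (fun l : {l // Walk l ∧ l.length = n} =>
    (⟨fun i => pos l.1 i.val, by simp, ?_, ?_⟩ : WalkFun n)) ?_ ?_
  · intro i j hij
    have h2 := l.2.1.2 (show i.val ∈ Set.Iic l.1.length by
        simp only [Set.mem_Iic, l.2.2]; omega)
      (show j.val ∈ Set.Iic l.1.length by simp only [Set.mem_Iic, l.2.2]; omega) hij
    exact Fin.ext h2
  · intro i
    have hi : i.val < l.1.length := by rw [l.2.2]; exact i.is_lt
    have h3 := l.2.1.1 _ (List.getElem_mem hi)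
    simp only [Fin.val_succ, Fin.val_castSucc]
    rw [pos_succ _ hi]
    simpa [Un] using h3
  · intro l m hlm
    have h2 := congrArg (fun f : WalkFun n => f.1) hlm
    simp only at h2
    apply Subtype.ext
    refine eq_of_pos (by rw [l.2.2, m.2.2]) ?_
    intro i hi
    have h3 := congrFun h2 ⟨i, by rw [l.2.2] at hi; omega⟩
    exact h3
  · intro l
    simp only [l.2.2]
    exact le_rfl

theorem bridge_mass_mul (y : ℝ≥0∞) (s t : ℕ) :
    mass y (BridgeW s) * mass y (BridgeW t) ≤ mass y (BridgeW (s + t)) := by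
  unfold mass
  rw [← tsum_mul (fun l : {l // BridgeW s l} => y ^ l.1.length)
    (fun l : {l // BridgeW t l} => y ^ l.1.length)]
  refine tsum_le_inj (fun p : {l // BridgeW s l} × {l // BridgeW t l} =>
    (⟨p.1.1 ++ p.2.1, bridge_append p.1.2.1 p.2.2.1, ?_⟩ : {l // BridgeW (s + t) l})) ?_ ?_
  · rw [List.sum_append, Prod.fst_add, p.1.2.2, p.2.2.2]
    push_cast; rfl
  · rintro ⟨⟨a, ha⟩, ⟨b, hb⟩⟩ ⟨⟨p, hp⟩, ⟨q, hq⟩⟩ h
    have h1 : a ++ b = p ++ q := congrArg (fun l : {l // BridgeW (s + t) l} => l.1) h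
    have h2 := levi_eq ha.1 hb.1 hp.1 hq.1 h1 (by rw [ha.2, hp.2])
    simp only [Prod.mk.injEq, Subtype.mk.injEq]
    exact h2
  · rintro ⟨⟨a, ha⟩, ⟨b, hb⟩⟩
    simp only [List.length_append]
    rw [pow_add]

theorem bridge_mass_pow (y : ℝ≥0∞) (t k : ℕ) :
    mass y (BridgeW t) ^ k ≤ mass y (BridgeW (k * t)) := by
  induction k with
  | zero =>
    rw [pow_zero, zero_mul]
    unfold mass
    have h : BridgeW 0 [] := ⟨bridge_nil, by simp⟩
    calc (1 : ℝ≥0∞) = y ^ ([] : List Pt).length := by simp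
      _ ≤ _ := ENNReal.le_tsum (f := fun l : {l // BridgeW 0 l} => y ^ l.1.length) ⟨[], h⟩
  | succ k ih =>
    rw [pow_succ, Nat.succ_mul]
    exact (mul_le_mul' ih le_rfl).trans (bridge_mass_mul y (k * t) t)

theorem walk_mass_finite {μ : ℝ} (hμ : 1 ≤ μ)
    (hT : Tendsto (fun n : ℕ => ((Nat.card (WalkFun n) : ℕ) : ℝ) ^ ((1:ℝ) / (n:ℝ))) atTop (𝓝 μ))
    {y : ℝ} (hy : 0 < y) (hy1 : y * μ < 1) : mass (ENNReal.ofReal y) Walk ≠ ⊤ := by
  have hμ0 : 0 < μ := by linarith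
  obtain ⟨ρ, hρ1, hρ2⟩ : ∃ ρ, μ < ρ ∧ y * ρ < 1 := by
    refine ⟨(μ + 1 / y) / 2, ?_, ?_⟩
    · have : μ < 1 / y := by rw [lt_div_iff₀ hy]; linarith [mul_comm y μ]
      linarith
    · have : y * ((μ + 1 / y) / 2) = (y * μ + 1) / 2 := by field_simp
      rw [this]; linarith
  have hρ0 : 0 < ρ := by linarith
  have h1 : mass (ENNReal.ofReal y) Walk ≤
      ∑' n : ℕ, mass (ENNReal.ofReal y) (fun l => Walk l ∧ l.length = n) := by
    unfold mass
    exact sigma_ge (fun n : ℕ => fun l => Walk l ∧ l.length = n) Walk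
      (fun l hl => ⟨l.length, hl, rfl⟩) (fun l => ENNReal.ofReal y ^ l.length)
  have h2 : ∑' n : ℕ, mass (ENNReal.ofReal y) (fun l => Walk l ∧ l.length = n) ≤
      ∑' n : ℕ, ENNReal.ofReal ((Nat.card (WalkFun n) : ℝ) * y ^ n) := by
    refine ENNReal.tsum_le_tsum fun n => (walk_mass_le n _).trans (le_of_eq ?_)
    rw [ENNReal.ofReal_mul (by positivity), ENNReal.ofReal_pow hy.le, ENNReal.ofReal_natCast]
  have h3 : Summable fun n : ℕ => (Nat.card (WalkFun n) : ℝ) * y ^ n := by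
    have h4 : Summable fun n : ℕ => (y * ρ) ^ n :=
      summable_geometric_of_lt_one (by positivity) hρ2
    refine h4.of_norm_bounded_eventually_nat ?_
    filter_upwards [hT.eventually_lt_const hρ1, eventually_gt_atTop 0] with n hn hn0
    have hc : (0 : ℝ) ≤ (Nat.card (WalkFun n) : ℝ) := by positivity
    have h5 : (Nat.card (WalkFun n) : ℝ) ≤ ρ ^ n := by
      have h6 := pow_le_pow_left₀ (Real.rpow_nonneg hc _) hn.le n
      rw [← Real.rpow_natCast, ← Real.rpow_mul hc] at h6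
      rw [one_div, inv_mul_cancel₀ (by exact_mod_cast hn0.ne'), Real.rpow_one] at h6
      exact h6
    rw [Real.norm_of_nonneg (by positivity), mul_pow, mul_comm (y ^ n)]
    exact mul_le_mul_of_nonneg_right h5 (by positivity)
  exact ne_top_of_le_ne_top h3.tsum_ofReal_ne_top (h1.trans h2)

theorem uu_le_one {μ : ℝ} (hμ : 1 ≤ μ)
    (hT : Tendsto (fun n : ℕ => ((Nat.card (WalkFun n) : ℕ) : ℝ) ^ ((1:ℝ) / (n:ℝ))) atTop (𝓝 μ))
    (t : ℕ) : uu (ENNReal.ofReal μ)⁻¹ t ≤ 1 := by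
  by_contra hcon
  rw [not_le] at hcon
  have hμ0 : 0 < μ := by linarith
  set x : ℝ≥0∞ := (ENNReal.ofReal μ)⁻¹ with hx
  -- finitely many bridges already have mass larger than 1
  obtain ⟨S, hS⟩ : ∃ S : Finset {l // BridgeW t l}, 1 < ∑ l ∈ S, x ^ l.1.length := by
    have h1 : 1 < ⨆ S : Finset {l // BridgeW t l}, ∑ l ∈ S, x ^ l.1.length := by
      rw [← ENNReal.tsum_eq_iSup_sum]; exact hcon
    exact lt_iSup_iff.1 h1
  set L := S.sup (fun l => l.1.length) with hL
  have hxt : x ≠ ⊤ := by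
    rw [hx]; simpa using hμ0
  -- a smaller parameter
  obtain ⟨θ, hθ0, hθ1, hθ⟩ : ∃ θ : ℝ, 0 < θ ∧ θ < 1 ∧
      1 < ENNReal.ofReal θ ^ L * ∑ l ∈ S, x ^ l.1.length := by
    have h1 : Tendsto (fun θ : ℝ => ENNReal.ofReal θ ^ L * ∑ l ∈ S, x ^ l.1.length)
        (𝓝[<] 1) (𝓝 (ENNReal.ofReal 1 ^ L * ∑ l ∈ S, x ^ l.1.length)) := by
      refine ENNReal.Tendsto.mul_const ?_ (Or.inl ?_)
      · refine Tendsto.mono_left ?_ nhdsWithin_le_nhds
        exact (((ENNReal.continuous_pow L).comp ENNReal.continuous_ofReal).tendsto 1)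
      · simp
    have h2 : 1 < ENNReal.ofReal 1 ^ L * ∑ l ∈ S, x ^ l.1.length := by simpa using hS
    have h3 := h1.eventually_const_lt h2
    have h4 : ∀ᶠ θ : ℝ in 𝓝[<] 1, 0 < θ :=
      nhdsWithin_le_nhds (eventually_gt_nhds one_pos)
    obtain ⟨θ, h5, h6, h7⟩ := (h3.and (h4.and self_mem_nhdsWithin)).exists
    exact ⟨θ, h6, h7, h5⟩
  set y : ℝ := θ / μ with hy
  have hy0 : 0 < y := div_pos hθ0 hμ0
  have hyμ : y * μ < 1 := by rw [hy, div_mul_cancel₀ _ hμ0.ne']; exact hθ1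
  have hyx : ENNReal.ofReal y = ENNReal.ofReal θ * x := by
    rw [hy, hx, ENNReal.ofReal_div_of_pos hμ0, ENNReal.div_eq_inv_mul, mul_comm]
  have hbig : 1 < mass (ENNReal.ofReal y) (BridgeW t) := by
    refine hθ.trans_le ?_
    rw [Finset.mul_sum]
    refine le_trans (Finset.sum_le_sum fun l hl => ?_)
      (ENNReal.sum_le_tsum (f := fun l : {l // BridgeW t l} => ENNReal.ofReal y ^ l.1.length) S)
    rw [hyx, mul_pow]
    refine mul_le_mul' ?_ le_rfl
    refine pow_le_pow_right_of_le_one' ?_ ?_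
    · rw [← ENNReal.ofReal_one]; exact ENNReal.ofReal_le_ofReal hθ1.le
    · exact Finset.le_sup (f := fun l : {l // BridgeW t l} => l.1.length) hl
  have hfin := walk_mass_finite hμ hT hy0 hyμ
  have hpow : ∀ k : ℕ, mass (ENNReal.ofReal y) (BridgeW t) ^ k ≤ mass (ENNReal.ofReal y) Walk :=
    fun k => (bridge_mass_pow _ t k).trans (mass_mono _ fun l hl => hl.1.1)
  have htend : Tendsto (fun k : ℕ => mass (ENNReal.ofReal y) (BridgeW t) ^ k) atTop (𝓝 ⊤) :=
    ENNReal.tendsto_pow_atTop_nhds_top_iff.2 hbig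
  exact hfin (top_le_iff.1 (le_of_tendsto' htend hpow))

end Pool.Agent.Work.MP_376faf_co_hw
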