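import Pool.Agent.Work.MP_376faf_co_hw.Hairpin
import Pool.Agent.Work.MP_376faf_co_hw.PreB

/-! Module Decomp: half-plane walks are dominated by chains of bridges. -/

set_option autoImplicit false

namespace Pool.Agent.Work.MP_376faf_co_hw

open Pool.Agent.Work.MP_376faf_co_lower
open scoped ENNReal

/-- a nonempty half-plane walk is a bridge followed by the negative of a half-plane walk -/
theorem dec_one {n M : ℕ} {l : List Pt} (h : HL n M l) (h0 : l ≠ []) :
    ∃ A < M, ∃ b r : List Pt, l = b ++ ng r ∧ BridgeW (A + 1) b ∧ HL n A r ∧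
      b.length + r.length = l.length := by
  obtain ⟨⟨hh, hM⟩, hn⟩ := h
  obtain ⟨j, hj, h1, h2⟩ := last_max (fun i => (pos l i).1) l.length
  have hlen : 0 < l.length := List.length_pos_iff.2 h0
  have hx1 : 0 < (pos l j).1 := lt_of_lt_of_le (hh.2 1 one_pos hlen) (h1 1 hlen)
  have hj0 : 0 < j := by
    rcases Nat.eq_zero_or_pos j with h3 | h3
    · rw [h3] at hx1; simp at hx1
    · exact h3
  have hxM : (pos l j).1 ≤ M := hM j hj
  obtain ⟨B, hB⟩ : ∃ B : ℕ, (pos l j).1 = (B : ℤ) + 1 :=
    ⟨((pos l j).1 - 1).toNat, by omega⟩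
  refine ⟨B, by omega, l.take j, ng (l.drop j), ?_, ⟨⟨hh.1.take j, fun i h3 h4 => ?_⟩, ?_⟩,
    ⟨⟨⟨ng_walk (hh.1.drop hj), fun i h3 h4 => ?_⟩, fun i h4 => ?_⟩, ?_⟩, ?_⟩
  · rw [ng_ng, List.take_append_drop]
  · rw [List.length_take, min_eq_left hj] at h4 ⊢
    rw [pos_take _ h4, pos_take _ le_rfl]
    exact ⟨hh.2 i h3 (by omega), h1 i (by omega)⟩
  · have : (l.take j).sum = pos l j := rfl
    rw [this, hB]; push_cast; rfl
  · rw [ng_length, List.length_drop] at h4
    rw [pos_ng, pos_drop _ hj]
    have := h2 (j + i) (by omega) (by omega)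
    simp only [Prod.fst_neg, Prod.fst_sub]
    omega
  · rw [ng_length, List.length_drop] at h4
    rw [pos_ng, pos_drop _ hj]
    have := hh.2 (j + i) (by omega) (by omega)
    simp only [Prod.fst_neg, Prod.fst_sub]
    omega
  · rw [ng_length, List.length_drop]; omega
  · rw [ng_length, List.length_drop, List.length_take]; omega

theorem pos_hairpin {A A' : ℕ} {b b' : List Pt} (h : BridgeW A b) (h' : BridgeW A' b')
    (hA : A' < A) (hw : Walk (b ++ ng b')) :
    Pos ((A' + 1) / 2) (rb (eE :: b)) (eE :: b') := by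
  obtain ⟨σ, hσ, H⟩ := hairpin h.1 h'.1 hw
  refine ⟨σ, hσ, fun t ht1 ht2 g g' hg hg' => H t ht1 ?_ g g' ?_ hg'⟩
  · rw [h'.2]
    have : t ≤ A' := by omega
    exact_mod_cast this
  · have e : rb (eE :: b) = rb b ++ rb [eE] := by
      have := rb_append bridge_E h.1
      simpa using this
    rw [e] at hg
    refine (pre_left (rb_bridge h.1) (rb_bridge bridge_E) ?_).1 hg
    rw [rb_sum, h.2]
    have : t ≤ A := by omega
    exact_mod_cast this

/-- splitting off the first bridge -/
theorem q_split {y : ℝ≥0∞} {n M : ℕ} {Q : List Pt → Prop} (hQ : ∀ l, Q l → HL n M l) :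
    mass y Q ≤ 1 + ∑ A ∈ Finset.range M, ∑' b : BW (A + 1),
      y ^ b.1.length * mass y (fun r => HL n A r ∧ Q (b.1 ++ ng r)) := by
  classical
  have hch : ∀ l : {l // Q l}, ∃ (A : ℕ) (b r : List Pt), l.1 ≠ [] →
      A < M ∧ l.1 = b ++ ng r ∧ BridgeW (A + 1) b ∧ HL n A r ∧
      b.length + r.length = l.1.length := by
    intro l
    by_cases h : l.1 = []
    · exact ⟨0, [], [], fun h' => absurd h h'⟩
    · obtain ⟨A, hA, b, r, h1, h2, h3, h4⟩ := dec_one (hQ l.1 l.2) h
      exact ⟨A, b, r, fun _ => ⟨hA, h1, h2, h3, h4⟩⟩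
  choose A b r hab using hch
  let T : Type := Unit ⊕ (Σ A : Fin M, Σ b : BW (A.1 + 1),
    {r : List Pt // HL n A.1 r ∧ Q (b.1 ++ ng r)})
  let w : T → ℝ≥0∞ := Sum.elim (fun _ => 1) (fun p => y ^ p.2.1.1.length * y ^ p.2.2.1.length)
  let φ : {l // Q l} → T := fun l =>
    if h : l.1 = [] then Sum.inl ()
    else Sum.inr ⟨⟨A l, (hab l h).1⟩, ⟨b l, (hab l h).2.2.1⟩, ⟨r l, (hab l h).2.2.2.1, by
      have := (hab l h).2.1
      rw [← this]; exact l.2⟩⟩
  have hw : ∑' t, w t = 1 + ∑ A ∈ Finset.range M, ∑' b : BW (A + 1),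
      y ^ b.1.length * mass y (fun r => HL n A r ∧ Q (b.1 ++ ng r)) := by
    rw [ENNReal.summable.tsum_sum ENNReal.summable]
    congr 1
    · simp [w]
    · simp only [w, Sum.elim_inr]
      rw [ENNReal.tsum_sigma']
      rw [tsum_fintype, Finset.sum_range]
      refine Finset.sum_congr rfl (fun A _ => ?_)
      rw [ENNReal.tsum_sigma']
      refine tsum_congr (fun b => ?_)
      simp only
      rw [ENNReal.tsum_mul_left]
      rfl
  rw [← hw]
  refine tsum_le_inj φ ?_ ?_
  · intro l l' hll
    simp only [φ] at hll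
    split_ifs at hll with h1 h2 h2
    · exact Subtype.ext (h1.trans h2.symm)
    · have h3 := Sum.inr.inj hll
      simp only [Sigma.mk.injEq, Fin.mk.injEq] at h3
      obtain ⟨h4, h5⟩ := h3
      have e1 : b l = b l' ∧ r l = r l' := by
        revert h5
        have gen : ∀ (a a' : ℕ) (ha : a < M) (ha' : a' < M) (e : a = a')
          (c : BW (a + 1)) (c' : BW (a' + 1))
          (s : {r : List Pt // HL n a r ∧ Q (c.1 ++ ng r)})
          (s' : {r : List Pt // HL n a' r ∧ Q (c'.1 ++ ng r)}),
          HEq (⟨c, s⟩ : Σ b : BW (a + 1), {r : List Pt // HL n a r ∧ Q (b.1 ++ ng r)})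
            (⟨c', s'⟩ : Σ b : BW (a' + 1), {r : List Pt // HL n a' r ∧ Q (b.1 ++ ng r)}) →
          c.1 = c'.1 ∧ s.1 = s'.1 := by
          intro a a' ha ha' e
          subst e
          intro c c' s s' hh
          have hh := eq_of_heq hh
          simp only [Sigma.mk.injEq] at hh
          obtain ⟨hc, hs⟩ := hh
          subst hc
          have hs := eq_of_heq hs
          exact ⟨rfl, congrArg _ hs⟩
        intro h5
        exact gen _ _ (hab l h1).1 (hab l' h2).1 h4 _ _ _ _ h5
      apply Subtype.ext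
      rw [(hab l h1).2.1, (hab l' h2).2.1, e1.1, e1.2]
  · intro l
    simp only [φ, w]
    split_ifs with h1
    · simp [h1]
    · simp only [Sum.elim_inr]
      rw [← pow_add, (hab l h1).2.2.2.2]

theorem chain_unf (x K : ℝ≥0∞) (lam : ℕ → ℝ≥0∞) (χ : ℕ → Option (List Pt) → List Pt → ℝ≥0∞)
    (S : ℕ) (ξ : Option (List Pt)) : chain x K lam χ S ξ = 1 + ∑ S' ∈ Finset.range S,
      (K * (∑' c : BW S', x ^ c.1.length * χ S' ξ c.1 * chain x K lam χ S' (some c.1)) +
      lam S' * chain x K lam χ S' none) := by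
  rw [chain, Finset.sum_range]

theorem bridge_cons_E {A : ℕ} {b : List Pt} (h : BridgeW A b) : BridgeW (A + 1) (eE :: b) := by
  refine ⟨by simpa using bridge_append bridge_E h.1, ?_⟩
  rw [List.sum_cons, Prod.fst_add, h.2]
  simp [eE]; ring

theorem step_bound {x y K : ℝ≥0∞} {m n M : ℕ} (hK : ∀ l < m, y ^ l ≤ K * x ^ (l + 1))
    (ξ : Option (List Pt)) {Q : List Pt → Prop} (hQ : ∀ l, Q l → HL n M l)
    (hk : ∀ A < M, ∀ b r : List Pt, BridgeW (A + 1) b → Q (b ++ ng r) →
      kP (A + 2) ξ (eE :: b) = 1)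
    (IH1 : ∀ A < M, mass y (HL n A) ≤
      chain x K (fun S => mass y (LoB m n (S - 1))) kP (A + 2) none)
    (IH2 : ∀ A < M, ∀ b : List Pt, BridgeW (A + 1) b →
      mass y (fun r => HL n A r ∧ Walk (b ++ ng r)) ≤
      chain x K (fun S => mass y (LoB m n (S - 1))) kP (A + 2) (some (eE :: b))) :
    mass y Q ≤ chain x K (fun S => mass y (LoB m n (S - 1))) kP (M + 2) ξ := by
  classical
  refine (q_split hQ).trans ?_
  rw [chain_unf, Finset.sum_range_succ', Finset.sum_range_succ']
  refine add_le_add le_rfl ?_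
  refine le_trans ?_ (le_self_add.trans le_self_add)
  refine Finset.sum_le_sum (fun A hA => ?_)
  rw [Finset.mem_range] at hA
  set CN := chain x K (fun S => mass y (LoB m n (S - 1))) kP (A + 2) none with hCN
  set CS : List Pt → ℝ≥0∞ := fun c =>
    chain x K (fun S => mass y (LoB m n (S - 1))) kP (A + 2) (some c) with hCS
  have key : ∀ b : BW (A + 1), y ^ b.1.length * mass y (fun r => HL n A r ∧ Q (b.1 ++ ng r)) ≤
      K * (x ^ (eE :: b.1).length * kP (A + 2) ξ (eE :: b.1) * CS (eE :: b.1)) +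
      (if m ≤ b.1.length ∧ b.1.length ≤ n then y ^ b.1.length else 0) * CN := by
    intro b
    by_cases hex : ∃ r, HL n A r ∧ Q (b.1 ++ ng r)
    · obtain ⟨r0, hr0, hq0⟩ := hex
      by_cases hb : b.1.length < m
      · refine le_trans ?_ le_self_add
        rw [hk A hA b.1 r0 b.2 hq0, mul_one, ← mul_assoc]
        refine mul_le_mul' ?_ ?_
        · have := hK _ hb
          simpa using this
        · refine le_trans (mass_mono y ?_) (IH2 A hA b.1 b.2)
          intro r hr
          exact ⟨hr.1, (hQ _ hr.2).1.1.1⟩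
      · refine le_trans ?_ le_add_self
        have hn : b.1.length ≤ n := by
          have := (hQ _ hq0).2
          rw [List.length_append] at this
          omega
        rw [if_pos ⟨not_lt.1 hb, hn⟩]
        refine mul_le_mul' le_rfl ?_
        exact (mass_mono y (fun r hr => hr.1)).trans (IH1 A hA)
    · have : mass y (fun r => HL n A r ∧ Q (b.1 ++ ng r)) = 0 := by
        unfold mass
        have : IsEmpty {r : List Pt // HL n A r ∧ Q (b.1 ++ ng r)} :=
          ⟨fun r => hex ⟨r.1, r.2⟩⟩
        simp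
      rw [this, mul_zero]
      exact zero_le
  refine (ENNReal.tsum_le_tsum key).trans ?_
  rw [ENNReal.tsum_add]
  refine add_le_add ?_ ?_
  · rw [ENNReal.tsum_mul_left]
    refine mul_le_mul' le_rfl ?_
    exact tsum_le_inj (fun b : BW (A + 1) => (⟨eE :: b.1, bridge_cons_E b.2⟩ : BW (A + 2)))
      (fun b b' hbb => by
        have := congrArg (fun t : BW (A + 2) => t.1) hbb
        exact Subtype.ext (List.cons.inj this).2) (fun b => le_rfl)
  · rw [ENNReal.tsum_mul_right]
    refine mul_le_mul' ?_ le_rfl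
    have e1 : ∑' b : BW (A + 1), (if m ≤ b.1.length ∧ b.1.length ≤ n then y ^ b.1.length else 0)
        = ∑' b : {b : BW (A + 1) | m ≤ b.1.length ∧ b.1.length ≤ n}, y ^ b.1.1.length := by
      rw [tsum_subtype {b : BW (A + 1) | m ≤ b.1.length ∧ b.1.length ≤ n}
        (fun b : BW (A + 1) => y ^ b.1.length)]
      refine tsum_congr (fun b => ?_)
      simp [Set.indicator_apply]
    rw [e1]
    exact tsum_le_inj (fun b : {b : BW (A + 1) | m ≤ b.1.length ∧ b.1.length ≤ n} =>
      (⟨b.1.1, b.1.2, b.2.1, b.2.2⟩ : {l : List Pt // LoB m n (A + 1) l}))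
      (fun b b' hbb => by
        have := congrArg (fun t : {l : List Pt // LoB m n (A + 1) l} => t.1) hbb
        exact Subtype.ext (Subtype.ext this)) (fun b => le_rfl)

/-- all half-plane walks with at most n steps in the strip of width M; long = at least m steps -/
theorem hw_chain_aux {x y K : ℝ≥0∞} {m n : ℕ} (hK : ∀ l < m, y ^ l ≤ K * x ^ (l + 1)) :
    ∀ M : ℕ, mass y (HL n M) ≤
      chain x K (fun S => mass y (LoB m n (S - 1))) kP (M + 2) none ∧
      ∀ b : List Pt, BridgeW (M + 1) b → mass y (fun r => HL n M r ∧ Walk (b ++ ng r)) ≤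
      chain x K (fun S => mass y (LoB m n (S - 1))) kP (M + 2) (some (eE :: b)) := by
  intro M
  induction M using Nat.strong_induction_on with
  | _ M ih =>
    refine ⟨?_, fun b hb => ?_⟩
    · refine step_bound hK none (fun l h => h) ?_ (fun A hA => (ih A hA).1)
        (fun A hA => (ih A hA).2)
      intro A _ b r _ _
      rfl
    · refine step_bound hK (some (eE :: b)) (fun l h => h.1) ?_ (fun A hA => (ih A hA).1)
        (fun A hA => (ih A hA).2)
      intro A hA b' r hb' hq
      have h1 : Walk (b ++ ng b') := by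
        have h2 := hq.2
        rw [ng_append, ← List.append_assoc] at h2
        have h3 := h2.take (b ++ ng b').length
        rwa [List.take_left'] at h3
        rfl
      have h2 : Pos ((A + 2) / 2) (rb (eE :: b)) (eE :: b') := pos_hairpin hb hb' (by omega) h1
      simp only [kP, if_pos h2]

set_option linter.unusedVariables false in
theorem hw_chain {x y K : ℝ≥0∞} {m n : ℕ} (hm : 1 ≤ m) (hK : ∀ l < m, y ^ l ≤ K * x ^ (l + 1))
    (M : ℕ) : mass y (HL n M) ≤ chain x K (fun S => mass y (LoB m n (S - 1))) kP (M + 2) none :=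
  (hw_chain_aux hK M).1

theorem sum_le_length {l : List Pt} (h : ∀ s ∈ l, Un s) : l.sum.1 ≤ l.length := by
  induction l with
  | nil => simp
  | cons a l ih =>
    have h1 := ih (fun s hs => h s (List.mem_cons_of_mem _ hs))
    have h2 := h a List.mem_cons_self
    unfold Un at h2
    have h3 := le_abs_self a.1
    have h4 := abs_nonneg a.2
    simp only [List.sum_cons, Prod.fst_add, List.length_cons, Nat.cast_add, Nat.cast_one]
    omega

theorem hl_step (y : ℝ≥0∞) {m n k : ℕ} (hm : m ≤ k + 1) : mass y (HL n (k + 1)) ≤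
    mass y (HL n k) + mass y (LoB m n (k + 1)) * mass y (HL n k) := by
  classical
  have hch : ∀ l : {l // HL n (k + 1) l}, ∃ j : ℕ, ¬ HL n k l.1 →
      j ≤ l.1.length ∧ LoB m n (k + 1) (l.1.take j) ∧ HL n k ((l.1.drop j).map fl) := by
    intro l
    by_cases h : HL n k l.1
    · exact ⟨0, fun h' => absurd h h'⟩
    · rcases half_split l.2.1 with h' | ⟨j, h1, h2, h3⟩
      · exact absurd ⟨h', l.2.2⟩ h
      · refine ⟨j, fun _ => ⟨h1, ⟨h2, ?_, ?_⟩, h3, ?_⟩⟩
        · have h4 := sum_le_length h2.1.1.1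
          rw [h2.2] at h4
          have h5 : k + 1 ≤ (l.1.take j).length := by exact_mod_cast h4
          omega
        · have := l.2.2
          rw [List.length_take]
          omega
        · have := l.2.2
          rw [List.length_map, List.length_drop]
          omega
  choose j hj using hch
  let φ : {l // HL n (k + 1) l} →
      {l // HL n k l} ⊕ ({l // LoB m n (k + 1) l} × {l // HL n k l}) := fun l =>
    if h : HL n k l.1 then Sum.inl ⟨l.1, h⟩
    else Sum.inr (⟨l.1.take (j l), (hj l h).2.1⟩, ⟨(l.1.drop (j l)).map fl, (hj l h).2.2⟩)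
  let w : {l // HL n k l} ⊕ ({l // LoB m n (k + 1) l} × {l // HL n k l}) → ℝ≥0∞ :=
    Sum.elim (fun l => y ^ l.1.length) (fun p => y ^ p.1.1.length * y ^ p.2.1.length)
  have hw : ∑' b, w b = mass y (HL n k) + mass y (LoB m n (k + 1)) * mass y (HL n k) := by
    rw [ENNReal.summable.tsum_sum ENNReal.summable]
    simp only [w, Sum.elim_inl, Sum.elim_inr]
    rw [tsum_mul (fun a : {l // LoB m n (k + 1) l} => y ^ a.1.length)
      (fun a : {l // HL n k l} => y ^ a.1.length)]
    rfl
  rw [← hw]
  refine tsum_le_inj φ ?_ ?_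
  · intro a b hab
    simp only [φ] at hab
    split_ifs at hab with h1 h2 h2
    · have := congrArg (fun t : {l // HL n k l} => t.1) (Sum.inl.inj hab)
      exact Subtype.ext this
    · have h3 := Sum.inr.inj hab
      simp only [Prod.mk.injEq, Subtype.mk.injEq] at h3
      obtain ⟨h4, h5⟩ := h3
      have h6 := List.map_injective_iff.2 fl_inj h5
      apply Subtype.ext
      rw [← List.take_append_drop (j a) a.1, ← List.take_append_drop (j b) b.1, h4, h6]
  · intro a
    simp only [φ, w]
    split_ifs with h1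
    · simp
    · simp only [Sum.elim_inr, List.length_take, List.length_map, List.length_drop]
      have := (hj a h1).1
      rw [← pow_add, min_eq_left this, Nat.add_sub_cancel' this]

/-- adding long pieces only -/
theorem hw_long {y : ℝ≥0∞} {m n M M' : ℕ} (hM : m ≤ M + 1) (hMM : M ≤ M') :
    mass y (HL n M') ≤ mass y (HL n M) * ∏ T ∈ Finset.Ico M M', (1 + mass y (LoB m n (T + 1))) := by
  induction M', hMM using Nat.le_induction with
  | base => simp
  | succ k hk ih =>
    rw [Finset.prod_Ico_succ_top hk, ← mul_assoc]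
    calc mass y (HL n (k + 1)) ≤
          mass y (HL n k) + mass y (LoB m n (k + 1)) * mass y (HL n k) := hl_step y (by omega)
      _ = mass y (HL n k) * (1 + mass y (LoB m n (k + 1))) := by ring
      _ ≤ _ := mul_le_mul_left ih _

end Pool.Agent.Work.MP_376faf_co_hw
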