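import Pool.Agent.Work.MP_376faf_co_hw.Crit

/-! Module H: numbers of bridges of given length. -/

set_option autoImplicit false

namespace Pool.Agent.Work.MP_376faf_co_hw

open Pool.Agent.Work.MP_376faf_co_lower
open scoped ENNReal

/-- number of bridges of length n -/
noncomputable def bn (n : ℕ) : ℕ := Nat.card {l : List Pt // Bridge l ∧ l.length = n}

instance bnFinite (n : ℕ) : Finite {l : List Pt // Bridge l ∧ l.length = n} := by
  refine Finite.of_injective (β := WalkFun n) (fun l => ⟨fun i => pos l.1 i.val, by simp, ?_, ?_⟩) ?_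
  · intro i j hij
    have h2 := l.2.1.1.2 (show i.val ∈ Set.Iic l.1.length by
        simp only [Set.mem_Iic, l.2.2]; omega)
      (show j.val ∈ Set.Iic l.1.length by simp only [Set.mem_Iic, l.2.2]; omega) hij
    exact Fin.ext h2
  · intro i
    have hi : i.val < l.1.length := by rw [l.2.2]; exact i.is_lt
    have h3 := l.2.1.1.1 _ (List.getElem_mem hi)
    simp only [Fin.val_succ, Fin.val_castSucc]
    rw [pos_succ _ hi]
    simpa [Un] using h3
  · intro l m hlm
    have h2 := congrArg (fun f : WalkFun n => f.1) hlm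
    simp only at h2
    apply Subtype.ext
    refine eq_of_pos (by rw [l.2.2, m.2.2]) ?_
    intro i hi
    exact congrFun h2 ⟨i, by rw [l.2.2] at hi; omega⟩

theorem bn_zero : bn 0 = 1 := by
  unfold bn
  rw [Nat.card_eq_one_iff_unique]
  refine ⟨⟨fun a b => Subtype.ext ?_⟩, ⟨⟨[], bridge_nil, rfl⟩⟩⟩
  rw [List.eq_nil_of_length_eq_zero a.2.2, List.eq_nil_of_length_eq_zero b.2.2]

theorem bridge_replicate (n : ℕ) : Bridge (List.replicate n eE) := by
  induction n with
  | zero => exact bridge_nil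
  | succ n ih => exact bridge_append bridge_E ih

theorem bn_pos (n : ℕ) : 1 ≤ bn n := by
  have : Nonempty {l : List Pt // Bridge l ∧ l.length = n} :=
    ⟨⟨List.replicate n eE, bridge_replicate n, List.length_replicate ..⟩⟩
  exact Nat.card_pos

theorem bn_mul (m n : ℕ) : bn m * bn n ≤ bn (m + n) := by
  unfold bn
  rw [← Nat.card_prod]
  refine Nat.card_le_card_of_injective (fun p =>
    (⟨p.1.1 ++ p.2.1, bridge_append p.1.2.1 p.2.2.1, by
      rw [List.length_append, p.1.2.2, p.2.2.2]⟩ : {l : List Pt // Bridge l ∧ l.length = m + n})) ?_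
  rintro ⟨⟨a, ha⟩, ⟨b, hb⟩⟩ ⟨⟨p, hp⟩, ⟨q, hq⟩⟩ h
  have h1 : a ++ b = p ++ q :=
    congrArg (fun l : {l : List Pt // Bridge l ∧ l.length = m + n} => l.1) h
  have h2 := List.append_inj h1 (by rw [ha.2, hp.2])
  simp only [Prod.mk.injEq, Subtype.mk.injEq]
  exact h2

theorem mass_bn (y : ℝ≥0∞) (n : ℕ) :
    mass y (fun l => Bridge l ∧ l.length = n) = (bn n : ℝ≥0∞) * y ^ n := by
  classical
  have : Fintype {l : List Pt // Bridge l ∧ l.length = n} := Fintype.ofFinite _
  unfold mass bn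
  rw [tsum_congr (fun l : {l : List Pt // Bridge l ∧ l.length = n} => by rw [l.2.2]),
    tsum_fintype, Finset.sum_const, Finset.card_univ, nsmul_eq_mul, Nat.card_eq_fintype_card]

theorem lo_le (y : ℝ≥0∞) {m n : ℕ} (hm : 1 ≤ m) :
    ∑ T ∈ Finset.range n, mass y (LoB m n (T + 1)) ≤ ∑ l ∈ Finset.Icc m n, (bn l : ℝ≥0∞) * y ^ l := by
  have h1 : ∑ T ∈ Finset.range n, mass y (LoB m n (T + 1)) ≤
      mass y (fun l => Bridge l ∧ m ≤ l.length ∧ l.length ≤ n) := by
    refine (ENNReal.sum_le_tsum (Finset.range n)).trans ?_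
    unfold mass
    refine sigma_le (x := y) (fun T : ℕ => LoB m n (T + 1)) _ ?_ ?_ (fun l => y ^ l.length)
    · rintro T l ⟨h1, h2⟩
      exact ⟨h1.1, h2⟩
    · rintro i j l ⟨h1, -⟩ ⟨h2, -⟩
      have h3 := h1.2
      rw [h2.2] at h3
      push_cast at h3
      omega
  have h2 : mass y (fun l => Bridge l ∧ m ≤ l.length ∧ l.length ≤ n) ≤
      ∑' i : Finset.Icc m n, mass y (fun l => Bridge l ∧ l.length = (i : ℕ)) := by
    unfold mass
    refine sigma_ge (fun i : Finset.Icc m n => fun l => Bridge l ∧ l.length = (i : ℕ)) _ ?_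
      (fun l => y ^ l.length)
    rintro l ⟨h1, h2⟩
    exact ⟨⟨l.length, Finset.mem_Icc.2 h2⟩, h1, rfl⟩
  refine h1.trans (h2.trans (le_of_eq ?_))
  rw [Finset.tsum_subtype (Finset.Icc m n)
    (fun i => mass y (fun l => Bridge l ∧ l.length = i))]
  exact Finset.sum_congr rfl fun i _ => mass_bn y i

/-- for y ≤ x θ^{-1}: the total mass of long bridges -/
theorem lo_le' {x y θ : ℝ≥0∞} (hu : ∀ t, uu x t ≤ 1) (hθ : 1 ≤ θ) (hθ1 : θ ≠ ⊤) (hy : y * θ ≤ x)
    {m n : ℕ} : θ ^ m * ∑ T ∈ Finset.range n, mass y (LoB m n (T + 1)) ≤ n := by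
  rw [Finset.mul_sum]
  calc ∑ T ∈ Finset.range n, θ ^ m * mass y (LoB m n (T + 1))
      ≤ ∑ T ∈ Finset.range n, (1 : ℝ≥0∞) := by
        refine Finset.sum_le_sum fun T _ => le_trans ?_ (hu (T + 1))
        unfold uu mass
        rw [← ENNReal.tsum_mul_left]
        refine tsum_le_inj (fun l : {l // LoB m n (T + 1) l} =>
          (⟨l.1, l.2.1⟩ : {l // BridgeW (T + 1) l})) ?_ ?_
        · intro a b hab
          exact Subtype.ext (congrArg (fun l : {l // BridgeW (T + 1) l} => l.1) hab)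
        · intro l
          calc θ ^ m * y ^ l.1.length ≤ θ ^ l.1.length * y ^ l.1.length :=
                mul_le_mul' (pow_le_pow_right₀ hθ l.2.2.1) le_rfl
            _ = (y * θ) ^ l.1.length := by rw [← mul_pow, mul_comm]
            _ ≤ x ^ l.1.length := pow_le_pow_left' hy _
    _ = n := by simp

end Pool.Agent.Work.MP_376faf_co_hw
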