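import Pool.Agent.Work.MP_376faf_co_lower.Tail
import Pool.Agent.Work.MP_376faf_co_hw.BrCount

/-! Module I: polygons from pairs of bridges with the same displacement. -/

set_option autoImplicit false

namespace Pool.Agent.Work.MP_376faf_co_hw

open Pool.Agent.Work.MP_376faf_co_lower
open scoped ENNReal

/-- number of bridges of length m with displacement v -/
noncomputable def bv (m : ℕ) (v : Pt) : ℕ := Nat.card {l : List Pt // (Bridge l ∧ l.length = m) ∧ l.sum = v}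

theorem bv_sq_le {m : ℕ} (hm : 1 ≤ m) (v : Pt) :
    (bv m v) ^ 2 * (4 * (m + 1)) ≤ m ^ 2 * Nat.card (PolyFun (m + 1)) := by
  classical
  let S : Type := {l : List Pt // (Bridge l ∧ l.length = m) ∧ l.sum = v}
  have hne : ∀ l : S, l.1 ≠ [] := by
    intro l h
    have h1 := l.2.1.2
    rw [h] at h1
    simp at h1
    omega
  have hex : ∀ p : S × S, ∃ a : Fin m, ∃ b : Fin m,
      Good v (p.1.1.rotate a.val) (p.2.1.rotate b.val) := by
    intro p
    obtain ⟨a, ha, b, hb, hg, -⟩ := exists_good p.1.2.1.1 p.2.2.1.1 (hne p.1) (hne p.2) p.1.2.2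
      p.2.2.2 0
    rw [p.1.2.1.2] at ha
    rw [p.2.2.1.2] at hb
    exact ⟨⟨a, ha⟩, ⟨b, hb⟩, hg⟩
  choose a b hg using hex
  have hfin := polyFinite (n := m + 1) (by omega)
  let G : S × S → GPN v (m + 1) := fun p => ⟨(p.1.1.rotate (a p).val, p.2.1.rotate (b p).val), hg p, by
    rw [List.length_rotate, List.length_rotate, p.1.2.1.2, p.2.2.1.2]
    ring⟩
  let Φ : (S × S) × (ZMod (2 * (m + 1)) × Bool) → (Fin m × Fin m) × PolyFun (m + 1) :=
    fun t => ((a t.1, b t.1), toP (G t.1, t.2.1, t.2.2))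
  have key : ∀ {ω ω' : List Pt} {c : ℕ}, c < m → ω.length = m → ω'.length = m →
      ω.rotate c = ω'.rotate c → ω = ω' := by
    intro ω ω' c hc h1 h2 h3
    rw [← rotate_back ω (a := c) (by omega), ← rotate_back ω' (a := c) (by omega), h3, h1, h2]
  have hΦ : Function.Injective Φ := by
    rintro ⟨p, z, s⟩ ⟨p', z', s'⟩ h
    simp only [Φ, Prod.mk.injEq] at h
    obtain ⟨⟨h1, h2⟩, h3⟩ := h
    have h4 := toP_inj h3
    simp only [Prod.mk.injEq] at h4
    obtain ⟨h5, h6, h7⟩ := h4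
    have h8 := congrArg Subtype.val h5
    simp only [G, Prod.mk.injEq] at h8
    obtain ⟨h9, h10⟩ := h8
    rw [← h1] at h9
    rw [← h2] at h10
    have e1 := key (a p).is_lt p.1.2.1.2 p'.1.2.1.2 h9
    have e2 := key (b p).is_lt p.2.2.1.2 p'.2.2.1.2 h10
    have e3 : p = p' := Prod.ext (Subtype.ext e1) (Subtype.ext e2)
    rw [e3, h6, h7]
  have hc := Nat.card_le_card_of_injective Φ hΦ
  rw [Nat.card_prod, Nat.card_prod, Nat.card_prod, Nat.card_prod, Nat.card_prod, Nat.card_zmod,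
    Nat.card_eq_fintype_card (α := Bool), Fintype.card_bool, Nat.card_eq_fintype_card (α := Fin m),
    Fintype.card_fin] at hc
  calc (bv m v) ^ 2 * (4 * (m + 1)) = bv m v * bv m v * (2 * (m + 1) * 2) := by ring
    _ ≤ m * m * Nat.card (PolyFun (m + 1)) := hc
    _ = _ := by ring

theorem exists_bv {m : ℕ} (hm : 1 ≤ m) : ∃ v : Pt, bn m ≤ (2 * m + 1) ^ 2 * bv m v := by
  classical
  have := bnFinite m
  have : Fintype {l : List Pt // Bridge l ∧ l.length = m} := Fintype.ofFinite _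
  set t : Finset Pt := Finset.Icc (-(m:ℤ)) m ×ˢ Finset.Icc (-(m:ℤ)) m with ht
  have htc : t.card = (2 * m + 1) ^ 2 := by
    rw [ht, Finset.card_product, Int.card_Icc]
    rw [show ((m:ℤ) + 1 - -(m:ℤ)).toNat = 2 * m + 1 by omega]
    ring
  have hmaps : Set.MapsTo (fun l : {l : List Pt // Bridge l ∧ l.length = m} => l.1.sum)
      (Finset.univ : Finset {l : List Pt // Bridge l ∧ l.length = m}) t := by
    intro l _
    have h1 := (sum_parity l.1 l.2.1.1.1).2
    rw [l.2.2] at h1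
    have h2 := abs_nonneg l.1.sum.1
    have h3 := abs_nonneg l.1.sum.2
    have h4 : |l.1.sum.1| ≤ m := by omega
    have h5 : |l.1.sum.2| ≤ m := by omega
    rw [abs_le] at h4 h5
    rw [ht, Finset.mem_coe, Finset.mem_product, Finset.mem_Icc, Finset.mem_Icc]
    exact ⟨h4, h5⟩
  have hsum := Finset.card_eq_sum_card_fiberwise hmaps
  have hne : t.Nonempty := by
    rw [← Finset.card_pos, htc]
    positivity
  obtain ⟨v, hv, hmax⟩ := Finset.exists_max_image t (fun v =>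
    (Finset.univ.filter (fun l : {l : List Pt // Bridge l ∧ l.length = m} => l.1.sum = v)).card) hne
  refine ⟨v, ?_⟩
  have h1 : bn m = (Finset.univ : Finset {l : List Pt // Bridge l ∧ l.length = m}).card := by
    unfold bn
    rw [Nat.card_eq_fintype_card, Finset.card_univ]
  have h2 : bv m v =
      (Finset.univ.filter (fun l : {l : List Pt // Bridge l ∧ l.length = m} => l.1.sum = v)).card := by
    unfold bv
    rw [← Fintype.card_subtype, ← Nat.card_eq_fintype_card]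
    exact Nat.card_congr (Equiv.subtypeSubtypeEquivSubtypeInter
      (fun l : List Pt => Bridge l ∧ l.length = m) (fun l => l.sum = v)).symm
  rw [h1, h2, hsum, ← htc]
  have := Finset.sum_le_card_nsmul t (fun v =>
    (Finset.univ.filter (fun l : {l : List Pt // Bridge l ∧ l.length = m} => l.1.sum = v)).card) _ hmax
  simpa using this

theorem poly_ge {m : ℕ} (hm : 1 ≤ m) : (bn m : ℝ) ^ 2 ≤ (m:ℝ) ^ 2 * (2 * m + 1) ^ 4 *
    ((Nat.card (PolyFun (m + 1)) : ℝ) / (4 * ((m + 1 : ℕ) : ℝ))) := by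
  obtain ⟨v, hv⟩ := exists_bv hm
  have h1 := bv_sq_le hm v
  have h2 : (bn m : ℝ) ≤ (2 * m + 1) ^ 2 * bv m v := by exact_mod_cast hv
  have h3 : (bv m v : ℝ) ^ 2 * (4 * ((m + 1 : ℕ) : ℝ)) ≤ (m:ℝ) ^ 2 * Nat.card (PolyFun (m + 1)) := by
    exact_mod_cast h1
  have hp : (0:ℝ) < 4 * ((m + 1 : ℕ) : ℝ) := by positivity
  have h4 : (bv m v : ℝ) ^ 2 ≤ (m:ℝ) ^ 2 * ((Nat.card (PolyFun (m + 1)) : ℝ) / (4 * ((m + 1 : ℕ) : ℝ))) := by
    rw [← mul_div_assoc, le_div_iff₀ hp]
    exact h3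
  have h5 : (0:ℝ) ≤ (bn m : ℝ) := Nat.cast_nonneg _
  calc (bn m : ℝ) ^ 2 ≤ ((2 * m + 1) ^ 2 * bv m v) ^ 2 := pow_le_pow_left₀ h5 h2 2
    _ = (2 * m + 1) ^ 4 * (bv m v : ℝ) ^ 2 := by ring
    _ ≤ (2 * m + 1) ^ 4 * ((m:ℝ) ^ 2 * ((Nat.card (PolyFun (m + 1)) : ℝ) / (4 * ((m + 1 : ℕ) : ℝ)))) :=
        mul_le_mul_of_nonneg_left h4 (by positivity)
    _ = _ := by ring

end Pool.Agent.Work.MP_376faf_co_hw
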