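import Mathlib

/-! Module Analysis: real analysis. -/

set_option autoImplicit false

namespace Pool.Agent.Work.MP_376faf_co_hw

/-- tangent line bound for `x ^ α`, `0 ≤ α ≤ 1` -/
lemma tangent {α : ℝ} (hα0 : 0 ≤ α) (hα1 : α ≤ 1) {x y : ℝ} (hx : 0 < x) (hy : 0 ≤ y) :
    y ^ α ≤ x ^ α - α * ((x - y) / x ^ (1 - α)) := by
  have h1 : (1 + (y - x) / x) ^ α ≤ 1 + α * ((y - x) / x) := by
    apply rpow_one_add_le_one_add_mul_self
    · rw [le_div_iff₀ hx]; linarith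
    · exact hα0
    · exact hα1
  have h2 : y = x * (1 + (y - x) / x) := by field_simp; ring
  have h3 : 0 ≤ 1 + (y - x) / x := by
    have : 1 + (y - x) / x = y / x := by field_simp; ring
    rw [this]; positivity
  have h4 : y ^ α = x ^ α * (1 + (y - x) / x) ^ α := by
    conv_lhs => rw [h2]
    rw [Real.mul_rpow hx.le h3]
  have h5 : x ^ α * x ^ (1 - α) = x := by
    rw [← Real.rpow_add hx]; simp
  have h6 : 0 < x ^ (1 - α) := Real.rpow_pos_of_pos hx _
  have h7 : 0 < x ^ α := Real.rpow_pos_of_pos hx _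
  have h8 : x ^ α / x = 1 / x ^ (1 - α) := by
    rw [div_eq_div_iff hx.ne' h6.ne', h5, one_mul]
  calc y ^ α = x ^ α * (1 + (y - x) / x) ^ α := h4
    _ ≤ x ^ α * (1 + α * ((y - x) / x)) := mul_le_mul_of_nonneg_left h1 h7.le
    _ = x ^ α - α * ((x - y) * (x ^ α / x)) := by ring
    _ = x ^ α - α * ((x - y) / x ^ (1 - α)) := by rw [h8]; ring

/-- the recursion `F n ≤ 4 log n + 2 l / m + F (n - l)`, with `n ^ (1 - α) / log n ≤ 2 m` -/
theorem F_bound_gen {α : ℝ} (hα0 : 0 < α) (hα1 : α ≤ 1)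
    {F : ℕ → ℝ} (hsub : ∀ a b, F (a + b) ≤ F a + F b) {N0 : ℕ}
    (hgood : ∀ n ≥ N0, ∃ m l : ℕ, 1 ≤ m ∧ m ≤ l ∧ l ≤ n ∧
      (n:ℝ) ^ (1 - α) / Real.log n ≤ 2 * m ∧ F l ≤ 4 * Real.log n + 2 * l / m) :
    ∃ C : ℝ, 0 < C ∧ ∀ n ≥ 2, F n ≤ C * (n:ℝ) ^ α * Real.log n ^ 2 := by
  set N1 := max N0 3 with hN1
  set K : ℝ := 12 / α with hK
  have hK0 : 0 < K := by positivity
  have hKα : K * α = 12 := by rw [hK]; field_simp
  set B : ℝ := ∑ i ∈ Finset.range N1, |F i| with hB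
  have hB0 : 0 ≤ B := Finset.sum_nonneg (fun i _ => abs_nonneg _)
  have hBF : ∀ n < N1, F n ≤ B := by
    intro n hn
    calc F n ≤ |F n| := le_abs_self _
      _ ≤ B := Finset.single_le_sum (f := fun i => |F i|) (fun i _ => abs_nonneg _)
          (Finset.mem_range.mpr hn)
  have key : ∀ N : ℕ, ∀ n ≤ N, F n ≤ B + K * (n:ℝ) ^ α * Real.log N ^ 2 := by
    intro N n
    induction n using Nat.strong_induction_on with
    | _ n ih =>
      intro hnN
      by_cases hn : n < N1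
      · have h1 : 0 ≤ K * (n:ℝ) ^ α * Real.log N ^ 2 := by positivity
        have := hBF n hn
        linarith
      · rw [not_lt] at hn
        have hn0 : N0 ≤ n := (le_max_left _ _).trans hn
        have hn3 : 3 ≤ n := (le_max_right _ _).trans hn
        obtain ⟨m, l, hm1, hml, hln, hm2, hFl⟩ := hgood n hn0
        have hnR : (3 : ℝ) ≤ n := by exact_mod_cast hn3
        have hnpos : (0 : ℝ) < n := by linarith
        have hlogn : 1 ≤ Real.log n := by
          rw [Real.le_log_iff_exp_le hnpos]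
          have := Real.exp_one_lt_d9
          linarith
        have hlogN : Real.log n ≤ Real.log N := Real.log_le_log hnpos (by exact_mod_cast hnN)
        set L := Real.log N with hL
        have hL1 : 1 ≤ L := hlogn.trans hlogN
        have hmR : (1 : ℝ) ≤ m := by exact_mod_cast hm1
        have hm0 : (0 : ℝ) < m := by linarith
        have hmlR : (m : ℝ) ≤ l := by exact_mod_cast hml
        have hlnR : (l : ℝ) ≤ n := by exact_mod_cast hln
        have hl0 : (0 : ℝ) < l := by linarith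
        have hsplit : F n ≤ F l + F (n - l) := by
          have : n = l + (n - l) := by omega
          conv_lhs => rw [this]
          exact hsub l (n - l)
        have hih := ih (n - l) (by omega) (by omega)
        have hcast : ((n - l : ℕ) : ℝ) = (n : ℝ) - l := by
          push_cast [Nat.cast_sub hln]; ring
        rw [hcast] at hih
        have htan := tangent hα0.le hα1 (x := (n : ℝ)) (y := (n : ℝ) - l) hnpos (by linarith)
        have h35 : 0 < (n : ℝ) ^ (1 - α) := Real.rpow_pos_of_pos hnpos _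
        have hx1 : (n : ℝ) - ((n : ℝ) - l) = l := by ring
        rw [hx1] at htan
        -- `l / m ≤ 2 log n * (l / n^(1-α))`
        have hlm : (l : ℝ) / m ≤ 2 * Real.log n * (l / (n : ℝ) ^ (1 - α)) := by
          rw [div_le_iff₀ hm0]
          have h1 : (n:ℝ) ^ (1 - α) ≤ 2 * m * Real.log n := by
            rw [div_le_iff₀ (by linarith)] at hm2
            exact hm2
          have h2 : 2 * Real.log n * (l / (n : ℝ) ^ (1 - α)) * m =
              l * ((2 * m * Real.log n) / (n : ℝ) ^ (1 - α)) := by ring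
          rw [h2]
          have h3 : 1 ≤ (2 * m * Real.log n) / (n : ℝ) ^ (1 - α) := by
            rw [le_div_iff₀ h35]; linarith
          calc (l : ℝ) = l * 1 := (mul_one _).symm
            _ ≤ l * ((2 * m * Real.log n) / (n : ℝ) ^ (1 - α)) :=
                mul_le_mul_of_nonneg_left h3 hl0.le
        have hlm1 : 1 ≤ (l : ℝ) / m := by rw [le_div_iff₀ hm0]; linarith
        set z := (l : ℝ) / (n : ℝ) ^ (1 - α) with hz
        have hz0 : 0 ≤ z := by positivity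
        have hcost : 4 * Real.log n + 2 * l / m ≤ 12 * L ^ 2 * z := by
          have h1 : 4 * Real.log n ≤ 4 * L * (l / m) := by
            calc 4 * Real.log n ≤ 4 * L := by linarith
              _ = 4 * L * 1 := by ring
              _ ≤ 4 * L * (l / m) := mul_le_mul_of_nonneg_left hlm1 (by linarith)
          have h2 : 2 * l / m ≤ 2 * L * (l / m) := by
            have : 2 * (l : ℝ) / m = 2 * 1 * (l / m) := by ring
            rw [this]
            exact mul_le_mul_of_nonneg_right (by linarith) (by positivity)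
          have h3 : 6 * L * (l / m) ≤ 6 * L * (2 * L * z) := by
            refine mul_le_mul_of_nonneg_left ?_ (by linarith)
            refine hlm.trans ?_
            exact mul_le_mul_of_nonneg_right (by linarith) hz0
          calc 4 * Real.log n + 2 * l / m ≤ 4 * L * (l / m) + 2 * L * (l / m) := add_le_add h1 h2
            _ = 6 * L * (l / m) := by ring
            _ ≤ 6 * L * (2 * L * z) := h3
            _ = 12 * L ^ 2 * z := by ring
        have hL2 : 0 ≤ K * L ^ 2 := by positivity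
        have hfin : K * L ^ 2 * ((n : ℝ) - l) ^ α ≤
            K * L ^ 2 * ((n : ℝ) ^ α - α * z) :=
          mul_le_mul_of_nonneg_left htan hL2
        calc F n ≤ F l + F (n - l) := hsplit
          _ ≤ (4 * Real.log n + 2 * l / m) +
              (B + K * ((n : ℝ) - l) ^ α * L ^ 2) := add_le_add hFl hih
          _ ≤ 12 * L ^ 2 * z + (B + K * L ^ 2 * ((n : ℝ) ^ α - α * z)) := by
              linarith
          _ = B + K * (n:ℝ) ^ α * L ^ 2 + (12 - K * α) * (L ^ 2 * z) := by ring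
          _ = B + K * (n:ℝ) ^ α * L ^ 2 := by rw [hKα]; ring
  refine ⟨4 * B + K, by linarith, ?_⟩
  intro n hn
  have h1 := key n n le_rfl
  have hnR : (2 : ℝ) ≤ n := by exact_mod_cast hn
  have h2 : (1 : ℝ) ≤ (n:ℝ) ^ α := Real.one_le_rpow (by linarith) hα0.le
  have h3 : (1 / 2 : ℝ) ≤ Real.log n := by
    have h4 := Real.log_two_gt_d9
    have h5 : Real.log 2 ≤ Real.log n := Real.log_le_log (by norm_num) hnR
    linarith
  have h4 : (1 / 4 : ℝ) ≤ (n:ℝ) ^ α * Real.log n ^ 2 := by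
    calc (1 / 4 : ℝ) = 1 * (1 / 2) ^ 2 := by norm_num
      _ ≤ (n:ℝ) ^ α * Real.log n ^ 2 :=
        mul_le_mul h2 (pow_le_pow_left₀ (by norm_num) h3 2) (by norm_num) (by linarith)
  have h5 : B ≤ 4 * B * ((n:ℝ) ^ α * Real.log n ^ 2) := by
    calc B = 4 * B * (1 / 4) := by ring
      _ ≤ 4 * B * ((n:ℝ) ^ α * Real.log n ^ 2) :=
        mul_le_mul_of_nonneg_left h4 (by linarith)
  calc F n ≤ B + K * (n:ℝ) ^ α * Real.log n ^ 2 := h1
    _ ≤ 4 * B * ((n:ℝ) ^ α * Real.log n ^ 2) +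
        K * (n:ℝ) ^ α * Real.log n ^ 2 := by linarith
    _ = (4 * B + K) * (n:ℝ) ^ α * Real.log n ^ 2 := by ring

/-- the recursion F(n) ≤ (n/m)(4 log n + 2) + F(r), r ≤ n/2 -/
theorem F_bound {F : ℕ → ℝ} (h0 : F 0 = 0) (hsub : ∀ a b, F (a + b) ≤ F a + F b) {N0 : ℕ}
    (hgood : ∀ n ≥ N0, ∃ m l : ℕ, 1 ≤ m ∧ m ≤ l ∧ l ≤ n ∧
      (n:ℝ) ^ (2 / 3 : ℝ) / Real.log n ≤ 2 * m ∧ F l ≤ 4 * Real.log n + 2 * l / m) :
    ∃ C : ℝ, 0 < C ∧ ∀ n ≥ 2, F n ≤ C * (n:ℝ) ^ (1 / 3 : ℝ) * Real.log n ^ 2 := by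
  have _ := h0
  refine F_bound_gen (α := 1 / 3) (by norm_num) (by norm_num) hsub (N0 := N0) ?_
  have h : (1 - 1 / 3 : ℝ) = 2 / 3 := by norm_num
  rw [h]
  exact hgood

/-- the bound for half-plane walks -/
noncomputable def HB (μ : ℝ) (m D k : ℕ) : ℝ := 200 * μ * ((m:ℝ) + 1) ^ 2 *
  (1 + 1 / (D:ℝ)) ^ (2 * m) * Real.exp (500 * μ ^ 2 * (k:ℝ) ^ 2 * D)

lemma HB_nonneg {μ : ℝ} (hμ : 1 ≤ μ) (m D k : ℕ) : 0 ≤ HB μ m D k := by
  unfold HB
  have : (0:ℝ) ≤ μ := by linarith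
  positivity

lemma HB_le {μ : ℝ} (hμ : 1 ≤ μ) (m D k : ℕ) :
    HB μ m D k ≤ Real.exp (200 * μ + 2 * Real.log ((m:ℝ) + 1) + 2 * (m:ℝ) / D +
      500 * μ ^ 2 * (k:ℝ) ^ 2 * D) := by
  unfold HB
  have h0 : (0:ℝ) ≤ μ := by linarith
  have hm : (0:ℝ) < (m:ℝ) + 1 := by positivity
  have h1 : 200 * μ ≤ Real.exp (200 * μ) := by
    have := Real.add_one_le_exp (200 * μ)
    linarith
  have h2 : ((m:ℝ) + 1) ^ 2 = Real.exp (2 * Real.log ((m:ℝ) + 1)) := by
    rw [two_mul, Real.exp_add, Real.exp_log hm, sq]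
  have h3 : (1 + 1 / (D:ℝ)) ^ (2 * m) ≤ Real.exp (2 * (m:ℝ) / D) := by
    have h4 : 1 + 1 / (D:ℝ) ≤ Real.exp (1 / (D:ℝ)) := by
      have := Real.add_one_le_exp (1 / (D:ℝ))
      linarith
    calc (1 + 1 / (D:ℝ)) ^ (2 * m) ≤ Real.exp (1 / (D:ℝ)) ^ (2 * m) :=
          pow_le_pow_left₀ (by positivity) h4 _
      _ = Real.exp (2 * (m:ℝ) / D) := by
          rw [← Real.exp_nat_mul]
          congr 1
          push_cast
          ring
  rw [Real.exp_add, Real.exp_add, Real.exp_add, ← h2]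
  gcongr

lemma HB_sq_le {μ : ℝ} (hμ : 1 ≤ μ) (m D k : ℕ) :
    HB μ m D k ^ 2 * μ ≤ Real.exp (401 * μ + 4 * Real.log ((m:ℝ) + 1) + 4 * ((m:ℝ) / D) +
      1000 * μ ^ 2 * ((k:ℝ) ^ 2 * D)) := by
  have h0 : (0:ℝ) ≤ μ := by linarith
  have h1 := HB_le hμ m D k
  have h2 : μ ≤ Real.exp μ := by
    have := Real.add_one_le_exp μ
    linarith
  calc HB μ m D k ^ 2 * μ ≤ Real.exp (200 * μ + 2 * Real.log ((m:ℝ) + 1) + 2 * (m:ℝ) / D +
      500 * μ ^ 2 * (k:ℝ) ^ 2 * D) ^ 2 * Real.exp μ :=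
        mul_le_mul (pow_le_pow_left₀ (HB_nonneg hμ m D k) h1 2) h2 h0 (by positivity)
    _ = Real.exp (401 * μ + 4 * Real.log ((m:ℝ) + 1) + 4 * ((m:ℝ) / D) +
      1000 * μ ^ 2 * ((k:ℝ) ^ 2 * D)) := by
        rw [← Real.exp_nat_mul, ← Real.exp_add]
        congr 1
        push_cast
        ring

/-- the core inequality for `params_a`, with `u = n^(1/3)` and `s = √(log n)` -/
lemma core_a {μ : ℝ} (hμ : 1 ≤ μ) {n : ℕ} {u s : ℝ} (hu : u ^ 3 = n) (hs : s ^ 2 = Real.log n)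
    (hs1 : 40000 * μ ^ 2 ≤ s) (hus : s ^ 3 ≤ u) :
    ∃ m D k : ℕ, 1 ≤ m ∧ m ≤ n ∧ m ≤ 2 ^ k ∧
    1 ≤ k ∧ 1 ≤ D ∧ u ^ 2 / Real.log n ≤ 2 * m ∧
    HB μ m D k ^ 2 * μ < (2:ℝ) ^ ((n:ℝ) / (m:ℝ)) := by
  have hμ2 : 1 ≤ μ ^ 2 := one_le_pow₀ hμ
  have hs2 : (40000:ℝ) ≤ s := by linarith
  have hspos : 0 < s := by linarith
  have hs3 : s ≤ s ^ 3 := le_self_pow₀ (by linarith) (by norm_num)
  have hupos : 0 < u := by linarith
  have hsu : s ≤ u := by linarith
  have hu2 : (40000:ℝ) ≤ u := by linarith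
  have hs2pos : 0 < s ^ 2 := by positivity
  have hs3pos : 0 < s ^ 3 := by positivity
  have hlogpos : 0 < Real.log n := by rw [← hs]; exact hs2pos
  have hnR : (0:ℝ) < n := by rw [← hu]; positivity
  set m := ⌈u ^ 2 / (2 * s ^ 2)⌉₊ with hm
  set D := ⌈u / s ^ 3⌉₊ with hD
  set k := ⌈2 * s ^ 2⌉₊ with hk
  have hm_ge : u ^ 2 / (2 * s ^ 2) ≤ m := Nat.le_ceil _
  have hm_le : (m:ℝ) ≤ u ^ 2 / s ^ 2 := by
    have h1 : (m:ℝ) < u ^ 2 / (2 * s ^ 2) + 1 := Nat.ceil_lt_add_one (by positivity)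
    have h2 : 1 ≤ u ^ 2 / (2 * s ^ 2) := by
      rw [le_div_iff₀ (by positivity)]
      have h3 : s ^ 3 * s ^ 3 ≤ u * u := mul_le_mul hus hus (by positivity) hupos.le
      have h4 : (2:ℝ) ≤ s ^ 4 := by
        calc (2:ℝ) ≤ s := by linarith
          _ ≤ s ^ 4 := le_self_pow₀ (by linarith) (by norm_num)
      calc 1 * (2 * s ^ 2) = 2 * s ^ 2 := by ring
        _ ≤ s ^ 4 * s ^ 2 := mul_le_mul_of_nonneg_right h4 hs2pos.le
        _ = s ^ 3 * s ^ 3 := by ring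
        _ ≤ u * u := h3
        _ = u ^ 2 := by ring
    have h5 : u ^ 2 / s ^ 2 = u ^ 2 / (2 * s ^ 2) + u ^ 2 / (2 * s ^ 2) := by
      field_simp
      ring
    linarith
  have hmpos : (0:ℝ) < m := lt_of_lt_of_le (by positivity) hm_ge
  have hm1 : 1 ≤ m := by
    have : 0 < m := by exact_mod_cast hmpos
    exact this
  have hu2s : u ^ 2 / s ^ 2 ≤ u ^ 2 := by
    apply div_le_self (by positivity)
    exact one_le_pow₀ (by linarith)
  have hm1n : (m:ℝ) + 1 ≤ n := by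
    rw [← hu]
    have h1 : u ^ 2 + 1 ≤ u ^ 3 := by
      have h2 : (1:ℝ) ≤ u ^ 2 := one_le_pow₀ (by linarith)
      have h3 : u ^ 3 = u * u ^ 2 := by ring
      have h4 : 2 * u ^ 2 ≤ u * u ^ 2 := mul_le_mul_of_nonneg_right (by linarith) (by positivity)
      linarith
    linarith
  have hmn : m ≤ n := by
    have : (m:ℝ) ≤ n := by linarith
    exact_mod_cast this
  have hk_ge : 2 * s ^ 2 ≤ k := Nat.le_ceil _
  have hs2_1 : 1 ≤ s ^ 2 := one_le_pow₀ (by linarith)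
  have hk_le : (k:ℝ) ≤ 3 * s ^ 2 := by
    have h1 : (k:ℝ) < 2 * s ^ 2 + 1 := Nat.ceil_lt_add_one (by positivity)
    linarith
  have hk1 : 1 ≤ k := by
    have : (1:ℝ) ≤ k := by linarith
    exact_mod_cast this
  have hm2k : m ≤ 2 ^ k := by
    have h1 : (m:ℝ) ≤ 2 ^ k := by
      calc (m:ℝ) ≤ n := by linarith
        _ = Real.exp (Real.log n) := (Real.exp_log hnR).symm
        _ ≤ Real.exp (k * Real.log 2) := by
            apply Real.exp_le_exp.mpr
            have h2 : (1/2:ℝ) ≤ Real.log 2 := by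
              have := Real.log_two_gt_d9
              linarith
            have h3 : (k:ℝ) * (1/2) ≤ k * Real.log 2 := mul_le_mul_of_nonneg_left h2 (by positivity)
            linarith
        _ = 2 ^ k := by rw [Real.exp_nat_mul, Real.exp_log (by norm_num)]
    exact_mod_cast h1
  have hD_ge : u / s ^ 3 ≤ D := Nat.le_ceil _
  have hus1 : 1 ≤ u / s ^ 3 := by rw [le_div_iff₀ hs3pos]; linarith
  have hD_le : (D:ℝ) ≤ 2 * (u / s ^ 3) := by
    have h1 : (D:ℝ) < u / s ^ 3 + 1 := Nat.ceil_lt_add_one (by positivity)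
    linarith
  have hD1 : 1 ≤ D := by
    have : (1:ℝ) ≤ D := by linarith
    exact_mod_cast this
  have hDpos : (0:ℝ) < D := by linarith
  refine ⟨m, D, k, hm1, hmn, hm2k, hk1, hD1, ?_, ?_⟩
  · rw [← hs]
    have : u ^ 2 / s ^ 2 = 2 * (u ^ 2 / (2 * s ^ 2)) := by field_simp
    rw [this]
    linarith
  · refine lt_of_le_of_lt (HB_sq_le hμ m D k) ?_
    rw [Real.rpow_def_of_pos (by norm_num : (0:ℝ) < 2)]
    apply Real.exp_lt_exp.mpr
    have hA : Real.log ((m:ℝ) + 1) ≤ s ^ 2 := by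
      rw [hs]
      exact Real.log_le_log (by positivity) hm1n
    have hus0 : 0 < u * s := by positivity
    have hA' : s ^ 2 ≤ u * s := by
      rw [sq]; exact mul_le_mul_of_nonneg_right hsu hspos.le
    have hB : (m:ℝ) / D ≤ u * s := by
      rw [div_le_iff₀ hDpos]
      calc (m:ℝ) ≤ u ^ 2 / s ^ 2 := hm_le
        _ = u * s * (u / s ^ 3) := by field_simp
        _ ≤ u * s * D := mul_le_mul_of_nonneg_left hD_ge hus0.le
    have hC : (k:ℝ) ^ 2 * D ≤ 18 * (u * s) := by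
      calc (k:ℝ) ^ 2 * D ≤ (3 * s ^ 2) ^ 2 * (2 * (u / s ^ 3)) :=
            mul_le_mul (pow_le_pow_left₀ (by positivity) hk_le 2) hD_le hDpos.le (by positivity)
        _ = 18 * (u * s) := by field_simp; ring
    have hE : u * s ^ 2 ≤ (n:ℝ) / m := by
      rw [le_div_iff₀ hmpos]
      calc u * s ^ 2 * m ≤ u * s ^ 2 * (u ^ 2 / s ^ 2) :=
            mul_le_mul_of_nonneg_left hm_le (by positivity)
        _ = u ^ 3 := by field_simp
        _ = n := hu
    have hF : (1/2:ℝ) * (u * s ^ 2) ≤ Real.log 2 * ((n:ℝ) / m) := by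
      have h2 : (1/2:ℝ) ≤ Real.log 2 := by
        have := Real.log_two_gt_d9
        linarith
      exact mul_le_mul h2 hE (by positivity) (by linarith)
    have hus1' : 1 ≤ u * s := by
      calc (1:ℝ) = 1 * 1 := by ring
        _ ≤ u * s := mul_le_mul (by linarith) (by linarith) (by norm_num) hupos.le
    have hμs : μ ≤ μ ^ 2 := le_self_pow₀ hμ (by norm_num)
    have hG : 401 * μ ≤ 401 * μ ^ 2 * (u * s) := by
      calc 401 * μ ≤ 401 * μ ^ 2 * 1 := by linarith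
        _ ≤ 401 * μ ^ 2 * (u * s) := mul_le_mul_of_nonneg_left hus1' (by positivity)
    have hH : 8 * (u * s) ≤ 8 * μ ^ 2 * (u * s) := mul_le_mul_of_nonneg_right (by linarith) hus0.le
    have hI : 1000 * μ ^ 2 * ((k:ℝ) ^ 2 * D) ≤ 18000 * μ ^ 2 * (u * s) := by
      calc 1000 * μ ^ 2 * ((k:ℝ) ^ 2 * D) ≤ 1000 * μ ^ 2 * (18 * (u * s)) :=
            mul_le_mul_of_nonneg_left hC (by positivity)
        _ = 18000 * μ ^ 2 * (u * s) := by ring
    have hJ : 20000 * μ ^ 2 * (u * s) ≤ (1/2:ℝ) * (u * s ^ 2) := by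
      calc 20000 * μ ^ 2 * (u * s) = (1/2) * (40000 * μ ^ 2) * (u * s) := by ring
        _ ≤ (1/2) * s * (u * s) := by
            apply mul_le_mul_of_nonneg_right _ hus0.le
            linarith
        _ = (1/2:ℝ) * (u * s ^ 2) := by ring
    have hK : 0 < μ ^ 2 * (u * s) := by positivity
    linarith

/-- parameters for the lower bound: the bound for half-plane walks beats 2^(n/m) -/
theorem params_a (μ : ℝ) (hμ : 1 ≤ μ) : ∃ N0 : ℕ, ∀ n ≥ N0, ∃ m D k : ℕ, 1 ≤ m ∧ m ≤ n ∧ m ≤ 2 ^ k ∧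
    1 ≤ k ∧ 1 ≤ D ∧ (n:ℝ) ^ (2 / 3 : ℝ) / Real.log n ≤ 2 * m ∧
    HB μ m D k ^ 2 * μ < (2:ℝ) ^ ((n:ℝ) / (m:ℝ)) := by
  have hlog : Filter.Tendsto (fun n : ℕ => Real.log (n:ℝ)) Filter.atTop Filter.atTop :=
    Real.tendsto_log_atTop.comp tendsto_natCast_atTop_atTop
  have h1 : ∀ᶠ n : ℕ in Filter.atTop, (40000 * μ ^ 2) ^ 2 ≤ Real.log (n:ℝ) :=
    hlog.eventually_ge_atTop _
  have h2 : ∀ᶠ x : ℝ in Filter.atTop, Real.log x ≤ x ^ (2 / 9 : ℝ) := by
    have h3 := (isLittleO_log_rpow_atTop (r := (2 / 9 : ℝ)) (by norm_num)).bound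
      (show (0:ℝ) < 1 by norm_num)
    filter_upwards [h3, Filter.eventually_ge_atTop (1:ℝ)] with x hx hx1
    rw [one_mul, Real.norm_of_nonneg (Real.log_nonneg hx1),
      Real.norm_of_nonneg (by positivity)] at hx
    exact hx
  have h3 : ∀ᶠ n : ℕ in Filter.atTop, Real.log (n:ℝ) ≤ (n:ℝ) ^ (2 / 9 : ℝ) :=
    tendsto_natCast_atTop_atTop.eventually h2
  obtain ⟨N0, hN0⟩ := Filter.eventually_atTop.mp
    ((h1.and h3).and (Filter.eventually_ge_atTop 1))
  refine ⟨N0, fun n hn => ?_⟩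
  obtain ⟨⟨ha, hb⟩, hc⟩ := hN0 n hn
  have hnR : (0:ℝ) < n := by exact_mod_cast hc
  have hlog0 : 0 ≤ Real.log (n:ℝ) := le_trans (by positivity) ha
  have hu : ((n:ℝ) ^ (1 / 3 : ℝ)) ^ 3 = n := by
    rw [← Real.rpow_natCast, ← Real.rpow_mul hnR.le]
    norm_num
  have hs : (Real.sqrt (Real.log n)) ^ 2 = Real.log n := Real.sq_sqrt hlog0
  have hs1 : 40000 * μ ^ 2 ≤ Real.sqrt (Real.log n) :=
    Real.le_sqrt_of_sq_le ha
  have hus : (Real.sqrt (Real.log n)) ^ 3 ≤ (n:ℝ) ^ (1 / 3 : ℝ) := by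
    have h4 : Real.sqrt (Real.log n) ≤ (n:ℝ) ^ (1 / 9 : ℝ) := by
      rw [Real.sqrt_le_left (by positivity)]
      have h5 : ((n:ℝ) ^ (1 / 9 : ℝ)) ^ 2 = (n:ℝ) ^ (2 / 9 : ℝ) := by
        rw [← Real.rpow_natCast, ← Real.rpow_mul hnR.le]
        norm_num
      rw [h5]; exact hb
    have h6 : ((n:ℝ) ^ (1 / 9 : ℝ)) ^ 3 = (n:ℝ) ^ (1 / 3 : ℝ) := by
      rw [← Real.rpow_natCast, ← Real.rpow_mul hnR.le]
      norm_num
    rw [← h6]
    exact pow_le_pow_left₀ (Real.sqrt_nonneg _) h4 3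
  have hu2 : ((n:ℝ) ^ (1 / 3 : ℝ)) ^ 2 = (n:ℝ) ^ (2 / 3 : ℝ) := by
    rw [← Real.rpow_natCast, ← Real.rpow_mul hnR.le]
    norm_num
  have := core_a hμ hu hs hs1 hus
  rw [hu2] at this
  exact this

/-- parameters for the upper bound -/
theorem params_b (μ : ℝ) (hμ : 1 ≤ μ) : ∃ C : ℝ, 0 < C ∧ ∀ n : ℕ, 2 ≤ n →
    ∃ m D k : ℕ, ∃ θ : ℝ, 1 ≤ m ∧ m ≤ 2 ^ k ∧ 1 ≤ k ∧ 1 ≤ D ∧ 1 ≤ θ ∧ (n:ℝ) + 1 ≤ θ ^ m ∧
    HB μ m D k ^ 2 * μ * θ ^ (n + 1) ≤ Real.exp (C * (n:ℝ) ^ (1 / 3 : ℝ) * Real.log n) := by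
  refine ⟨40000 * μ ^ 2, by positivity, fun n hn => ?_⟩
  have hμ2 : 1 ≤ μ ^ 2 := one_le_pow₀ hμ
  have hμs : μ ≤ μ ^ 2 := le_self_pow₀ hμ (by norm_num)
  have hnR : (2:ℝ) ≤ n := by exact_mod_cast hn
  have hn0 : (0:ℝ) < n := by linarith
  set u := (n:ℝ) ^ (1 / 3 : ℝ) with hu
  set L := Real.log n with hL
  have hu3 : u ^ 3 = n := by
    rw [hu, ← Real.rpow_natCast, ← Real.rpow_mul hn0.le]
    norm_num
  have hu1 : 1 ≤ u := Real.one_le_rpow (by linarith) (by norm_num)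
  have hu0 : 0 < u := by linarith
  have hlog2 := Real.log_two_gt_d9
  have hL2 : Real.log 2 ≤ L := Real.log_le_log (by norm_num) hnR
  have hL1 : (1/2:ℝ) ≤ L := by linarith
  have hL0 : 0 < L := by linarith
  have hLu : L ≤ 3 * u := by
    have h1 : Real.log u ≤ u - 1 := Real.log_le_sub_one_of_pos hu0
    have h2 : L = 3 * Real.log u := by
      rw [hL, ← hu3, Real.log_pow]
      norm_num
    linarith
  have huL : 1 ≤ 2 * (u * L) := by
    have : 1 * (1/2) ≤ u * L := mul_le_mul hu1 hL1 (by norm_num) hu0.le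
    linarith
  have huL0 : 0 < u * L := by positivity
  set m := ⌈u ^ 2⌉₊ with hm
  set D := ⌈u / L⌉₊ with hD
  set k := Nat.log 2 n + 1 with hk
  have hm_ge : u ^ 2 ≤ m := Nat.le_ceil _
  have hu2 : 1 ≤ u ^ 2 := one_le_pow₀ hu1
  have hm_le : (m:ℝ) ≤ 2 * u ^ 2 := by
    have h1 : (m:ℝ) < u ^ 2 + 1 := Nat.ceil_lt_add_one (by positivity)
    linarith
  have hm1R : (1:ℝ) ≤ m := by linarith
  have hm0 : (0:ℝ) < m := by linarith
  have hm1 : 1 ≤ m := by exact_mod_cast hm1R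
  have hmn : m ≤ n := by
    apply Nat.ceil_le.mpr
    rw [← hu3]
    exact pow_le_pow_right₀ hu1 (by norm_num)
  have hmnR : (m:ℝ) ≤ n := by exact_mod_cast hmn
  have hm2k : m ≤ 2 ^ k := hmn.trans (Nat.lt_pow_succ_log_self (by norm_num) n).le
  have hk1 : 1 ≤ k := by omega
  have hk_le : (k:ℝ) ≤ 3 * L := by
    have h1 : ((Nat.log 2 n : ℕ) : ℝ) * Real.log 2 ≤ L := by
      rw [hL, ← Real.log_pow]
      apply Real.log_le_log (by positivity)
      exact_mod_cast Nat.pow_log_le_self 2 (by omega)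
    have h2 : ((Nat.log 2 n : ℕ) : ℝ) * 0.69 ≤ L := by
      refine le_trans ?_ h1
      exact mul_le_mul_of_nonneg_left (by linarith) (by positivity)
    have h3 : (k:ℝ) = (Nat.log 2 n : ℕ) + 1 := by rw [hk]; push_cast; ring
    rw [h3]
    have h4 : (1:ℝ) ≤ 1.46 * L := by linarith
    linarith
  have hD_ge : u / L ≤ D := Nat.le_ceil _
  have hDpos : (0:ℝ) < D := lt_of_lt_of_le (by positivity) hD_ge
  have hD1 : 1 ≤ D := by
    have : 0 < D := by exact_mod_cast hDpos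
    exact this
  have hD_le : (D:ℝ) ≤ u / L + 1 := (Nat.ceil_lt_add_one (by positivity)).le
  have hlogn1 : Real.log ((n:ℝ) + 1) ≤ 2 * L := by
    have h1 : (n:ℝ) + 1 ≤ (n:ℝ) ^ 2 := by nlinarith
    have h2 : Real.log ((n:ℝ) ^ 2) = 2 * L := by rw [Real.log_pow]; norm_num; rfl
    rw [← h2]
    exact Real.log_le_log (by linarith) h1
  have hlogn0 : 0 ≤ Real.log ((n:ℝ) + 1) := Real.log_nonneg (by linarith)
  refine ⟨m, D, k, Real.exp (Real.log ((n:ℝ) + 1) / m), hm1, hm2k, hk1, hD1, ?_, ?_, ?_⟩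
  · exact Real.one_le_exp (by positivity)
  · rw [← Real.exp_nat_mul]
    have h1 : (m:ℝ) * (Real.log ((n:ℝ) + 1) / m) = Real.log ((n:ℝ) + 1) := by field_simp
    rw [h1, Real.exp_log (by linarith)]
  · have hθ : Real.exp (Real.log ((n:ℝ) + 1) / m) ^ (n + 1) ≤ Real.exp (4 * (u * L)) := by
      rw [← Real.exp_nat_mul]
      apply Real.exp_le_exp.mpr
      push_cast
      have h1 : ((n:ℝ) + 1) * (Real.log ((n:ℝ) + 1) / m) =
          ((n:ℝ) + 1) * Real.log ((n:ℝ) + 1) / m := by ring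
      rw [h1, div_le_iff₀ hm0]
      calc ((n:ℝ) + 1) * Real.log ((n:ℝ) + 1) ≤ (2 * n) * (2 * L) :=
            mul_le_mul (by linarith) hlogn1 hlogn0 (by positivity)
        _ = 4 * (u * L) * u ^ 2 := by rw [← hu3]; ring
        _ ≤ 4 * (u * L) * m := mul_le_mul_of_nonneg_left hm_ge (by positivity)
    have hA : Real.log ((m:ℝ) + 1) ≤ 2 * (u * L) := by
      calc Real.log ((m:ℝ) + 1) ≤ Real.log ((n:ℝ) + 1) :=
            Real.log_le_log (by positivity) (by linarith)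
        _ ≤ 2 * L := hlogn1
        _ = 2 * (1 * L) := by ring
        _ ≤ 2 * (u * L) :=
            mul_le_mul_of_nonneg_left (mul_le_mul_of_nonneg_right hu1 hL0.le) (by norm_num)
    have hB : (m:ℝ) / D ≤ 2 * (u * L) := by
      rw [div_le_iff₀ hDpos]
      calc (m:ℝ) ≤ 2 * u ^ 2 := hm_le
        _ = 2 * (u * L) * (u / L) := by field_simp
        _ ≤ 2 * (u * L) * D := mul_le_mul_of_nonneg_left hD_ge (by positivity)
    have hC : (k:ℝ) ^ 2 * D ≤ 36 * (u * L) := by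
      calc (k:ℝ) ^ 2 * D ≤ (3 * L) ^ 2 * (u / L + 1) :=
            mul_le_mul (pow_le_pow_left₀ (by positivity) hk_le 2) hD_le hDpos.le (by positivity)
        _ = 9 * (u * L) + 9 * (L * L) := by field_simp; ring
        _ ≤ 9 * (u * L) + 9 * (3 * u * L) := by
            have := mul_le_mul_of_nonneg_right hLu hL0.le
            linarith
        _ = 36 * (u * L) := by ring
    calc HB μ m D k ^ 2 * μ * Real.exp (Real.log ((n:ℝ) + 1) / m) ^ (n + 1)
        ≤ Real.exp (401 * μ + 4 * Real.log ((m:ℝ) + 1) + 4 * ((m:ℝ) / D) +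
      1000 * μ ^ 2 * ((k:ℝ) ^ 2 * D)) * Real.exp (4 * (u * L)) :=
          mul_le_mul (HB_sq_le hμ m D k) hθ (by positivity) (by positivity)
      _ = Real.exp (401 * μ + 4 * Real.log ((m:ℝ) + 1) + 4 * ((m:ℝ) / D) +
      1000 * μ ^ 2 * ((k:ℝ) ^ 2 * D) + 4 * (u * L)) := (Real.exp_add _ _).symm
      _ ≤ Real.exp (40000 * μ ^ 2 * u * L) := by
          apply Real.exp_le_exp.mpr
          have hG : 401 * μ ≤ 802 * μ ^ 2 * (u * L) := by
            calc 401 * μ ≤ 401 * μ ^ 2 * 1 := by linarith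
              _ ≤ 401 * μ ^ 2 * (2 * (u * L)) := mul_le_mul_of_nonneg_left huL (by positivity)
              _ = 802 * μ ^ 2 * (u * L) := by ring
          have hH : 20 * (u * L) ≤ 20 * μ ^ 2 * (u * L) :=
            mul_le_mul_of_nonneg_right (by linarith) huL0.le
          have hI : 1000 * μ ^ 2 * ((k:ℝ) ^ 2 * D) ≤ 36000 * μ ^ 2 * (u * L) := by
            calc 1000 * μ ^ 2 * ((k:ℝ) ^ 2 * D) ≤ 1000 * μ ^ 2 * (36 * (u * L)) :=
                  mul_le_mul_of_nonneg_left hC (by positivity)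
              _ = 36000 * μ ^ 2 * (u * L) := by ring
          have hK : 0 < μ ^ 2 * (u * L) := by positivity
          have hfin : 40000 * μ ^ 2 * u * L = 40000 * (μ ^ 2 * (u * L)) := by ring
          rw [hfin]
          linarith

end Pool.Agent.Work.MP_376faf_co_hw
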