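import Mathlib

/-! The Sparre Andersen bound: signed permutations of n integers with all partial sums
positive. -/

set_option autoImplicit false
set_option linter.unusedSectionVars false

namespace Pool.Agent.Work.MP_376faf_co_hw

namespace SA

/-- (2n-1)!! -/
def dfac : ℕ → ℕ
  | 0 => 1
  | n + 1 => (2 * n + 1) * dfac n

theorem dfac_conv (n : ℕ) :
    ∑ k ∈ Finset.range (n + 1), n.choose k * (dfac k * dfac (n - k)) = n.factorial * 2 ^ n := by
  induction n with
  | zero => simp [dfac]
  | succ n ih =>
    have key : ∀ f : ℕ → ℕ, ∑ k ∈ Finset.range (n + 2), (n + 1).choose k * f k =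
        ∑ k ∈ Finset.range (n + 1), n.choose k * (f k + f (k + 1)) := by
      intro f
      rw [Finset.sum_range_succ']
      simp only [Nat.choose_succ_succ', add_mul, mul_add, Finset.sum_add_distrib,
        Nat.choose_zero_right, one_mul]
      have h1 : ∑ k ∈ Finset.range (n + 1), n.choose (k + 1) * f (k + 1) + f 0 =
          ∑ k ∈ Finset.range (n + 1), n.choose k * f k := by
        have h2 := Finset.sum_range_succ' (fun k => n.choose k * f k) (n + 1)
        have h3 := Finset.sum_range_succ (fun k => n.choose k * f k) (n + 1)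
        rw [h2] at h3
        simpa using h3
      omega
    rw [key (fun k => dfac k * dfac (n + 1 - k))]
    have h2 : ∀ k ∈ Finset.range (n + 1),
        n.choose k * (dfac k * dfac (n + 1 - k) + dfac (k + 1) * dfac (n + 1 - (k + 1))) =
        (2 * n + 2) * (n.choose k * (dfac k * dfac (n - k))) := by
      intro k hk
      rw [Finset.mem_range] at hk
      obtain ⟨j, rfl⟩ : ∃ j, n = k + j := ⟨n - k, by omega⟩
      have e1 : k + j + 1 - k = j + 1 := by omega
      have e2 : k + j + 1 - (k + 1) = j := by omega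
      have e3 : k + j - k = j := by omega
      rw [e1, e2, e3, dfac, dfac]
      ring
    rw [Finset.sum_congr rfl h2, ← Finset.mul_sum, ih, Nat.factorial_succ]
    ring

theorem dfac_sq (n : ℕ) : dfac n ^ 2 * (n + 1) ≤ (n.factorial * 2 ^ n) ^ 2 := by
  induction n with
  | zero => simp [dfac]
  | succ n ih =>
    rw [dfac, Nat.factorial_succ]
    have h1 : (2 * n + 1) ^ 2 * (n + 2) ≤ 4 * (n + 1) ^ 3 := by nlinarith [sq_nonneg (n:ℤ)]
    have h2 : (n + 1) * (((2 * n + 1) * dfac n) ^ 2 * (n + 1 + 1)) ≤
        (n + 1) * ((n + 1) * n.factorial * 2 ^ (n + 1)) ^ 2 := by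
      calc (n + 1) * (((2 * n + 1) * dfac n) ^ 2 * (n + 1 + 1))
          = ((2 * n + 1) ^ 2 * (n + 2)) * (dfac n ^ 2 * (n + 1)) := by ring
        _ ≤ (4 * (n + 1) ^ 3) * (n.factorial * 2 ^ n) ^ 2 := Nat.mul_le_mul h1 ih
        _ = _ := by ring
    exact Nat.le_of_mul_le_mul_left h2 (Nat.succ_pos n)

variable {ι : Type*} [DecidableEq ι]

/-- the value of a signed index -/
def vl (ξ : ι → ℤ) (p : ι × Bool) : ℤ := if p.2 then ξ p.1 else - ξ p.1

/-- total value -/
def tot (ξ : ι → ℤ) (m : List (ι × Bool)) : ℤ := (m.map (vl ξ)).sum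

/-- reverse and change all signs -/
def rn (m : List (ι × Bool)) : List (ι × Bool) := (m.map (fun p => (p.1, !p.2))).reverse

@[simp] theorem rn_rn (m : List (ι × Bool)) : rn (rn m) = m := by
  unfold rn
  rw [List.map_reverse, List.reverse_reverse, List.map_map]
  convert List.map_id m
  funext p
  simp

theorem rn_append (a b : List (ι × Bool)) : rn (a ++ b) = rn b ++ rn a := by
  simp [rn]

@[simp] theorem rn_length (a : List (ι × Bool)) : (rn a).length = a.length := by
  simp [rn]

@[simp] theorem rn_nil : rn ([] : List (ι × Bool)) = [] := by simp [rn]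

theorem rn_ne {a : List (ι × Bool)} (h : a ≠ []) : rn a ≠ [] := by
  intro h1
  apply h
  rw [← rn_rn a, h1, rn_nil]

theorem tot_append (ξ : ι → ℤ) (a b : List (ι × Bool)) : tot ξ (a ++ b) = tot ξ a + tot ξ b := by
  simp [tot]

theorem tot_rn (ξ : ι → ℤ) (a : List (ι × Bool)) : tot ξ (rn a) = - tot ξ a := by
  induction a with
  | nil => simp [tot, rn]
  | cons p a ih =>
    have h1 : rn (p :: a) = rn a ++ [(p.1, !p.2)] := by simp [rn]
    rw [h1, tot_append, ih]
    unfold tot
    simp only [List.map_cons, List.map_nil, List.sum_cons, List.sum_nil]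
    unfold vl
    rcases p with ⟨i, b⟩
    cases b <;> simp

theorem fst_rn (a : List (ι × Bool)) : (rn a).map Prod.fst = (a.map Prod.fst).reverse := by
  simp [rn, List.map_reverse, Function.comp_def]

/-- all nonempty prefixes have positive total -/
def Ps (ξ : ι → ℤ) (m : List (ι × Bool)) : Prop := ∀ a b, m = a ++ b → a ≠ [] → 0 < tot ξ a

/-- arrangements with n letters -/
def arr : ℕ → Finset ι → Finset (List (ι × Bool))
  | 0, _ => {[]}
  | n + 1, S => (S ×ˢ (Finset.univ : Finset Bool)).biUnion
      (fun p => (arr n (S.erase p.1)).image (fun m => p :: m))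

theorem mem_arr {n : ℕ} {S : Finset ι} {m : List (ι × Bool)} :
    m ∈ arr n S ↔ m.length = n ∧ (m.map Prod.fst).Nodup ∧ ∀ p ∈ m, p.1 ∈ S := by
  induction n generalizing S m with
  | zero =>
    simp only [arr, Finset.mem_singleton]
    constructor
    · rintro rfl; simp
    · rintro ⟨h, -, -⟩; exact List.length_eq_zero_iff.1 h
  | succ n ih =>
    simp only [arr, Finset.mem_biUnion, Finset.mem_product, Finset.mem_univ, and_true,
      Finset.mem_image]
    constructor
    · rintro ⟨p, hp, m', hm', rfl⟩
      rw [ih] at hm'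
      obtain ⟨h1, h2, h3⟩ := hm'
      refine ⟨by simp [h1], ?_, ?_⟩
      · rw [List.map_cons, List.nodup_cons]
        refine ⟨?_, h2⟩
        intro h4
        obtain ⟨q, hq, hq2⟩ := List.mem_map.1 h4
        have := h3 q hq
        rw [hq2] at this
        exact (Finset.notMem_erase _ _) this
      · intro q hq
        rcases List.mem_cons.1 hq with rfl | hq
        · exact hp
        · exact Finset.mem_of_mem_erase (h3 q hq)
    · rintro ⟨h1, h2, h3⟩
      cases m with
      | nil => simp at h1
      | cons p m' =>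
        rw [List.map_cons, List.nodup_cons] at h2
        refine ⟨p, h3 p (by simp), m', ?_, rfl⟩
        rw [ih]
        refine ⟨by simpa using h1, h2.2, ?_⟩
        intro q hq
        rw [Finset.mem_erase]
        refine ⟨?_, h3 q (by simp [hq])⟩
        intro h4
        exact h2.1 (List.mem_map.2 ⟨q, hq, h4⟩)

theorem card_arr {n : ℕ} {S : Finset ι} (h : S.card = n) :
    (arr n S).card = n.factorial * 2 ^ n := by
  induction n generalizing S with
  | zero => simp [arr]
  | succ n ih =>
    rw [arr, Finset.card_biUnion]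
    · have h1 : ∀ p ∈ S ×ˢ (Finset.univ : Finset Bool),
          ((arr n (S.erase p.1)).image (fun m => p :: m)).card = n.factorial * 2 ^ n := by
        intro p hp
        rw [Finset.card_image_of_injective _ (fun a b hab => (List.cons.inj hab).2)]
        refine ih ?_
        rw [Finset.card_erase_of_mem (Finset.mem_product.1 hp).1, h]
        rfl
      rw [Finset.sum_congr rfl h1, Finset.sum_const, Finset.card_product, h]
      simp only [Finset.card_univ, Fintype.card_bool, smul_eq_mul, Nat.factorial_succ]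
      ring
    · intro p _ q _ hpq
      rw [Function.onFun, Finset.disjoint_left]
      intro m h1 h2
      obtain ⟨a, -, rfl⟩ := Finset.mem_image.1 h1
      obtain ⟨b, -, h3⟩ := Finset.mem_image.1 h2
      exact hpq (List.cons.inj h3).1.symm

open Classical in
/-- positive arrangements of S -/
noncomputable def posF (ξ : ι → ℤ) (S : Finset ι) : Finset (List (ι × Bool)) :=
  (arr S.card S).filter (Ps ξ)

/-- no signed sum of distinct values vanishes -/
def Gen (ξ : ι → ℤ) (S : Finset ι) : Prop := ∀ m : List (ι × Bool), m ≠ [] →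
  (m.map Prod.fst).Nodup → (∀ p ∈ m, p.1 ∈ S) → tot ξ m ≠ 0

theorem arr_toFinset {S : Finset ι} {m : List (ι × Bool)} (h : m ∈ arr S.card S) :
    (m.map Prod.fst).toFinset = S := by
  rw [mem_arr] at h
  refine Finset.eq_of_subset_of_card_le ?_ ?_
  · intro i hi
    rw [List.mem_toFinset, List.mem_map] at hi
    obtain ⟨p, hp, rfl⟩ := hi
    exact h.2.2 p hp
  · rw [List.toFinset_card_of_nodup h.2.1, List.length_map, h.1]

theorem split_unique {ξ : ι → ℤ} {a b a' b' : List (ι × Bool)} (hb : Ps ξ b) (ha' : Ps ξ a')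
    (h : rn a ++ b = rn a' ++ b') : ¬ a.length < a'.length := by
  intro hlt
  rw [List.append_eq_append_iff] at h
  rcases h with ⟨c, h1, h2⟩ | ⟨c, h1, h2⟩
  · have hc : c ≠ [] := by
      rintro rfl
      have := congrArg List.length h1
      simp at this
      omega
    have h3 := hb c b' h2 hc
    have h4 : a' = rn c ++ a := by
      rw [← rn_rn a', h1, rn_append, rn_rn]
    have h5 := ha' _ _ h4 (rn_ne hc)
    rw [tot_rn] at h5
    omega
  · have := congrArg List.length h1
    simp at this
    omega

theorem exists_split {ξ : ι → ℤ} {S : Finset ι} (hg : Gen ξ S) {m : List (ι × Bool)}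
    (hm : m ∈ arr S.card S) : ∃ p q, m = p ++ q ∧ Ps ξ (rn p) ∧ Ps ξ q := by
  obtain ⟨k, hk, hmin⟩ := Finset.exists_min_image (Finset.range (m.length + 1))
    (fun k => tot ξ (m.take k)) ⟨0, by simp⟩
  rw [Finset.mem_range] at hk
  have hmin' : ∀ a b, m = a ++ b → tot ξ (m.take k) ≤ tot ξ a := by
    intro a b hab
    have h1 := hmin a.length (by
      rw [Finset.mem_range, hab, List.length_append]; omega)
    have h2 : m.take a.length = a := by rw [hab, List.take_left]
    rwa [h2] at h1
  rw [mem_arr] at hm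
  refine ⟨m.take k, m.drop k, (List.take_append_drop k m).symm, ?_, ?_⟩
  · intro c d hcd hc
    have e : m.take k = rn d ++ rn c := by
      rw [← rn_rn (m.take k), hcd, rn_append]
    have h1 := hmin' (rn d) (rn c ++ m.drop k) (by
      rw [← List.append_assoc, ← e, List.take_append_drop])
    rw [e, tot_append, tot_rn] at h1
    have h2 : tot ξ (rn c) ≠ 0 := by
      refine hg _ (rn_ne hc) ?_ ?_
      · have h3 : ((m.take k).map Prod.fst).Nodup := by
          rw [List.map_take]; exact hm.2.1.sublist (List.take_sublist _ _)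
        rw [e, List.map_append] at h3
        exact (List.nodup_append.1 h3).2.1
      · intro p hp
        refine hm.2.2 p (List.mem_of_mem_take (i := k) ?_)
        rw [e]; simp [hp]
    rw [tot_rn] at h1 h2
    omega
  · intro c d hcd hc
    have h1 := hmin' (m.take k ++ c) d (by
      rw [List.append_assoc, ← hcd, List.take_append_drop])
    rw [tot_append] at h1
    have h2 : tot ξ c ≠ 0 := by
      refine hg _ hc ?_ ?_
      · have h3 : ((m.drop k).map Prod.fst).Nodup := by
          rw [List.map_drop]; exact hm.2.1.sublist (List.drop_sublist _ _)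
        rw [hcd, List.map_append] at h3
        exact (List.nodup_append.1 h3).1
      · intro p hp
        refine hm.2.2 p (List.mem_of_mem_drop (i := k) ?_)
        rw [hcd]; simp [hp]
    omega

theorem decomp {ξ : ι → ℤ} {S : Finset ι} (hg : Gen ξ S) :
    ∑ T ∈ S.powerset, (posF ξ T).card * (posF ξ (S \ T)).card =
      S.card.factorial * 2 ^ S.card := by
  classical
  rw [← card_arr rfl]
  have h0 : ∑ T ∈ S.powerset, (posF ξ T).card * (posF ξ (S \ T)).card =
      (S.powerset.sigma (fun T => posF ξ T ×ˢ posF ξ (S \ T))).card := by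
    rw [Finset.card_sigma]
    exact Finset.sum_congr rfl (fun T _ => (Finset.card_product _ _).symm)
  rw [h0]
  refine Finset.card_bij (fun t _ => rn t.2.1 ++ t.2.2) ?_ ?_ ?_
  · rintro ⟨T, a, b⟩ ht
    rw [Finset.mem_sigma, Finset.mem_powerset, Finset.mem_product] at ht
    obtain ⟨hT, ha, hb⟩ := ht
    simp only at hT ha hb ⊢
    unfold posF at ha hb
    rw [Finset.mem_filter, mem_arr] at ha hb
    rw [mem_arr]
    refine ⟨?_, ?_, ?_⟩
    · rw [List.length_append, rn_length, ha.1.1, hb.1.1]
      have := Finset.card_sdiff_add_card_eq_card hT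
      omega
    · rw [List.map_append, List.nodup_append, fst_rn, List.nodup_reverse]
      refine ⟨ha.1.2.1, hb.1.2.1, ?_⟩
      intro i hi j hj hij
      subst hij
      rw [List.mem_reverse, List.mem_map] at hi
      obtain ⟨p, hp, hpi⟩ := hi
      obtain ⟨q, hq, hqi⟩ := List.mem_map.1 hj
      have h1 := ha.1.2.2 p hp
      have h2 := hb.1.2.2 q hq
      rw [hpi] at h1
      rw [hqi, Finset.mem_sdiff] at h2
      exact h2.2 h1
    · intro p hp
      rcases List.mem_append.1 hp with h | h
      · have : p.1 ∈ (rn a).map Prod.fst := List.mem_map.2 ⟨p, h, rfl⟩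
        rw [fst_rn, List.mem_reverse, List.mem_map] at this
        obtain ⟨q, hq, hqp⟩ := this
        rw [← hqp]
        exact hT (ha.1.2.2 q hq)
      · exact (Finset.mem_sdiff.1 (hb.1.2.2 p h)).1
  · rintro ⟨T, a, b⟩ ht ⟨T', a', b'⟩ ht' h
    rw [Finset.mem_sigma, Finset.mem_powerset, Finset.mem_product] at ht ht'
    obtain ⟨hT, ha, hb⟩ := ht
    obtain ⟨hT', ha', hb'⟩ := ht'
    simp only at hT ha hb hT' ha' hb' h
    unfold posF at ha hb ha' hb'
    rw [Finset.mem_filter] at ha hb ha' hb'
    have h1 := split_unique hb.2 ha'.2 h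
    have h2 := split_unique hb'.2 ha.2 h.symm
    have h3 := List.append_inj h (by rw [rn_length, rn_length]; omega)
    have h4 : a = a' := by rw [← rn_rn a, h3.1, rn_rn]
    have h5 : T = T' := by
      rw [← arr_toFinset ha.1, ← arr_toFinset ha'.1, h4]
    subst h4 h5
    rw [h3.2]
  · intro m hm
    obtain ⟨p, q, e, hp, hq⟩ := exists_split hg hm
    have hS := arr_toFinset hm
    rw [mem_arr] at hm
    obtain ⟨h1, h2, h3⟩ := hm
    subst e
    rw [List.map_append, List.nodup_append] at h2
    obtain ⟨h4, h5, h6⟩ := h2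
    have hTS : (p.map Prod.fst).toFinset ⊆ S := by
      intro i hi
      rw [List.mem_toFinset, List.mem_map] at hi
      obtain ⟨x, hx, rfl⟩ := hi
      exact h3 x (by simp [hx])
    have hcT : (p.map Prod.fst).toFinset.card = p.length := by
      rw [List.toFinset_card_of_nodup h4, List.length_map]
    refine ⟨⟨(p.map Prod.fst).toFinset, rn p, q⟩, ?_, by simp⟩
    rw [Finset.mem_sigma, Finset.mem_powerset, Finset.mem_product]
    refine ⟨hTS, ?_, ?_⟩
    · unfold posF
      rw [Finset.mem_filter, mem_arr, hcT]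
      refine ⟨⟨rn_length p, ?_, ?_⟩, hp⟩
      · rw [fst_rn, List.nodup_reverse]; exact h4
      · intro x hx
        have : x.1 ∈ (rn p).map Prod.fst := List.mem_map.2 ⟨x, hx, rfl⟩
        rwa [fst_rn, List.mem_reverse, ← List.mem_toFinset] at this
    · unfold posF
      rw [Finset.mem_filter, mem_arr]
      refine ⟨⟨?_, h5, ?_⟩, hq⟩
      · have := Finset.card_sdiff_add_card_eq_card hTS
        rw [hcT] at this
        rw [List.length_append] at h1
        simp only
        omega
      · intro x hx
        rw [Finset.mem_sdiff]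
        refine ⟨h3 x (by simp [hx]), ?_⟩
        intro hx2
        rw [List.mem_toFinset] at hx2
        exact h6 _ hx2 _ (List.mem_map.2 ⟨x, hx, rfl⟩) rfl

theorem posF_empty (ξ : ι → ℤ) : (posF ξ ∅).card = 1 := by
  classical
  unfold posF
  rw [Finset.card_empty, arr]
  rw [Finset.filter_singleton]
  rw [if_pos]
  · simp
  · intro a b h1 h2
    have := congrArg List.length h1
    simp at this
    exact absurd (List.length_eq_zero_iff.1 (by omega)) h2

theorem Gen.mono {ξ : ι → ℤ} {S T : Finset ι} (h : Gen ξ S) (hT : T ⊆ S) : Gen ξ T :=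
  fun m h1 h2 h3 => h m h1 h2 (fun p hp => hT (h3 p hp))

theorem posF_card {ξ : ι → ℤ} {n : ℕ} : ∀ {S : Finset ι}, S.card = n → Gen ξ S →
    (posF ξ S).card = dfac n := by
  classical
  induction n using Nat.strong_induction_on with
  | _ n ih =>
    intro S hS hg
    rcases Nat.eq_zero_or_pos n with h0 | h0
    · subst h0
      rw [Finset.card_eq_zero] at hS
      subst hS
      rw [posF_empty]; rfl
    have hne : S ≠ ∅ := by
      rintro rfl
      simp at hS
      omega
    have h1 := decomp hg
    have h2 : ∑ T ∈ S.powerset, dfac T.card * dfac (n - T.card) = n.factorial * 2 ^ n := by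
      rw [Finset.sum_powerset_apply_card (fun k => dfac k * dfac (n - k)), hS, ← dfac_conv n]
      simp
    rw [hS] at h1
    have hm1 : (∅ : Finset ι) ∈ S.powerset := by simp
    have hm2 : S ∈ S.powerset.erase ∅ := by simp [hne]
    rw [← Finset.add_sum_erase _ _ hm1, ← Finset.add_sum_erase _ _ hm2] at h1 h2
    have h3 : ∑ T ∈ (S.powerset.erase ∅).erase S, (posF ξ T).card * (posF ξ (S \ T)).card =
        ∑ T ∈ (S.powerset.erase ∅).erase S, dfac T.card * dfac (n - T.card) := by
      refine Finset.sum_congr rfl (fun T hT => ?_)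
      simp only [Finset.mem_erase, Finset.mem_powerset] at hT
      obtain ⟨hTS, hT0, hT⟩ := hT
      have c1 := Finset.card_sdiff_add_card_eq_card hT
      have c2 : 0 < T.card := Finset.card_pos.2 (Finset.nonempty_iff_ne_empty.2 hT0)
      have c3 : T.card < S.card := Finset.card_lt_card (hT.ssubset_of_ne hTS)
      rw [ih T.card (by omega) rfl (hg.mono hT), ih (S \ T).card (by omega) rfl
        (hg.mono Finset.sdiff_subset)]
      congr 2
      omega
    rw [h3] at h1
    simp only [posF_empty, Finset.sdiff_empty, Finset.sdiff_self, Finset.card_empty,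
      Nat.sub_zero, hS, Nat.sub_self, one_mul, mul_one, dfac] at h1 h2
    omega

/-! Ties are broken by a perturbation. -/

/-- perturbed values -/
def pert {n : ℕ} (ξ : Fin n → ℤ) (i : Fin n) : ℤ := 3 ^ n * ξ i + 3 ^ i.val

theorem tot_pert {n : ℕ} (ξ : Fin n → ℤ) (m : List (Fin n × Bool)) :
    tot (pert ξ) m = 3 ^ n * tot ξ m + tot (fun i : Fin n => (3 : ℤ) ^ i.val) m := by
  induction m with
  | nil => simp [tot]
  | cons p m ih =>
    unfold tot at *
    simp only [List.map_cons, List.sum_cons]
    rw [ih]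
    unfold vl pert
    split_ifs <;> ring

theorem three_sum (n : ℕ) : 2 * ∑ i : Fin n, (3 : ℤ) ^ i.val + 1 = 3 ^ n := by
  rw [Fin.sum_univ_eq_sum_range (fun i => (3 : ℤ) ^ i) n]
  induction n with
  | zero => simp
  | succ n ih => rw [Finset.sum_range_succ, pow_succ]; linarith

theorem three_bound {n : ℕ} {m : List (Fin n × Bool)} (h : (m.map Prod.fst).Nodup) :
    |tot (fun i : Fin n => (3 : ℤ) ^ i.val) m| < 3 ^ n := by
  have h1 : |tot (fun i : Fin n => (3 : ℤ) ^ i.val) m| ≤
      ((m.map Prod.fst).map (fun i : Fin n => (3 : ℤ) ^ i.val)).sum := by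
    clear h
    induction m with
    | nil => simp [tot]
    | cons p m ih =>
      unfold tot at *
      simp only [List.map_cons, List.sum_cons]
      refine (abs_add_le _ _).trans (add_le_add ?_ ih)
      unfold vl
      split_ifs
      · rw [abs_of_nonneg (by positivity)]
      · rw [abs_neg, abs_of_nonneg (by positivity)]
  have h2 : ((m.map Prod.fst).map (fun i : Fin n => (3 : ℤ) ^ i.val)).sum ≤
      ∑ i : Fin n, (3 : ℤ) ^ i.val := by
    rw [← List.sum_toFinset _ h]
    exact Finset.sum_le_sum_of_subset_of_nonneg (Finset.subset_univ _)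
      (fun i _ _ => by positivity)
  have h3 := three_sum n
  have h4 : (0 : ℤ) ≤ ∑ i : Fin n, (3 : ℤ) ^ i.val := Finset.sum_nonneg (fun i _ => by positivity)
  linarith

theorem three_ne {n : ℕ} {m : List (Fin n × Bool)} (h0 : m ≠ []) (h : (m.map Prod.fst).Nodup) :
    tot (fun i : Fin n => (3 : ℤ) ^ i.val) m ≠ 0 := by
  classical
  obtain ⟨p, hp, hmin⟩ : ∃ p ∈ m, ∀ q ∈ m, p.1.val ≤ q.1.val := by
    obtain ⟨p, hp, hmin⟩ := Finset.exists_min_image m.toFinset (fun q => q.1.val)
      (by
        rw [List.toFinset_nonempty_iff]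
        exact h0)
    exact ⟨p, List.mem_toFinset.1 hp, fun q hq => hmin q (List.mem_toFinset.2 hq)⟩
  obtain ⟨a, b, rfl⟩ := List.append_of_mem hp
  have hd : ∀ q ∈ a ++ b, (3 : ℤ) ^ (p.1.val + 1) ∣ vl (fun i : Fin n => (3 : ℤ) ^ i.val) q := by
    intro q hq
    have hlt : p.1.val + 1 ≤ q.1.val := by
      have h1 := hmin q (by
        rcases List.mem_append.1 hq with h2 | h2
        · simp [h2]
        · simp [h2])
      rcases h1.lt_or_eq with h2 | h2
      · exact h2
      · exfalso
        have h3 : p.1 = q.1 := Fin.ext h2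
        rw [List.map_append, List.map_cons] at h
        have h4 := List.nodup_middle.1 h
        rw [List.nodup_cons] at h4
        apply h4.1
        rw [h3, ← List.map_append]
        exact List.mem_map.2 ⟨q, hq, rfl⟩
    unfold vl
    split_ifs
    · exact pow_dvd_pow _ hlt
    · exact (pow_dvd_pow _ hlt).neg_right
  have hs : (3 : ℤ) ^ (p.1.val + 1) ∣ tot (fun i : Fin n => (3 : ℤ) ^ i.val) (a ++ b) := by
    unfold tot
    refine List.dvd_sum ?_
    intro x hx
    obtain ⟨q, hq, rfl⟩ := List.mem_map.1 hx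
    exact hd q hq
  intro h1
  have h2 : tot (fun i : Fin n => (3 : ℤ) ^ i.val) (a ++ p :: b) =
      tot (fun i : Fin n => (3 : ℤ) ^ i.val) (a ++ b) +
        vl (fun i : Fin n => (3 : ℤ) ^ i.val) p := by
    rw [tot_append, tot_append]
    unfold tot
    rw [List.map_cons, List.sum_cons]
    ring
  rw [h1] at h2
  have h3 : (3 : ℤ) ^ (p.1.val + 1) ∣ vl (fun i : Fin n => (3 : ℤ) ^ i.val) p := by
    have h4 : vl (fun i : Fin n => (3 : ℤ) ^ i.val) p =
        - tot (fun i : Fin n => (3 : ℤ) ^ i.val) (a ++ b) := by linarith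
    rw [h4]
    exact hs.neg_right
  have h4 : (3 : ℤ) ^ (p.1.val + 1) ∣ (3 : ℤ) ^ p.1.val := by
    unfold vl at h3
    split_ifs at h3
    · exact h3
    · exact (dvd_neg.1 h3)
  have h5 := Int.le_of_dvd (by positivity) h4
  rw [pow_succ] at h5
  have h6 : (0 : ℤ) < 3 ^ p.1.val := by positivity
  linarith

theorem gen_pert {n : ℕ} (ξ : Fin n → ℤ) : Gen (pert ξ) Finset.univ := by
  intro m h0 h _
  rw [tot_pert]
  have h1 := three_bound h
  have h2 := three_ne h0 h
  intro h3
  have h4 : (3 : ℤ) ^ n ∣ tot (fun i : Fin n => (3 : ℤ) ^ i.val) m := by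
    have h5 : tot (fun i : Fin n => (3 : ℤ) ^ i.val) m = 3 ^ n * (- tot ξ m) := by linarith
    rw [h5]
    exact dvd_mul_right _ _
  exact h2 (Int.eq_zero_of_abs_lt_dvd h4 h1)

/-- sign of a truth value -/
def sg (b : Bool) : ℤ := if b then 1 else -1

/-- signed permutations with all partial sums positive -/
def Gd {n : ℕ} (ξ : Fin n → ℤ) (p : Equiv.Perm (Fin n) × (Fin n → Bool)) : Prop :=
  ∀ k : Fin n, 0 < ∑ j ∈ Finset.univ.filter (fun j => j ≤ k), sg (p.2 j) * ξ (p.1 j)

/-- the arrangement given by a signed permutation -/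
def ar {n : ℕ} (p : Equiv.Perm (Fin n) × (Fin n → Bool)) : List (Fin n × Bool) :=
  List.ofFn (fun j => (p.1 j, p.2 j))

theorem ar_inj {n : ℕ} : Function.Injective (ar (n := n)) := by
  intro p q h
  have h1 := List.ofFn_injective h
  refine Prod.ext (Equiv.ext fun j => ?_) (funext fun j => ?_)
  · exact congrArg Prod.fst (congrFun h1 j)
  · exact congrArg Prod.snd (congrFun h1 j)

theorem ar_mem {n : ℕ} (p : Equiv.Perm (Fin n) × (Fin n → Bool)) :
    ar p ∈ arr (Finset.univ : Finset (Fin n)).card Finset.univ := by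
  rw [mem_arr]
  refine ⟨by simp [ar], ?_, by simp⟩
  unfold ar
  rw [List.map_ofFn, List.nodup_ofFn]
  exact p.1.injective

theorem tot_take_ar {n : ℕ} (ξ : Fin n → ℤ) (p : Equiv.Perm (Fin n) × (Fin n → Bool))
    (k : Fin n) : tot ξ ((ar p).take (k.val + 1)) =
      ∑ j ∈ Finset.univ.filter (fun j => j ≤ k), sg (p.2 j) * ξ (p.1 j) := by
  have h1 : tot ξ ((ar p).take (k.val + 1)) =
      ∑ i ∈ Finset.range (k.val + 1), if h : i < n then sg (p.2 ⟨i, h⟩) * ξ (p.1 ⟨i, h⟩) else 0 := by
    have hk : k.val + 1 ≤ n := k.is_lt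
    generalize k.val + 1 = m at hk
    induction m with
    | zero => simp [tot]
    | succ m ih =>
      rw [Finset.sum_range_succ, ← ih (by omega), List.take_add_one, tot_append]
      congr 1
      unfold ar
      rw [List.getElem?_ofFn]
      rw [dif_pos (by omega), dif_pos (by omega)]
      unfold tot vl sg
      simp only [Option.toList_some, List.map_cons, List.map_nil, List.sum_cons, List.sum_nil]
      split_ifs <;> ring
  rw [h1]
  symm
  refine Finset.sum_bij (fun j _ => j.val) ?_ ?_ ?_ ?_
  · intro j hj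
    simp only [Finset.mem_filter, Finset.mem_univ, true_and, Fin.le_def] at hj
    rw [Finset.mem_range]; omega
  · intro j _ j' _ h
    exact Fin.ext h
  · intro i hi
    rw [Finset.mem_range] at hi
    have hi2 : i < n := by have := k.is_lt; omega
    refine ⟨⟨i, hi2⟩, ?_, rfl⟩
    rw [Finset.mem_filter]
    refine ⟨Finset.mem_univ _, ?_⟩
    rw [Fin.le_def]
    simp only
    omega
  · intro j _
    rw [dif_pos j.is_lt]

open Classical in
/-- SPARRE ANDERSEN for integers, ties allowed. -/
theorem sparre_card {n : ℕ} (ξ : Fin n → ℤ) :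
    (Finset.univ.filter (Gd ξ)).card ≤ dfac n := by
  have h0 : (posF (pert ξ) (Finset.univ : Finset (Fin n))).card = dfac n :=
    posF_card (by simp) (gen_pert ξ)
  rw [← h0]
  refine Finset.card_le_card_of_injOn ar ?_ (fun p _ q _ h => ar_inj h)
  intro p hp
  rw [Finset.mem_coe, Finset.mem_filter] at hp
  rw [Finset.mem_coe]
  unfold posF
  rw [Finset.mem_filter]
  refine ⟨ar_mem p, ?_⟩
  intro a b hab ha
  have hlen : (ar p).length = n := by simp [ar]
  have ha0 : 0 < a.length := List.length_pos_iff.2 ha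
  have han : a.length ≤ n := by
    have h5 := congrArg List.length hab
    rw [hlen, List.length_append] at h5
    omega
  have e : a = (ar p).take a.length := by rw [hab, List.take_left]
  have h1 := hp.2 ⟨a.length - 1, by omega⟩
  rw [← tot_take_ar] at h1
  have h2 : a.length - 1 + 1 = a.length := by omega
  simp only [h2] at h1
  rw [← e] at h1
  have hnd : (a.map Prod.fst).Nodup := by
    have := (mem_arr.1 (ar_mem p)).2.1
    rw [hab, List.map_append, List.nodup_append] at this
    exact this.1
  have h3 := three_bound hnd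
  rw [tot_pert]
  rw [abs_lt] at h3
  have h4 : (0 : ℤ) < 3 ^ n := by positivity
  nlinarith [h3.1, h1]

open Classical in
theorem sparre_sq {n : ℕ} (ξ : Fin n → ℤ) :
    (Finset.univ.filter (Gd ξ)).card ^ 2 * (n + 1) ≤ (n.factorial * 2 ^ n) ^ 2 :=
  (Nat.mul_le_mul_right _ (Nat.pow_le_pow_left (sparre_card ξ) 2)).trans (dfac_sq n)

end SA

end Pool.Agent.Work.MP_376faf_co_hw
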