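import Pool.Agent.Work.MP_376faf_co_hw.PreB
import Pool.Agent.Work.MP_376faf_co_hw.SA

/-! Pairs of bridges with the same span: decomposition into blocks, symmetrisation, and the
Sparre Andersen bound for the weight of the pairs which keep their order. -/

set_option autoImplicit false

namespace Pool.Agent.Work.MP_376faf_co_hw

open Pool.Agent.Work.MP_376faf_co_lower
open scoped ENNReal

namespace BL

abbrev PP := List Pt × List Pt

/-- total length -/
def pl (p : PP) : ℕ := p.1.length + p.2.length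

/-- pairs of bridges of span t -/
def BB (t : ℕ) (p : PP) : Prop := BridgeW t p.1 ∧ BridgeW t p.2

/-- s is a common prefix span -/
def Cm (p : PP) (s : ℕ) : Prop := Com p.1 p.2 s

/-- blocks: no common prefix span strictly inside -/
def Bk (p : PP) : Prop := ∃ s : ℕ, 1 ≤ s ∧ BB s p ∧ ∀ t, 0 < t → t < s → ¬ Cm p t

abbrev Blk := {p : PP // Bk p}

/-- span of a block -/
def sB (b : Blk) : ℕ := b.1.1.sum.1.toNat

/-- height difference of a block -/
def dB (b : Blk) : ℤ := b.1.1.sum.2 - b.1.2.sum.2

theorem sB_pos (b : Blk) : 1 ≤ sB b := by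
  obtain ⟨s, h1, h2, -⟩ := b.2
  unfold sB
  rw [h2.1.2]
  simpa using h1

theorem sB_BB (b : Blk) : BB (sB b) b.1 := by
  obtain ⟨s, h1, h2, -⟩ := b.2
  have : sB b = s := by
    unfold sB
    rw [h2.1.2]
    simp
  rw [this]
  exact h2

theorem sB_no (b : Blk) {t : ℕ} (h0 : 0 < t) (h : t < sB b) : ¬ Cm b.1 t := by
  obtain ⟨s, h1, h2, h3⟩ := b.2
  have : sB b = s := by
    unfold sB
    rw [h2.1.2]
    simp
  rw [this] at h
  exact h3 t h0 h

/-- concatenation -/
def cat : List Blk → PP
  | [] => ([], [])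
  | b :: bs => (b.1.1 ++ (cat bs).1, b.1.2 ++ (cat bs).2)

def sp (bs : List Blk) : ℕ := (bs.map sB).sum

def dl (bs : List Blk) : ℤ := (bs.map dB).sum

theorem sp_nil : sp [] = 0 := rfl

theorem sp_cons (b : Blk) (bs : List Blk) : sp (b :: bs) = sB b + sp bs := by simp [sp]

theorem sp_append (a b : List Blk) : sp (a ++ b) = sp a + sp b := by simp [sp]

theorem dl_append (a b : List Blk) : dl (a ++ b) = dl a + dl b := by simp [dl]

theorem cat_append (a b : List Blk) : cat (a ++ b) = ((cat a).1 ++ (cat b).1,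
    (cat a).2 ++ (cat b).2) := by
  induction a with
  | nil => simp [cat]
  | cons c a ih => simp only [List.cons_append, cat, ih, List.append_assoc]

theorem cat_BB (bs : List Blk) : BB (sp bs) (cat bs) := by
  induction bs with
  | nil =>
    refine ⟨⟨bridge_nil, ?_⟩, ⟨bridge_nil, ?_⟩⟩ <;> simp [cat, sp]
  | cons b bs ih =>
    have hb := sB_BB b
    refine ⟨⟨bridge_append hb.1.1 ih.1.1, ?_⟩, ⟨bridge_append hb.2.1 ih.2.1, ?_⟩⟩
    · rw [cat, List.sum_append, Prod.fst_add, hb.1.2, ih.1.2, sp_cons]; push_cast; rfl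
    · rw [cat, List.sum_append, Prod.fst_add, hb.2.2, ih.2.2, sp_cons]; push_cast; rfl

theorem cat_dl (bs : List Blk) : (cat bs).1.sum.2 - (cat bs).2.sum.2 = dl bs := by
  induction bs with
  | nil => simp [cat, dl]
  | cons b bs ih =>
    have : dl (b :: bs) = dB b + dl bs := by simp [dl]
    rw [this, ← ih, cat, List.sum_append, List.sum_append]
    unfold dB
    simp only [Prod.snd_add]
    ring

theorem cat_pl (bs : List Blk) : pl (cat bs) = (bs.map (fun b => pl b.1)).sum := by
  induction bs with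
  | nil => simp [cat, pl]
  | cons b bs ih =>
    rw [List.map_cons, List.sum_cons, ← ih, cat]
    unfold pl
    simp only [List.length_append]
    ring

theorem sp_pos {bs : List Blk} (h : bs ≠ []) : 1 ≤ sp bs := by
  cases bs with
  | nil => exact absurd rfl h
  | cons b bs => rw [sp_cons]; have := sB_pos b; omega

/-- the common prefix spans are the spans of the prefixes -/
theorem cm_cat {bs : List Blk} {t : ℕ} : Cm (cat bs) t ↔ ∃ a b, bs = a ++ b ∧ sp a = t := by
  constructor
  · intro h
    induction bs generalizing t with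
    | nil =>
      refine ⟨[], [], rfl, ?_⟩
      obtain ⟨h1, -, h2, -⟩ := h
      have := h2.le
      simp only [cat, List.sum_nil, Prod.fst_zero] at this
      rw [sp_nil]
      omega
    | cons b bs ih =>
      have hb := sB_BB b
      have hbs := cat_BB bs
      obtain ⟨h1, h3, h2, h4⟩ := h
      simp only [cat] at h2 h4
      rcases lt_or_ge t (sB b) with hlt | hge
      · rcases Nat.eq_zero_or_pos t with h0 | h0
        · exact ⟨[], b :: bs, rfl, by rw [sp_nil, h0]⟩
        · exfalso
          refine sB_no b h0 hlt ⟨h1, h3, ?_, ?_⟩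
          · exact (pre_left hb.1.1 hbs.1.1 (by rw [hb.1.2]; exact_mod_cast hlt.le)).1 h2
          · exact (pre_left hb.2.1 hbs.2.1 (by rw [hb.2.2]; exact_mod_cast hlt.le)).1 h4
      · obtain ⟨t', rfl⟩ := Nat.exists_eq_add_of_le hge
        have e1 : b.1.1.sum = ((sB b : ℤ), b.1.1.sum.2) := Prod.ext hb.1.2 rfl
        have e2 : b.1.2.sum = ((sB b : ℤ), b.1.2.sum.2) := Prod.ext hb.2.2 rfl
        have h5 : Pre (cat bs).1 t' (h1 - b.1.1.sum.2) := by
          refine (pre_right hb.1.1 hbs.1.1 e1).1 ?_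
          rw [add_sub_cancel]; exact h2
        have h6 : Pre (cat bs).2 t' (h3 - b.1.2.sum.2) := by
          refine (pre_right hb.2.1 hbs.2.1 e2).1 ?_
          rw [add_sub_cancel]; exact h4
        obtain ⟨x, y, e, hx⟩ := ih ⟨_, _, h5, h6⟩
        exact ⟨b :: x, y, by rw [e]; rfl, by rw [sp_cons, hx]⟩
  · rintro ⟨a, b, rfl, rfl⟩
    have ha := cat_BB a
    have hb := cat_BB b
    rw [cat_append]
    refine ⟨(cat a).1.sum.2, (cat a).2.sum.2, ⟨(cat a).1, (cat b).1, rfl, ha.1.1, hb.1.1, ?_⟩,
      ⟨(cat a).2, (cat b).2, rfl, ha.2.1, hb.2.1, ?_⟩⟩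
    · exact Prod.ext ha.1.2 rfl
    · exact Prod.ext ha.2.2 rfl

theorem pre_cat (a b : List Blk) : Pre (cat (a ++ b)).1 (sp a) (cat a).1.sum.2 ∧
    Pre (cat (a ++ b)).2 (sp a) (cat a).2.sum.2 := by
  have ha := cat_BB a
  have hb := cat_BB b
  rw [cat_append]
  exact ⟨⟨(cat a).1, (cat b).1, rfl, ha.1.1, hb.1.1, Prod.ext ha.1.2 rfl⟩,
    ⟨(cat a).2, (cat b).2, rfl, ha.2.1, hb.2.1, Prod.ext ha.2.2 rfl⟩⟩

theorem cat_inj : Function.Injective cat := by
  intro bs
  induction bs with
  | nil =>
    intro cs h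
    by_contra hne
    have h1 := sp_pos (bs := cs) (fun h => hne h.symm)
    have h2 := (cat_BB cs).1.2
    rw [← h] at h2
    simp only [cat, List.sum_nil, Prod.fst_zero] at h2
    omega
  | cons b bs ih =>
    intro cs h
    cases cs with
    | nil =>
      exfalso
      have h1 := sp_pos (bs := b :: bs) (by simp)
      have h2 := (cat_BB (b :: bs)).1.2
      rw [h] at h2
      simp only [cat, List.sum_nil, Prod.fst_zero] at h2
      omega
    | cons c cs =>
      have key : ∀ {b c : Blk} {bs cs : List Blk}, cat (b :: bs) = cat (c :: cs) →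
          sB c ≤ sB b := by
        intro b c bs cs h
        have h1 : Cm (cat (b :: bs)) (sB b) := cm_cat.2 ⟨[b], bs, rfl, by simp [sp]⟩
        rw [h] at h1
        obtain ⟨x, y, e, hx⟩ := cm_cat.1 h1
        cases x with
        | nil => rw [sp_nil] at hx; have := sB_pos b; omega
        | cons z x =>
          rw [List.cons_append, List.cons.injEq] at e
          rw [e.1, ← hx, sp_cons]
          omega
      have hs : sB b = sB c := le_antisymm (key h.symm) (key h)
      have hb := sB_BB b
      have hc := sB_BB c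
      have hbs := cat_BB bs
      have hcs := cat_BB cs
      have h1 := congrArg Prod.fst h
      have h2 := congrArg Prod.snd h
      simp only [cat] at h1 h2
      have e1 := levi_eq hb.1.1 hbs.1.1 hc.1.1 hcs.1.1 h1 (by rw [hb.1.2, hc.1.2, hs])
      have e2 := levi_eq hb.2.1 hbs.2.1 hc.2.1 hcs.2.1 h2 (by rw [hb.2.2, hc.2.2, hs])
      rw [Subtype.ext (Prod.ext e1.1 e2.1) (a1 := b) (a2 := c), ih (Prod.ext e1.2 e2.2)]

theorem exists_cat {t : ℕ} : ∀ {p : PP}, BB t p → ∃ bs, cat bs = p := by
  classical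
  induction t using Nat.strong_induction_on with
  | _ t ih =>
    intro p hp
    rcases Nat.eq_zero_or_pos t with h0 | h0
    · subst h0
      refine ⟨[], ?_⟩
      have h1 := eq_nil hp.1.1 (by rw [hp.1.2]; simp)
      have h2 := eq_nil hp.2.1 (by rw [hp.2.2]; simp)
      exact (Prod.ext h1 h2 : p = ([], [])).symm
    · have hex : ∃ s, 0 < s ∧ Cm p s := ⟨t, h0, _, _, pre_full hp.1, pre_full hp.2⟩
      have hs := Nat.find_spec hex
      set s := Nat.find hex with hsdef
      obtain ⟨hs0, h1, h2, ⟨a, a', ea, ha, ha', hsa⟩, ⟨b, b', eb, hb, hb', hsb⟩⟩ := hs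
      have hst : s ≤ t := Nat.find_min' hex ⟨h0, _, _, pre_full hp.1, pre_full hp.2⟩
      have hblk : Bk (a, b) := by
        refine ⟨s, hs0, ⟨⟨ha, by rw [hsa]⟩, ⟨hb, by rw [hsb]⟩⟩, ?_⟩
        rintro r hr0 hrs ⟨g, g', hg, hg'⟩
        refine Nat.find_min hex hrs ⟨hr0, g, g', ?_, ?_⟩
        · rw [ea]
          exact (pre_left ha ha' (by rw [hsa]; simp only; exact_mod_cast hrs.le)).2 hg
        · rw [eb]
          exact (pre_left hb hb' (by rw [hsb]; simp only; exact_mod_cast hrs.le)).2 hg'
      have hrest : BB (t - s) (a', b') := by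
        have h3 := hp.1.2
        have h4 := hp.2.2
        rw [ea, List.sum_append, Prod.fst_add, hsa] at h3
        rw [eb, List.sum_append, Prod.fst_add, hsb] at h4
        simp only at h3 h4
        refine ⟨⟨ha', ?_⟩, ⟨hb', ?_⟩⟩
        · simp only; omega
        · simp only; omega
      obtain ⟨bs, hbs⟩ := ih (t - s) (by omega) hrest
      refine ⟨⟨(a, b), hblk⟩ :: bs, ?_⟩
      rw [cat, hbs]
      exact (Prod.ext ea eb : p = (a ++ a', b ++ b')).symm

/-- pairs correspond to lists of blocks -/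
noncomputable def catEquiv (t : ℕ) : {bs : List Blk // sp bs = t} ≃ {p : PP // BB t p} :=
  Equiv.ofBijective (fun bs => ⟨cat bs.1, by have := cat_BB bs.1; rwa [bs.2] at this⟩) (by
    constructor
    · intro a b h
      exact Subtype.ext (cat_inj (congrArg Subtype.val h))
    · rintro ⟨p, hp⟩
      obtain ⟨bs, rfl⟩ := exists_cat hp
      refine ⟨⟨bs, ?_⟩, rfl⟩
      have h1 := (cat_BB bs).1.2
      rw [hp.1.2] at h1
      exact_mod_cast h1.symm)

theorem sp_take_lt {bs : List Blk} {i j : ℕ} (hij : i < j) (hj : j ≤ bs.length) :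
    sp (bs.take i) < sp (bs.take j) := by
  have h1 : bs.take j = bs.take i ++ (bs.take j).drop i := by
    conv_lhs => rw [← List.take_append_drop i (bs.take j)]
    rw [List.take_take, min_eq_left hij.le]
  have h2 : 1 ≤ sp ((bs.take j).drop i) := by
    apply sp_pos
    intro h3
    have := congrArg List.length h3
    simp only [List.length_drop, List.length_take, List.length_nil] at this
    omega
  rw [h1, sp_append]
  omega

theorem nc_cat (bs : List Blk) : nc (sp bs) (cat bs).1 (cat bs).2 = bs.length := by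
  classical
  unfold nc
  have h1 : (Finset.Icc 1 (sp bs)).filter (fun s => Com (cat bs).1 (cat bs).2 s) =
      (Finset.range bs.length).image (fun k => sp (bs.take (k + 1))) := by
    ext s
    rw [Finset.mem_filter, Finset.mem_Icc, show Com (cat bs).1 (cat bs).2 s ↔ _ from cm_cat,
      Finset.mem_image]
    constructor
    · rintro ⟨⟨h1, h2⟩, a, b, e, ha⟩
      have ha0 : a ≠ [] := by
        rintro rfl
        rw [sp_nil] at ha
        omega
      have ha1 := List.length_pos_iff.2 ha0
      refine ⟨a.length - 1, ?_, ?_⟩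
      · rw [Finset.mem_range, e, List.length_append]; omega
      · rw [Nat.sub_add_cancel ha1, e, List.take_left, ha]
    · rintro ⟨k, hk, rfl⟩
      rw [Finset.mem_range] at hk
      refine ⟨⟨?_, ?_⟩, ⟨bs.take (k + 1), bs.drop (k + 1), (List.take_append_drop _ _).symm, rfl⟩⟩
      · have := sp_take_lt (bs := bs) (i := 0) (j := k + 1) (by omega) (by omega)
        omega
      · rcases Nat.lt_or_ge (k + 1) bs.length with h | h
        · have := sp_take_lt (bs := bs) h le_rfl
          rw [List.take_length] at this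
          exact this.le
        · rw [List.take_of_length_le h]
  rw [h1, Finset.card_image_of_injOn, Finset.card_range]
  intro i hi j hj hij
  simp only [Finset.coe_range, Set.mem_Iio] at hi hj
  simp only at hij
  by_contra hne
  rcases Nat.lt_or_gt_of_ne hne with h | h
  · have := sp_take_lt (bs := bs) (i := i + 1) (j := j + 1) (by omega) (by omega)
    omega
  · have := sp_take_lt (bs := bs) (i := j + 1) (j := i + 1) (by omega) (by omega)
    omega

/-- reflection of a block -/
def rB (b : Blk) : Blk := ⟨(ry b.1.1, ry b.1.2), by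
  obtain ⟨s, h1, h2, h3⟩ := b.2
  refine ⟨s, h1, ⟨ry_W h2.1, ry_W h2.2⟩, ?_⟩
  rintro t h4 h5 ⟨h, h', hh, hh'⟩
  refine h3 t h4 h5 ⟨-h, -h', ?_, ?_⟩
  · have := pre_ry hh
    rwa [ry_ry] at this
  · have := pre_ry hh'
    rwa [ry_ry] at this⟩

theorem rB_rB (b : Blk) : rB (rB b) = b := by
  apply Subtype.ext
  simp [rB]

theorem rB_sB (b : Blk) : sB (rB b) = sB b := by
  unfold sB rB
  simp only [ry_sum]

theorem rB_dB (b : Blk) : dB (rB b) = - dB b := by
  unfold dB rB
  simp only [ry_sum]
  ring

theorem rB_pl (b : Blk) : pl (rB b).1 = pl b.1 := by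
  unfold pl rB
  simp

/-- reflect if the sign is false -/
def rf (e : Bool) : Blk ≃ Blk where
  toFun b := if e then b else rB b
  invFun b := if e then b else rB b
  left_inv b := by cases e <;> simp [rB_rB]
  right_inv b := by cases e <;> simp [rB_rB]

theorem rf_sB (e : Bool) (b : Blk) : sB (rf e b) = sB b := by
  cases e <;> simp [rf, rB_sB]

theorem rf_pl (e : Bool) (b : Blk) : pl (rf e b).1 = pl b.1 := by
  cases e <;> simp [rf, rB_pl]

theorem rf_dB (e : Bool) (b : Blk) : dB (rf e b) = SA.sg e * dB b := by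
  cases e <;> simp [rf, rB_dB, SA.sg]

/-- signed permutations act on sequences of blocks -/
def act {n : ℕ} (q : Equiv.Perm (Fin n) × (Fin n → Bool)) : (Fin n → Blk) ≃ (Fin n → Blk) :=
  (Equiv.arrowCongr q.1.symm (Equiv.refl Blk)).trans (Equiv.piCongrRight (fun j => rf (q.2 j)))

theorem act_apply {n : ℕ} (q : Equiv.Perm (Fin n) × (Fin n → Bool)) (f : Fin n → Blk)
    (j : Fin n) : act q f j = rf (q.2 j) (f (q.1 j)) := by
  simp [act, Equiv.arrowCongr]

/-- all partial sums positive -/
def P1 {n : ℕ} (ξ : Fin n → ℤ) : Prop :=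
  ∀ k : Fin n, 0 < ∑ j ∈ Finset.univ.filter (fun j => j ≤ k), ξ j

open Classical in
theorem avg {n : ℕ} (H : (Fin n → Blk) → ℝ≥0∞) (hH : ∀ q f, H (act q f) = H f) :
    ((n.factorial * 2 ^ n : ℕ) : ℝ≥0∞) * ∑' f, H f * (if P1 (fun j => dB (f j)) then 1 else 0) ≤
      (SA.dfac n : ℝ≥0∞) * ∑' f, H f := by
  have h1 : ∀ q : Equiv.Perm (Fin n) × (Fin n → Bool),
      ∑' f, H f * (if P1 (fun j => dB (f j)) then 1 else 0) =
      ∑' f, H f * (if SA.Gd (fun j => dB (f j)) q then 1 else 0) := by
    intro q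
    rw [← Equiv.tsum_eq (act q) (fun f => H f * (if P1 (fun j => dB (f j)) then 1 else 0))]
    refine tsum_congr (fun f => ?_)
    rw [hH]
    congr 1
    have : P1 (fun j => dB (act q f j)) ↔ SA.Gd (fun j => dB (f j)) q := by
      unfold P1 SA.Gd
      simp only [act_apply, rf_dB]
    simp only [this]
  have h2 : ((n.factorial * 2 ^ n : ℕ) : ℝ≥0∞) *
      ∑' f, H f * (if P1 (fun j => dB (f j)) then 1 else 0) =
      ∑ q : Equiv.Perm (Fin n) × (Fin n → Bool),
        ∑' f, H f * (if SA.Gd (fun j => dB (f j)) q then 1 else 0) := by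
    rw [Finset.sum_congr rfl (fun q _ => (h1 q).symm), Finset.sum_const, nsmul_eq_mul]
    congr 2
    rw [Finset.card_univ, Fintype.card_prod, Fintype.card_perm, Fintype.card_fun]
    simp
  rw [h2, ← Summable.tsum_finsetSum (fun _ _ => ENNReal.summable), ← ENNReal.tsum_mul_left]
  refine ENNReal.tsum_le_tsum (fun f => ?_)
  rw [← Finset.mul_sum, mul_comm]
  refine mul_le_mul' ?_ le_rfl
  rw [Finset.sum_ite, Finset.sum_const_zero, add_zero, Finset.sum_const, nsmul_eq_mul, mul_one]
  exact_mod_cast SA.sparre_card (fun j => dB (f j))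

theorem avg_neg {n : ℕ} (H : (Fin n → Blk) → ℝ≥0∞) (hH : ∀ q f, H (act q f) = H f)
    [DecidablePred fun f : Fin n → Blk => P1 (fun j => dB (f j))]
    [DecidablePred fun f : Fin n → Blk => P1 (fun j => - dB (f j))] :
    ∑' f, H f * (if P1 (fun j => - dB (f j)) then 1 else 0) =
      ∑' f, H f * (if P1 (fun j => dB (f j)) then 1 else 0) := by
  rw [← Equiv.tsum_eq (act ((1 : Equiv.Perm (Fin n)), fun _ => false))
    (fun f => H f * (if P1 (fun j => dB (f j)) then 1 else 0))]
  refine tsum_congr (fun f => ?_)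
  rw [hH]
  congr 1
  have : P1 (fun j => dB (act ((1 : Equiv.Perm (Fin n)), fun _ => false) f j)) ↔
      P1 (fun j => - dB (f j)) := by
    simp only [act_apply, rf_dB, SA.sg]
    simp
  simp only [this]

/-- weight of a sequence of blocks with total span t -/
noncomputable def HH (x : ℝ≥0∞) (t : ℕ) {n : ℕ} (f : Fin n → Blk) : ℝ≥0∞ :=
  if ∑ i, sB (f i) = t then x ^ (∑ i, pl (f i).1) else 0

theorem HH_act (x : ℝ≥0∞) (t : ℕ) {n : ℕ} (q : Equiv.Perm (Fin n) × (Fin n → Bool))
    (f : Fin n → Blk) : HH x t (act q f) = HH x t f := by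
  unfold HH
  have h1 : ∑ i, sB (act q f i) = ∑ i, sB (f i) := by
    simp only [act_apply, rf_sB]
    exact Equiv.sum_comp q.1 (fun i => sB (f i))
  have h2 : ∑ i, pl (act q f i).1 = ∑ i, pl (f i).1 := by
    simp only [act_apply, rf_pl]
    exact Equiv.sum_comp q.1 (fun i => pl (f i).1)
  rw [h1, h2]

theorem sp_ofFn {n : ℕ} (f : Fin n → Blk) : sp (List.ofFn f) = ∑ i, sB (f i) := by
  unfold sp
  rw [List.map_ofFn, List.sum_ofFn]
  rfl

theorem pl_ofFn {n : ℕ} (f : Fin n → Blk) : pl (cat (List.ofFn f)) = ∑ i, pl (f i).1 := by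
  rw [cat_pl, List.map_ofFn, List.sum_ofFn]
  rfl

theorem dl_take_ofFn {n : ℕ} (f : Fin n → Blk) (k : Fin n) :
    dl ((List.ofFn f).take (k.val + 1)) =
      ∑ j ∈ Finset.univ.filter (fun j => j ≤ k), dB (f j) := by
  have h1 : dl ((List.ofFn f).take (k.val + 1)) =
      ∑ i ∈ Finset.range (k.val + 1), if h : i < n then dB (f ⟨i, h⟩) else 0 := by
    have hk : k.val + 1 ≤ n := k.is_lt
    generalize k.val + 1 = m at hk
    induction m with
    | zero => simp [dl]
    | succ m ih =>
      rw [Finset.sum_range_succ, ← ih (by omega), List.take_add_one, dl_append]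
      congr 1
      rw [List.getElem?_ofFn]
      rw [dif_pos (by omega), dif_pos (by omega)]
      simp [dl]
  rw [h1]
  symm
  refine Finset.sum_bij (fun j _ => j.val) ?_ ?_ ?_ ?_
  · intro j hj
    simp only [Finset.mem_filter, Finset.mem_univ, true_and, Fin.le_def] at hj
    rw [Finset.mem_range]; omega
  · intro j _ j' _ h
    exact Fin.ext h
  · intro i hi
    rw [Finset.mem_range] at hi
    have hi2 : i < n := by have := k.is_lt; omega
    refine ⟨⟨i, hi2⟩, ?_, rfl⟩
    rw [Finset.mem_filter]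
    refine ⟨Finset.mem_univ _, ?_⟩
    rw [Fin.le_def]
    simp only
    omega
  · intro j _
    rw [dif_pos j.is_lt]

/-- order preserving sequences have partial sums of constant sign -/
theorem pos_P1 {n : ℕ} {f : Fin n → Blk} {t : ℕ} (ht : ∑ i, sB (f i) = t)
    (h : Pos t (cat (List.ofFn f)).1 (cat (List.ofFn f)).2) :
    P1 (fun j => dB (f j)) ∨ P1 (fun j => - dB (f j)) := by
  obtain ⟨σ, hσ, h⟩ := h
  have key : ∀ k : Fin n, 0 < σ * ∑ j ∈ Finset.univ.filter (fun j => j ≤ k), dB (f j) := by
    intro k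
    rw [← dl_take_ofFn, ← cat_dl]
    have e := List.take_append_drop (k.val + 1) (List.ofFn f)
    have hp := pre_cat ((List.ofFn f).take (k.val + 1)) ((List.ofFn f).drop (k.val + 1))
    rw [e] at hp
    refine h _ ?_ ?_ _ _ hp.1 hp.2
    · apply sp_pos
      intro h3
      have := congrArg List.length h3
      simp only [List.length_take, List.length_ofFn, List.length_nil] at this
      have := k.is_lt
      omega
    · rw [← ht, ← sp_ofFn]
      conv_rhs => rw [← e, sp_append]
      omega
  rcases hσ with rfl | rfl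
  · left; intro k; have := key k; rwa [one_mul] at this
  · right; intro k; have := key k
    rw [Finset.sum_neg_distrib]
    linarith

end BL

end Pool.Agent.Work.MP_376faf_co_hw
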