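import Pool.Agent.Work.MP_376faf_co_hw.Symm

/-! Module Chain: comparison of the chain sums with indicator kernel and averaged kernel. -/

set_option autoImplicit false

namespace Pool.Agent.Work.MP_376faf_co_hw

open Pool.Agent.Work.MP_376faf_co_lower
open scoped ENNReal

theorem chain_eq (x K : ℝ≥0∞) (lam : ℕ → ℝ≥0∞) (χ : ℕ → Option (List Pt) → List Pt → ℝ≥0∞)
    (S : ℕ) (ξ : Option (List Pt)) : chain x K lam χ S ξ = 1 + ∑ S' ∈ Finset.range S,
      (K * (∑' c : BW S', x ^ c.1.length * χ S' ξ c.1 * chain x K lam χ S' (some c.1)) +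
      lam S' * chain x K lam χ S' none) := by
  rw [chain, Finset.sum_range]

theorem pre_rb_append {a k : List Pt} {t u : ℕ} (ha : BridgeW t a) (hk : BridgeW u k) {s : ℕ}
    (hs : s ≤ t) (h : ℤ) : Pre (rb (k ++ a)) s h ↔ Pre (rb a) s h := by
  rw [rb_append hk.1 ha.1]
  exact pre_left (rb_bridge ha.1) (rb_bridge hk.1) (by rw [rb_sum, ha.2]; exact_mod_cast hs)

theorem pos_congr {W : ℕ} {k k' l l' : List Pt} (h1 : ∀ s ≤ W, ∀ h, Pre k s h ↔ Pre l s h)
    (h2 : ∀ s ≤ W, ∀ h, Pre k' s h ↔ Pre l' s h) : Pos W k k' ↔ Pos W l l' := by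
  unfold Pos
  constructor
  · rintro ⟨σ, hσ, H⟩
    exact ⟨σ, hσ, fun t ht1 ht2 h h' hp hp' => H t ht1 ht2 h h' ((h1 t ht2 h).2 hp) ((h2 t ht2 h').2 hp')⟩
  · rintro ⟨σ, hσ, H⟩
    exact ⟨σ, hσ, fun t ht1 ht2 h h' hp hp' => H t ht1 ht2 h h' ((h1 t ht2 h).1 hp) ((h2 t ht2 h').1 hp')⟩

theorem findGreatest_congr {P Q : ℕ → Prop} {_ : DecidablePred P} {_ : DecidablePred Q} {W : ℕ}
    (h : ∀ s ≤ W, P s ↔ Q s) : Nat.findGreatest P W = Nat.findGreatest Q W := by
  induction W with
  | zero => simp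
  | succ n ih =>
    rw [Nat.findGreatest_succ, Nat.findGreatest_succ, ih (fun s hs => h s (by omega))]
    simp only [h (n + 1) le_rfl]

theorem lst_congr {W : ℕ} {k k' l l' : List Pt} (h1 : ∀ s ≤ W, ∀ h, Pre k s h ↔ Pre l s h)
    (h2 : ∀ s ≤ W, ∀ h, Pre k' s h ↔ Pre l' s h) : lst W k k' = lst W l l' := by
  unfold lst
  refine findGreatest_congr fun s hs => ?_
  unfold Com
  simp only [h1 s hs, h2 s hs]

theorem chain_invR (x K : ℝ≥0∞) (lam : ℕ → ℝ≥0∞) (S : ℕ) :
    InvR S (fun c => chain x K lam kP S (some c)) := by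
  intro t ht a k k' ha hk hk'
  simp only
  rw [chain_eq, chain_eq]
  congr 1
  refine Finset.sum_congr rfl fun S' hS' => ?_
  rw [Finset.mem_range] at hS'
  congr 2
  refine tsum_congr fun c => ?_
  congr 2
  simp only [kP]
  have : Pos (S' / 2) (rb (k ++ a)) c.1 ↔ Pos (S' / 2) (rb (k' ++ a)) c.1 := by
    refine pos_congr (fun s hs h => ?_) (fun s hs h => Iff.rfl)
    rw [pre_rb_append ha hk (by omega), pre_rb_append ha hk' (by omega)]
  by_cases h : Pos (S' / 2) (rb (k ++ a)) c.1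
  · rw [if_pos h, if_pos (this.1 h)]
  · rw [if_neg h, if_neg (fun h' => h (this.2 h'))]

theorem avg_invL (x : ℝ≥0∞) (S S' : ℕ) (L : List Pt → ℝ≥0∞) :
    InvL S' (fun c' => ∑' c : BW S, x ^ c.1.length * (L c.1 * th x (lst (S' / 2) (rb c.1) c'))) := by
  intro t ht a k k' ha hk hk'
  simp only
  refine tsum_congr fun c => ?_
  congr 3
  refine lst_congr (fun s hs h => Iff.rfl) (fun s hs h => ?_)
  have h1 : (s : ℤ) ≤ a.sum.1 := by rw [ha.2]; exact_mod_cast (by omega : s ≤ S' - t)
  rw [pre_left ha.1 hk.1 h1, pre_left ha.1 hk'.1 h1]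

/-- reversal as a permutation of the bridges of span S -/
def rbE (S : ℕ) : BW S ≃ BW S where
  toFun c := ⟨rb c.1, rb_W c.2⟩
  invFun c := ⟨rb c.1, rb_W c.2⟩
  left_inv c := Subtype.ext (rb_rb c.1)
  right_inv c := Subtype.ext (rb_rb c.1)

theorem tsum_pair_rb (x : ℝ≥0∞) (S S' : ℕ) (F : List Pt → List Pt → ℝ≥0∞) :
    ∑' c : BW S, x ^ c.1.length * ∑' c' : BW S', x ^ c'.1.length * F c.1 c'.1 =
    ∑' p : BW S × BW S', x ^ p.1.1.length * x ^ p.2.1.length * F (rb p.1.1) p.2.1 := by
  rw [ENNReal.tsum_prod', ← (rbE S).tsum_eq]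
  refine tsum_congr fun c => ?_
  rw [← ENNReal.tsum_mul_left]
  refine tsum_congr fun c' => ?_
  simp only [rbE, Equiv.coe_fn_mk, rb_length]
  ring

open Classical in
theorem key {x : ℝ≥0∞} (hx : x ≠ 0) (hu : ∀ t, uu x t ≤ 1) {S S' : ℕ} (hS : S' < S)
    {L R : List Pt → ℝ≥0∞} (hL : InvL S L) (hR : InvR S' R) :
    ∑' c : BW S, x ^ c.1.length * (L c.1 * ∑' c' : BW S', x ^ c'.1.length *
      kP S' (some c.1) c'.1 * R c'.1) =
    ∑' c' : BW S', x ^ c'.1.length * ((∑' c : BW S, x ^ c.1.length *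
      (L c.1 * th x (lst (S' / 2) (rb c.1) c'.1))) * R c'.1) := by
  have h1 := symm hx hu (S := S) (S' := S') (W := S' / 2) (by omega) (by omega)
    (fun a b => L (rb a) * R b) (by
      intro t ht k l k' l' a a' hk hl hk' hl' ha ha'
      rw [rb_append hk.1 ha.1, rb_append hl.1 ha.1, hL t (by omega) (rb a) (rb k) (rb l)
        (rb_W ha) (rb_W hk) (rb_W hl), hR t (by omega) a' k' l' ha' hk' hl'])
  have h2 : ∑' c : BW S, x ^ c.1.length * (L c.1 * ∑' c' : BW S', x ^ c'.1.length *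
      kP S' (some c.1) c'.1 * R c'.1) = ∑' c : BW S, x ^ c.1.length * ∑' c' : BW S',
        x ^ c'.1.length * (kP S' (some c.1) c'.1 * (L c.1 * R c'.1)) := by
    refine tsum_congr fun c => ?_
    congr 1
    rw [← ENNReal.tsum_mul_left]
    exact tsum_congr fun c' => by ring
  rw [h2, tsum_pair_rb x S S' (fun c c' => kP S' (some c) c' * (L c * R c'))]
  have h3 : ∑' c' : BW S', x ^ c'.1.length * ((∑' c : BW S, x ^ c.1.length *
      (L c.1 * th x (lst (S' / 2) (rb c.1) c'.1))) * R c'.1) =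
      ∑' c : BW S, x ^ c.1.length * ∑' c' : BW S',
        x ^ c'.1.length * (th x (lst (S' / 2) (rb c.1) c'.1) * (L c.1 * R c'.1)) := by
    have : ∀ c' : BW S', x ^ c'.1.length * ((∑' c : BW S, x ^ c.1.length *
      (L c.1 * th x (lst (S' / 2) (rb c.1) c'.1))) * R c'.1) = ∑' c : BW S,
        x ^ c.1.length * (x ^ c'.1.length * (th x (lst (S' / 2) (rb c.1) c'.1) *
          (L c.1 * R c'.1))) := by
      intro c'
      rw [← ENNReal.tsum_mul_right, ← ENNReal.tsum_mul_left]
      exact tsum_congr fun c => by ring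
    simp only [this]
    rw [ENNReal.tsum_comm]
    exact tsum_congr fun c => by rw [ENNReal.tsum_mul_left]
  rw [h3, tsum_pair_rb x S S' (fun c c' => th x (lst (S' / 2) (rb c) c') * (L c * R c'))]
  simp only [rb_rb]
  rw [← h1]
  refine tsum_congr fun p => ?_
  have e : kP S' (some (rb p.1.1)) p.2.1 = if Pos (S' / 2) p.1.1 p.2.1 then 1 else 0 := by
    simp only [kP]; rw [rb_rb]
  rw [e]
  congr 1
  split_ifs <;> simp

theorem chain_compare {x : ℝ≥0∞} (hx : x ≠ 0) (hu : ∀ t, uu x t ≤ 1) (K : ℝ≥0∞) (lam : ℕ → ℝ≥0∞)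
    (S : ℕ) : (∀ L, InvL S L →
      ∑' c : BW S, x ^ c.1.length * (L c.1 * chain x K lam kP S (some c.1)) ≤
      ∑' c : BW S, x ^ c.1.length * (L c.1 * chain x K lam (kT x) S (some c.1))) ∧
      chain x K lam kP S none ≤ chain x K lam (kT x) S none := by
  induction S using Nat.strong_induction_on with
  | _ S ih =>
    constructor
    · intro L hL
      have hexp : ∀ χ : ℕ → Option (List Pt) → List Pt → ℝ≥0∞,
          ∑' c : BW S, x ^ c.1.length * (L c.1 * chain x K lam χ S (some c.1)) =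
          (∑' c : BW S, x ^ c.1.length * L c.1) + ∑ S' ∈ Finset.range S,
            (K * (∑' c : BW S, x ^ c.1.length * (L c.1 * ∑' c' : BW S', x ^ c'.1.length *
              χ S' (some c.1) c'.1 * chain x K lam χ S' (some c'.1))) +
            lam S' * chain x K lam χ S' none * ∑' c : BW S, x ^ c.1.length * L c.1) := by
        intro χ
        have e1 : ∀ c : BW S, x ^ c.1.length * (L c.1 * chain x K lam χ S (some c.1)) =
            x ^ c.1.length * L c.1 + ∑ S' ∈ Finset.range S,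
              (K * (x ^ c.1.length * (L c.1 * ∑' c' : BW S', x ^ c'.1.length *
              χ S' (some c.1) c'.1 * chain x K lam χ S' (some c'.1))) +
              lam S' * chain x K lam χ S' none * (x ^ c.1.length * L c.1)) := by
          intro c
          rw [chain_eq, ← mul_assoc, mul_add, mul_one, Finset.mul_sum]
          congr 1
          exact Finset.sum_congr rfl fun S' _ => by ring
        simp only [e1]
        rw [ENNReal.tsum_add, Summable.tsum_finsetSum (fun _ _ => ENNReal.summable)]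
        congr 1
        refine Finset.sum_congr rfl fun S' _ => ?_
        rw [ENNReal.tsum_add, ENNReal.tsum_mul_left, ENNReal.tsum_mul_left]
      rw [hexp kP, hexp (kT x)]
      refine add_le_add le_rfl (Finset.sum_le_sum fun S' hS' => ?_)
      rw [Finset.mem_range] at hS'
      refine add_le_add (mul_le_mul' le_rfl ?_) (mul_le_mul' (mul_le_mul' le_rfl (ih S' hS').2) le_rfl)
      rw [key hx hu hS' hL (chain_invR x K lam S')]
      refine ((ih S' hS').1 _ (avg_invL x S S' L)).trans (le_of_eq ?_)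
      have : ∀ c' : BW S', x ^ c'.1.length * ((∑' c : BW S, x ^ c.1.length *
        (L c.1 * th x (lst (S' / 2) (rb c.1) c'.1))) * chain x K lam (kT x) S' (some c'.1)) =
          ∑' c : BW S, x ^ c.1.length * (L c.1 * (x ^ c'.1.length * (kT x) S' (some c.1) c'.1 *
            chain x K lam (kT x) S' (some c'.1))) := by
        intro c'
        rw [← ENNReal.tsum_mul_right, ← ENNReal.tsum_mul_left]
        exact tsum_congr fun c => by simp only [kT]; ring
      simp only [this]
      rw [ENNReal.tsum_comm]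
      exact tsum_congr fun c => by rw [ENNReal.tsum_mul_left, ENNReal.tsum_mul_left]
    · rw [chain_eq, chain_eq]
      refine add_le_add le_rfl (Finset.sum_le_sum fun S' hS' => ?_)
      rw [Finset.mem_range] at hS'
      refine add_le_add (mul_le_mul' le_rfl ?_) (mul_le_mul' le_rfl (ih S' hS').2)
      have h1 := (ih S' hS').1 (fun _ => 1) (fun _ _ _ _ _ _ _ _ => rfl)
      simpa only [kP, kT, mul_one, one_mul] using h1

end Pool.Agent.Work.MP_376faf_co_hw
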