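import Pool.Agent.Work.MP_376faf_co_lower.Renewal

/-! Improved Hammersley-Welsh bound on Z^2: definitions. -/

set_option autoImplicit false

namespace Pool.Agent.Work.MP_376faf_co_hw

open Pool.Agent.Work.MP_376faf_co_lower
open scoped ENNReal

/-- the unit step in the first coordinate direction -/
def eE : Pt := (1, 0)

/-- negation of all steps -/
def ng (l : List Pt) : List Pt := l.map (fun s => -s)

/-- reflection of the second coordinate -/
def ry (l : List Pt) : List Pt := l.map (fun s => (s.1, -s.2))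

/-- reversal of a bridge: the first step stays, the order of the others is reversed -/
def rb : List Pt → List Pt
  | [] => []
  | s :: l => s :: l.reverse

/-- the bridge b has a prefix which is a bridge with span t and height h, the rest being
a bridge, too -/
def Pre (b : List Pt) (t : ℕ) (h : ℤ) : Prop :=
  ∃ p q, b = p ++ q ∧ Bridge p ∧ Bridge q ∧ p.sum = ((t : ℤ), h)

/-- the mass of bridges with span t -/
noncomputable def uu (x : ℝ≥0∞) (t : ℕ) : ℝ≥0∞ := mass x (BridgeW t)

/-- bridges with span t -/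
abbrev BW (t : ℕ) : Type := {l : List Pt // BridgeW t l}

/-- t is a prefix span of both bridges -/
def Com (k k' : List Pt) (t : ℕ) : Prop := ∃ h h' : ℤ, Pre k t h ∧ Pre k' t h'

open Classical in
/-- number of common prefix spans in [1,W] -/
noncomputable def nc (W : ℕ) (k k' : List Pt) : ℕ :=
  ((Finset.Icc 1 W).filter (fun t => Com k k' t)).card

open Classical in
/-- largest common prefix span in [0,W] -/
noncomputable def lst (W : ℕ) (k k' : List Pt) : ℕ := Nat.findGreatest (fun t => Com k k' t) W

/-- at all common prefix spans in [1,W] the two bridges are in the same strict order -/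
def Pos (W : ℕ) (k k' : List Pt) : Prop := ∃ σ : ℤ, (σ = 1 ∨ σ = -1) ∧
  ∀ t : ℕ, 1 ≤ t → t ≤ W → ∀ h h' : ℤ, Pre k t h → Pre k' t h' → 0 < σ * (h - h')

open Classical in
/-- mass of ordered pairs of bridges of span t -/
noncomputable def pm (x : ℝ≥0∞) (t : ℕ) : ℝ≥0∞ :=
  ∑' p : BW t × BW t, if Pos t p.1.1 p.2.1 then x ^ p.1.1.length * x ^ p.2.1.length else 0

noncomputable def th (x : ℝ≥0∞) (t : ℕ) : ℝ≥0∞ := pm x t / uu x t ^ 2

/-- mean square of theta over pairs -/
noncomputable def zz (x : ℝ≥0∞) (S S' : ℕ) : ℝ≥0∞ :=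
  ∑' p : BW S × BW S', x ^ p.1.1.length * x ^ p.2.1.length * th x (lst (S' / 2) (rb p.1.1) p.2.1) ^ 2

/-- harmonic sums -/
noncomputable def hs (m : ℕ) : ℝ≥0∞ := ∑ j ∈ Finset.range (m + 1), ((j : ℝ≥0∞) + 1)⁻¹

/-- half-plane walks with at most n steps in the strip of width M -/
def HL (n M : ℕ) (l : List Pt) : Prop := HalfLe M l ∧ l.length ≤ n

/-- long bridges -/
def LoB (m n A : ℕ) (l : List Pt) : Prop := BridgeW A l ∧ m ≤ l.length ∧ l.length ≤ n

/-- continuation sums of chains of bridges: c.f. Chain.lean; `some c` stands for the bridge c,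
`none` for a long bridge, after which there is no restriction -/
noncomputable def chain (x K : ℝ≥0∞) (lam : ℕ → ℝ≥0∞) (χ : ℕ → Option (List Pt) → List Pt → ℝ≥0∞) :
    ℕ → Option (List Pt) → ℝ≥0∞
  | S => fun ξ => 1 + ∑ S' : Fin S, (K * (∑' c : BW S'.1,
      x ^ c.1.length * χ S'.1 ξ c.1 * chain x K lam χ S'.1 (some c.1)) +
      lam S'.1 * chain x K lam χ S'.1 none)
  termination_by S => S
  decreasing_by all_goals exact S'.2

open Classical in
/-- indicator kernel: order preserved at the hairpin -/
noncomputable def kP (S' : ℕ) : Option (List Pt) → List Pt → ℝ≥0∞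
  | none, _ => 1
  | some c, c' => if Pos (S' / 2) (rb c) c' then 1 else 0

/-- averaged kernel -/
noncomputable def kT (x : ℝ≥0∞) (S' : ℕ) : Option (List Pt) → List Pt → ℝ≥0∞
  | none, _ => 1
  | some c, c' => th x (lst (S' / 2) (rb c) c')

/-- L does not change if a suffix with span less than S/2 is exchanged -/
def InvL (S : ℕ) (L : List Pt → ℝ≥0∞) : Prop := ∀ t : ℕ, 2 * t + 1 ≤ S → ∀ a k k' : List Pt,
  BridgeW (S - t) a → BridgeW t k → BridgeW t k' → L (a ++ k) = L (a ++ k')

/-- R does not change if a prefix with span at most S/2 is exchanged -/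
def InvR (S : ℕ) (R : List Pt → ℝ≥0∞) : Prop := ∀ t : ℕ, 2 * t ≤ S → ∀ a k k' : List Pt,
  BridgeW (S - t) a → BridgeW t k → BridgeW t k' → R (k ++ a) = R (k' ++ a)

end Pool.Agent.Work.MP_376faf_co_hw
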