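import Mathlib

/-! The energy recursion (abstract form). -/

set_option autoImplicit false

namespace Pool.Agent.Work.MP_376faf_co_hw.Energy

open Finset
open scoped ENNReal

lemma four_mul_le (a b : ℝ≥0∞) : 4 * (a * b) ≤ (a + b) ^ 2 := by
  rcases eq_or_ne a ⊤ with ha | ha
  · subst ha; simp
  rcases eq_or_ne b ⊤ with hb | hb
  · subst hb; simp
  lift a to NNReal using ha
  lift b to NNReal using hb
  have : 4 * (a * b) ≤ (a + b) ^ 2 := by
    rw [← NNReal.coe_le_coe]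
    push_cast
    nlinarith [sq_nonneg ((a : ℝ) - b)]
  exact_mod_cast this

lemma two_mul_le_of_sq {a b c : ℝ≥0∞} (h : c ^ 2 ≤ a * b) : 2 * c ≤ a + b := by
  have h1 : (2 * c) ^ 2 ≤ (a + b) ^ 2 := by
    calc (2 * c) ^ 2 = 4 * c ^ 2 := by ring
      _ ≤ 4 * (a * b) := by gcongr
      _ ≤ _ := four_mul_le a b
  by_contra hlt
  push Not at hlt
  have := ENNReal.pow_lt_pow_left (n := 2) (by norm_num) hlt
  exact absurd h1 (not_le.mpr this)

/-- Cauchy-Schwarz -/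
lemma cs {ι : Type*} (b x y : ι → ℝ≥0∞) (h : ∀ i, b i ^ 2 ≤ x i * y i) :
    (∑' i, b i) ^ 2 ≤ (∑' i, x i) * ∑' i, y i := by
  have h1 : 2 * (∑' i, b i) ^ 2 ≤ 2 * ((∑' i, x i) * ∑' i, y i) := by
    calc 2 * (∑' i, b i) ^ 2 = ∑' i, ∑' j, 2 * (b i * b j) := by
          rw [pow_two, ← ENNReal.tsum_mul_right, ← ENNReal.tsum_mul_left]
          refine tsum_congr fun i => ?_
          rw [← ENNReal.tsum_mul_left, ← ENNReal.tsum_mul_left]
      _ ≤ ∑' i, ∑' j, (x i * y j + y i * x j) := by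
          refine ENNReal.tsum_le_tsum fun i => ENNReal.tsum_le_tsum fun j => ?_
          refine two_mul_le_of_sq ?_
          calc (b i * b j) ^ 2 = b i ^ 2 * b j ^ 2 := by ring
            _ ≤ (x i * y i) * (x j * y j) := mul_le_mul' (h i) (h j)
            _ = x i * y j * (y i * x j) := by ring
      _ = 2 * ((∑' i, x i) * ∑' i, y i) := by
          simp_rw [ENNReal.tsum_add, ENNReal.tsum_mul_left, ENNReal.tsum_mul_right]
          ring
  exact (ENNReal.mul_le_mul_iff_right (by norm_num) (by norm_num)).mp h1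

lemma one_add_sq_le (a : ℝ≥0∞) : (1 + a) ^ 2 ≤ 2 + 2 * a ^ 2 := by
  have h := two_mul_le_of_sq (a := 1) (b := a ^ 2) (c := a) (by rw [one_mul])
  calc (1 + a) ^ 2 = 1 + 2 * a + a ^ 2 := by ring
    _ ≤ 1 + (1 + a ^ 2) + a ^ 2 := by gcongr
    _ = _ := by ring

section abstract

variable {X : ℕ → Type*} (ν : ∀ S, X S → ℝ≥0∞) (k : ∀ S T, X S → X T → ℝ≥0∞)
  (Γ : ∀ S, X S → ℝ≥0∞)

/-- the Hilbert-Schmidt norm of the kernel between two spans -/
noncomputable def zz (S T : ℕ) : ℝ≥0∞ := ∑' ξ, ν S ξ * ∑' η, ν T η * k S T ξ η ^ 2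

/-- the energy at a span -/
noncomputable def EA (S : ℕ) : ℝ≥0∞ := ∑' ξ, ν S ξ * Γ S ξ ^ 2

/-- weighted sum of the kernel norms -/
noncomputable def kap (r : ℝ≥0∞) (S : ℕ) : ℝ≥0∞ := ∑ T ∈ range S, r ^ (S - T) * zz ν k S T

theorem EA_le {q r : ℝ≥0∞} (hqr : q * r = 1)
    (hΓ : ∀ S ξ, Γ S ξ ≤ 1 + ∑ T ∈ range S, ∑' η, ν T η * k S T ξ η * Γ T η) (S : ℕ) :
    EA ν Γ S ≤ 2 * ∑' ξ, ν S ξ + 2 * (kap ν k r S * ∑ T ∈ range S, q ^ (S - T) * EA ν Γ T) := by
  have hp : ∀ n : ℕ, r ^ n * q ^ n = 1 := fun n => by rw [← mul_pow, mul_comm r q, hqr, one_pow]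
  have h1 : ∀ ξ, Γ S ξ ^ 2 ≤ 2 + 2 * ((∑ T ∈ range S, r ^ (S - T) * ∑' η, ν T η * k S T ξ η ^ 2) *
      ∑ T ∈ range S, q ^ (S - T) * EA ν Γ T) := by
    intro ξ
    refine le_trans (pow_le_pow_left' (hΓ S ξ) 2) ((one_add_sq_le _).trans ?_)
    gcongr
    have h2 := cs (ι := range S) (fun T => ∑' η, ν T η * k S T ξ η * Γ T η)
      (fun T => r ^ (S - (T : ℕ)) * ∑' η, ν T η * k S T ξ η ^ 2)
      (fun T => q ^ (S - (T : ℕ)) * EA ν Γ T) (fun T => by
        have h3 := cs (fun η => ν (T : ℕ) η * k S T ξ η * Γ T η)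
          (fun η => ν (T : ℕ) η * k S T ξ η ^ 2) (fun η => ν (T : ℕ) η * Γ T η ^ 2)
          (fun η => le_of_eq (by ring))
        refine h3.trans (le_of_eq ?_)
        unfold EA
        calc (∑' η, ν (T : ℕ) η * k S T ξ η ^ 2) * ∑' η, ν (T : ℕ) η * Γ T η ^ 2
            = (r ^ (S - (T : ℕ)) * q ^ (S - (T : ℕ))) *
              ((∑' η, ν (T : ℕ) η * k S T ξ η ^ 2) * ∑' η, ν (T : ℕ) η * Γ T η ^ 2) := by
              rw [hp, one_mul]
          _ = _ := by ring)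
    rw [Finset.tsum_subtype (range S) (fun T => ∑' η, ν T η * k S T ξ η * Γ T η),
      Finset.tsum_subtype (range S) (fun T => r ^ (S - T) * ∑' η, ν T η * k S T ξ η ^ 2),
      Finset.tsum_subtype (range S) (fun T => q ^ (S - T) * EA ν Γ T)] at h2
    exact h2
  calc EA ν Γ S ≤ ∑' ξ, ν S ξ * (2 + 2 * ((∑ T ∈ range S, r ^ (S - T) *
        ∑' η, ν T η * k S T ξ η ^ 2) * ∑ T ∈ range S, q ^ (S - T) * EA ν Γ T)) := by
        unfold EA
        exact ENNReal.tsum_le_tsum fun ξ => mul_le_mul_right (h1 ξ) _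
    _ = 2 * ∑' ξ, ν S ξ + 2 * ((∑' ξ, ν S ξ * ∑ T ∈ range S, r ^ (S - T) *
        ∑' η, ν T η * k S T ξ η ^ 2) * ∑ T ∈ range S, q ^ (S - T) * EA ν Γ T) := by
        rw [← ENNReal.tsum_mul_right, ← ENNReal.tsum_mul_left, ← ENNReal.tsum_mul_left,
          ← ENNReal.tsum_add]
        refine tsum_congr fun ξ => ?_
        ring
    _ = _ := by
        congr 3
        unfold kap zz
        simp_rw [mul_sum]
        rw [Summable.tsum_finsetSum fun _ _ => ENNReal.summable]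
        refine sum_congr rfl fun T _ => ?_
        rw [← ENNReal.tsum_mul_left]
        refine tsum_congr fun ξ => ?_
        ring

/-- the damped total energy -/
noncomputable def EE (r : ℝ≥0∞) (S : ℕ) : ℝ≥0∞ := ∑ j ∈ range (S + 1), r ^ (S + j) * EA ν Γ j

theorem EE_le {q r U : ℝ≥0∞} (hqr : q * r = 1) (hr : r ≤ 1) (hU : ∀ S, ∑' ξ, ν S ξ ≤ U)
    (hΓ : ∀ S ξ, Γ S ξ ≤ 1 + ∑ T ∈ range S, ∑' η, ν T η * k S T ξ η * Γ T η) (S : ℕ) :
    EE ν Γ r S ≤ 2 * U * (S + 1) * ∏ T ∈ range (S + 1), (1 + 2 * kap ν k r T) := by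
  have hp : ∀ n : ℕ, r ^ n * q ^ n = 1 := fun n => by rw [← mul_pow, mul_comm r q, hqr, one_pow]
  induction S with
  | zero =>
    have h := EA_le ν k Γ hqr hΓ 0
    have h0 := hU 0
    simp only [EE, range_zero, sum_empty, mul_zero, add_zero, zero_add, range_one, sum_singleton,
      pow_zero, one_mul, prod_singleton, Nat.cast_zero, kap, mul_one] at h ⊢
    exact h.trans (mul_le_mul_right h0 _)
  | succ S ih =>
    have h := EA_le ν k Γ hqr hΓ (S + 1)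
    have e1 : EE ν Γ r (S + 1) = r * EE ν Γ r S + r ^ (S + 1 + (S + 1)) * EA ν Γ (S + 1) := by
      unfold EE
      rw [sum_range_succ _ (S + 1), mul_sum]
      congr 1
      refine sum_congr rfl fun j _ => ?_
      rw [← mul_assoc, ← pow_succ']
      congr 2
      ring
    have e2 : r ^ (S + 1 + (S + 1)) * ∑ T ∈ range (S + 1), q ^ (S + 1 - T) * EA ν Γ T ≤
        EE ν Γ r S := by
      unfold EE
      rw [mul_sum]
      refine sum_le_sum fun T hT => ?_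
      have hT' : T ≤ S := Nat.lt_succ_iff.mp (mem_range.mp hT)
      have e3 : r ^ (S + 1 + (S + 1)) = r * r ^ (S + T) * r ^ (S + 1 - T) := by
        rw [mul_assoc, ← pow_add, ← pow_succ']
        congr 1
        omega
      calc r ^ (S + 1 + (S + 1)) * (q ^ (S + 1 - T) * EA ν Γ T)
          = r * (r ^ (S + T) * EA ν Γ T) * (r ^ (S + 1 - T) * q ^ (S + 1 - T)) := by
            rw [e3]; ring
        _ = r * (r ^ (S + T) * EA ν Γ T) := by rw [hp, mul_one]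
        _ ≤ 1 * (r ^ (S + T) * EA ν Γ T) := by gcongr
        _ = _ := one_mul _
    have hP : 1 ≤ ∏ T ∈ range (S + 1 + 1), (1 + 2 * kap ν k r T) := by
      have : ∀ s : Finset ℕ, 1 ≤ ∏ T ∈ s, (1 + 2 * kap ν k r T) := fun s => by
        induction s using Finset.induction_on with
        | empty => simp
        | insert a s ha ih2 =>
          rw [prod_insert ha]
          calc (1 : ℝ≥0∞) = 1 * 1 := (one_mul 1).symm
            _ ≤ _ := mul_le_mul' le_self_add ih2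
      exact this _
    have hr2 : r ^ (S + 1 + (S + 1)) ≤ 1 := pow_le_one' hr _
    calc EE ν Γ r (S + 1) = r * EE ν Γ r S + r ^ (S + 1 + (S + 1)) * EA ν Γ (S + 1) := e1
      _ ≤ 1 * EE ν Γ r S + r ^ (S + 1 + (S + 1)) * (2 * ∑' ξ, ν (S + 1) ξ +
          2 * (kap ν k r (S + 1) * ∑ T ∈ range (S + 1), q ^ (S + 1 - T) * EA ν Γ T)) := by
          gcongr
      _ = EE ν Γ r S + (r ^ (S + 1 + (S + 1)) * (2 * ∑' ξ, ν (S + 1) ξ) +
          2 * kap ν k r (S + 1) * (r ^ (S + 1 + (S + 1)) *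
            ∑ T ∈ range (S + 1), q ^ (S + 1 - T) * EA ν Γ T)) := by ring
      _ ≤ EE ν Γ r S + (1 * (2 * U) + 2 * kap ν k r (S + 1) * EE ν Γ r S) := by
          gcongr
          exact hU _
      _ = (1 + 2 * kap ν k r (S + 1)) * EE ν Γ r S + 2 * U * 1 := by ring
      _ ≤ (1 + 2 * kap ν k r (S + 1)) *
          (2 * U * (S + 1) * ∏ T ∈ range (S + 1), (1 + 2 * kap ν k r T)) +
          2 * U * ∏ T ∈ range (S + 1 + 1), (1 + 2 * kap ν k r T) := by
          gcongr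
      _ = _ := by
          rw [prod_range_succ _ (S + 1)]
          push_cast
          ring

theorem EA_le_EE {q r : ℝ≥0∞} (hqr : q * r = 1) (S : ℕ) :
    EA ν Γ S ≤ q ^ (2 * S) * EE ν Γ r S := by
  have hp : q ^ (2 * S) * r ^ (2 * S) = 1 := by rw [← mul_pow, hqr, one_pow]
  have h1 : r ^ (S + S) * EA ν Γ S ≤ EE ν Γ r S := by
    unfold EE
    exact single_le_sum (f := fun j => r ^ (S + j) * EA ν Γ j) (fun _ _ => zero_le)
      (mem_range.mpr (Nat.lt_succ_self S))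
  calc EA ν Γ S = q ^ (2 * S) * (r ^ (S + S) * EA ν Γ S) := by
        rw [← mul_assoc, ← two_mul, hp, one_mul]
    _ ≤ _ := by gcongr

lemma geom_sum {D : ℕ} {r : ℝ≥0∞} (hr : ((D : ℝ≥0∞) + 1) * r = D) (n : ℕ) :
    ∑ d ∈ Icc 1 n, r ^ d + D * r ^ n = D := by
  induction n with
  | zero => simp
  | succ n ih =>
    rw [sum_Icc_succ_top (by omega), add_assoc]
    have : r ^ (n + 1) + (D : ℝ≥0∞) * r ^ (n + 1) = D * r ^ n := by
      calc r ^ (n + 1) + (D : ℝ≥0∞) * r ^ (n + 1) = (((D : ℝ≥0∞) + 1) * r) * r ^ n := by ring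
        _ = _ := by rw [hr]
    rw [this, ih]

theorem sum_kap_le {D m : ℕ} {r X0 : ℝ≥0∞} (hr : ((D : ℝ≥0∞) + 1) * r = D)
    (hz : ∀ d, 1 ≤ d → ∑ T ∈ range (m + 1 - d), zz ν k (T + d) T ≤ X0) :
    ∑ S ∈ range (m + 1), kap ν k r S ≤ D * X0 := by
  have h1 : ∑ S ∈ range (m + 1), kap ν k r S =
      ∑ d ∈ Icc 1 m, r ^ d * ∑ T ∈ range (m + 1 - d), zz ν k (T + d) T := by
    unfold kap
    simp_rw [mul_sum]
    rw [sum_sigma', sum_sigma']
    refine sum_bij' (fun p _ => ⟨p.1 - p.2, p.2⟩) (fun p _ => ⟨p.2 + p.1, p.2⟩) ?_ ?_ ?_ ?_ ?_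
    · rintro ⟨S, T⟩ h
      simp only [mem_sigma, mem_range, mem_Icc] at h ⊢
      omega
    · rintro ⟨d, T⟩ h
      simp only [mem_sigma, mem_range, mem_Icc] at h ⊢
      omega
    · rintro ⟨S, T⟩ h
      simp only [mem_sigma, mem_range] at h
      simp only [Sigma.mk.injEq, heq_eq_eq, and_true]
      omega
    · rintro ⟨d, T⟩ h
      simp only [Sigma.mk.injEq, heq_eq_eq, and_true]
      omega
    · rintro ⟨S, T⟩ h
      simp only [mem_sigma, mem_range] at h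
      simp only
      rw [Nat.add_sub_cancel' h.2.le]
  rw [h1]
  calc ∑ d ∈ Icc 1 m, r ^ d * ∑ T ∈ range (m + 1 - d), zz ν k (T + d) T
      ≤ ∑ d ∈ Icc 1 m, r ^ d * X0 := by
        refine sum_le_sum fun d hd => ?_
        have := hz d (mem_Icc.mp hd).1
        gcongr
    _ = (∑ d ∈ Icc 1 m, r ^ d) * X0 := by rw [sum_mul]
    _ ≤ D * X0 := by
        gcongr
        calc ∑ d ∈ Icc 1 m, r ^ d ≤ ∑ d ∈ Icc 1 m, r ^ d + D * r ^ m := le_self_add
          _ = D := geom_sum hr m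

lemma prod_le_exp {s : Finset ℕ} {f : ℕ → ℝ≥0∞} {c : ℝ} (hc : 0 ≤ c)
    (h : ∑ T ∈ s, f T ≤ ENNReal.ofReal c) :
    ∏ T ∈ s, (1 + 2 * f T) ≤ ENNReal.ofReal (Real.exp (2 * c)) := by
  have hfin : ∀ T ∈ s, f T ≠ ⊤ := fun T hT => ne_top_of_le_ne_top ENNReal.ofReal_ne_top
    ((single_le_sum (fun _ _ => zero_le) hT).trans h)
  have h1 : ∏ T ∈ s, (1 + 2 * f T) ≤ ∏ T ∈ s, ENNReal.ofReal (Real.exp (2 * (f T).toReal)) := by
    refine prod_le_prod' fun T hT => ?_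
    have h2 : 1 + 2 * f T = ENNReal.ofReal (1 + 2 * (f T).toReal) := by
      rw [ENNReal.ofReal_add zero_le_one (by positivity), ENNReal.ofReal_mul (by norm_num),
        ENNReal.ofReal_toReal (hfin T hT)]
      simp
    rw [h2]
    refine ENNReal.ofReal_le_ofReal ?_
    have := Real.add_one_le_exp (2 * (f T).toReal)
    linarith
  refine h1.trans ?_
  rw [← ENNReal.ofReal_prod_of_nonneg fun _ _ => (Real.exp_pos _).le, ← Real.exp_sum]
  refine ENNReal.ofReal_le_ofReal (Real.exp_le_exp.mpr ?_)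
  rw [← mul_sum]
  have h3 : ∑ T ∈ s, (f T).toReal ≤ c := by
    rw [← ENNReal.toReal_sum hfin]
    exact ENNReal.toReal_le_of_le_ofReal hc h
  linarith

/-- **The energy bound.** -/
theorem energy {D m : ℕ} (hD : 1 ≤ D) {U : ℝ≥0∞} {x0 : ℝ} (hx0 : 0 ≤ x0)
    (hU : ∀ S, ∑' ξ, ν S ξ ≤ U)
    (hz : ∀ d, 1 ≤ d → ∑ T ∈ range (m + 1 - d), zz ν k (T + d) T ≤ ENNReal.ofReal x0)
    (hΓ : ∀ S ξ, Γ S ξ ≤ 1 + ∑ T ∈ range S, ∑' η, ν T η * k S T ξ η * Γ T η) {S : ℕ} (hS : S ≤ m) :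
    EA ν Γ S ≤ ENNReal.ofReal ((1 + 1 / (D : ℝ)) ^ (2 * S)) *
      (2 * U * (S + 1) * ENNReal.ofReal (Real.exp (2 * (D * x0)))) := by
  have hD0 : (0 : ℝ) < D := by exact_mod_cast hD
  have hDn : (D : ℝ≥0∞) ≠ 0 := by exact_mod_cast (by omega : D ≠ 0)
  set q : ℝ≥0∞ := ENNReal.ofReal (1 + 1 / (D : ℝ)) with hq
  set r : ℝ≥0∞ := ENNReal.ofReal ((D : ℝ) / (D + 1)) with hr
  have hqr : q * r = 1 := by
    rw [hq, hr, ← ENNReal.ofReal_mul (by positivity)]
    have : (1 + 1 / (D : ℝ)) * ((D : ℝ) / (D + 1)) = 1 := by field_simp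
    rw [this, ENNReal.ofReal_one]
  have hr1 : r ≤ 1 := by
    rw [hr, ← ENNReal.ofReal_one]
    refine ENNReal.ofReal_le_ofReal ?_
    rw [div_le_one (by linarith)]
    linarith
  have hrD : ((D : ℝ≥0∞) + 1) * r = D := by
    have e : (D : ℝ≥0∞) + 1 = ENNReal.ofReal ((D : ℝ) + 1) := by
      rw [ENNReal.ofReal_add (by positivity) (by norm_num)]
      simp
    rw [e, hr, ← ENNReal.ofReal_mul (by positivity)]
    have : ((D : ℝ) + 1) * ((D : ℝ) / (D + 1)) = D := by field_simp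
    rw [this, ENNReal.ofReal_natCast]
  refine (EA_le_EE ν Γ hqr S).trans ?_
  rw [hq, ← ENNReal.ofReal_pow (by positivity)]
  refine mul_le_mul_right ((EE_le ν k Γ hqr hr1 hU hΓ S).trans ?_) _
  refine mul_le_mul_right ?_ _
  refine prod_le_exp (by positivity) ?_
  rw [ENNReal.ofReal_mul (by positivity), ENNReal.ofReal_natCast]
  refine le_trans ?_ (sum_kap_le ν k hrD hz)
  exact sum_le_sum_of_subset_of_nonneg (range_subset_range.mpr (by omega)) fun _ _ _ => zero_le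

end abstract

end Pool.Agent.Work.MP_376faf_co_hw.Energy
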