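import Pool.Agent.Work.MP_376faf_co_hw.Defs

/-! Module G: splitting a walk into two half-plane walks, lengths kept under control. -/

set_option autoImplicit false

namespace Pool.Agent.Work.MP_376faf_co_hw

open Pool.Agent.Work.MP_376faf_co_lower
open scoped ENNReal

theorem walk_trunc (y : ℝ≥0∞) (n : ℕ) :
    y * mass y (fun l => Walk l ∧ l.length = n) ≤
      mass y (fun l => Half l ∧ l.length ≤ n + 1) * mass y (fun l => Half l ∧ l.length ≤ n + 1) := by
  choose j hj using fun l : {l : List Pt // Walk l ∧ l.length = n} => walk_split l.2.1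
  have hA : ∀ l : {l : List Pt // Walk l ∧ l.length = n},
      ((1, 0) :: rv (l.1.take (j l))).length ≤ n + 1 := by
    intro l
    have h1 := (hj l).1
    have h2 := l.2.2
    simp only [List.length_cons, rv_length, List.length_take]
    omega
  have hB : ∀ l : {l : List Pt // Walk l ∧ l.length = n}, (l.1.drop (j l)).length ≤ n + 1 := by
    intro l
    have h2 := l.2.2
    simp only [List.length_drop]
    omega
  unfold mass
  rw [← ENNReal.tsum_mul_left, ← tsum_mul]
  refine tsum_le_inj (fun l : {l : List Pt // Walk l ∧ l.length = n} =>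
    ((⟨_, (hj l).2.1, hA l⟩, ⟨_, (hj l).2.2, hB l⟩) :
      {l : List Pt // Half l ∧ l.length ≤ n + 1} × {l : List Pt // Half l ∧ l.length ≤ n + 1})) ?_ ?_
  · intro a b hab
    simp only [Prod.mk.injEq, Subtype.mk.injEq, List.cons.injEq, true_and] at hab
    obtain ⟨h1, h2⟩ := hab
    have h1 := rv_inj h1
    apply Subtype.ext
    rw [← List.take_append_drop (j a) a.1, ← List.take_append_drop (j b) b.1, h1, h2]
  · intro a
    have := (hj a).1
    simp only [List.length_cons, rv_length, List.length_take, List.length_drop]
    rw [← pow_add, ← pow_succ']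
    apply le_of_eq
    congr 1
    omega

end Pool.Agent.Work.MP_376faf_co_hw
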