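import Pool.Agent.Work.MP_376faf_co_hw.HalfB
import Pool.Agent.Work.MP_376faf_co_hw.Crit
import Pool.Agent.Work.MP_376faf_co_hw.Trunc
import Pool.Agent.Work.MP_376faf_co_hw.PolyB
import Pool.Agent.Work.MP_376faf_co_hw.Analysis

/-! Module FinalHW: the two bounds. -/

set_option autoImplicit false

namespace Pool.Agent.Work.MP_376faf_co_hw

open Pool.Agent.Work.MP_376faf_co_lower
open Filter Topology
open scoped ENNReal

theorem FinalHW.HB_pos {μ : ℝ} (hμ : 1 ≤ μ) (m D k : ℕ) : 0 ≤ HB μ m D k := by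
  have : 0 ≤ μ := by linarith
  unfold HB
  positivity

theorem FinalHW.inv_eq {μ : ℝ} (hμ : 1 ≤ μ) : (ENNReal.ofReal μ)⁻¹ = ENNReal.ofReal μ⁻¹ := by
  rw [ENNReal.ofReal_inv_of_pos (by linarith)]

/-- the common step: a bound for half-plane walks gives a bound for walks -/
theorem FinalHW.walk_le {n : ℕ} {y H : ℝ} (hy : 0 ≤ y) (hH : 0 ≤ H)
    (h : mass (ENNReal.ofReal y) (fun l => Half l ∧ l.length ≤ n + 1) ≤ ENNReal.ofReal H) :
    (Nat.card (WalkFun n) : ℝ) * y ^ (n + 1) ≤ H ^ 2 := by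
  have h1 := walk_trunc (ENNReal.ofReal y) n
  have h2 := walk_card_le n (ENNReal.ofReal y)
  have h3 : ENNReal.ofReal y * ((Nat.card (WalkFun n) : ℝ≥0∞) * ENNReal.ofReal y ^ n) ≤
      ENNReal.ofReal H * ENNReal.ofReal H :=
    (mul_le_mul_right h2 _).trans (h1.trans (mul_le_mul' h h))
  have h4 : ENNReal.ofReal y * ((Nat.card (WalkFun n) : ℝ≥0∞) * ENNReal.ofReal y ^ n) =
      ENNReal.ofReal ((Nat.card (WalkFun n) : ℝ) * y ^ (n + 1)) := by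
    rw [ENNReal.ofReal_mul (Nat.cast_nonneg _), ENNReal.ofReal_natCast, pow_succ,
      ENNReal.ofReal_mul (pow_nonneg hy n), ENNReal.ofReal_pow hy]
    ring
  rw [h4, ← ENNReal.ofReal_mul hH, ENNReal.ofReal_le_ofReal_iff (by positivity)] at h3
  rw [sq]
  exact h3

/-- a good length -/
theorem good_len {μ : ℝ} (hμ : 1 ≤ μ) (hu : ∀ t, uu (ENNReal.ofReal μ)⁻¹ t ≤ 1)
    (hc : ∀ n : ℕ, μ ^ n ≤ (Nat.card (WalkFun n) : ℝ)) {m n D k : ℕ} (hm : 1 ≤ m) (hmn : m ≤ n)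
    (hk : m ≤ 2 ^ k) (hk1 : 1 ≤ k) (hD : 1 ≤ D) (h : HB μ m D k ^ 2 * μ < (2:ℝ) ^ ((n:ℝ) / (m:ℝ))) :
    ∃ l, m ≤ l ∧ l ≤ n ∧ (n:ℝ)⁻¹ ^ 4 * (2:ℝ) ^ (-(2 * (l:ℝ) / (m:ℝ))) ≤ (bn l : ℝ) / μ ^ l := by
  by_contra hcon
  push Not at hcon
  have hμ0 : 0 < μ := by linarith
  have hm0 : (0:ℝ) < m := by exact_mod_cast hm
  have hn1 : 1 ≤ n := hm.trans hmn
  have hn0 : (1:ℝ) ≤ n := by exact_mod_cast hn1
  set θ : ℝ := (2:ℝ) ^ ((1:ℝ) / (m:ℝ)) with hθ
  have hθ0 : 0 < θ := Real.rpow_pos_of_pos (by norm_num) _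
  have hθl : ∀ l : ℕ, θ ^ l = (2:ℝ) ^ ((l:ℝ) / (m:ℝ)) := by
    intro l
    rw [hθ, ← Real.rpow_natCast, ← Real.rpow_mul (by norm_num)]
    congr 1
    ring
  set y : ℝ := μ⁻¹ * θ with hy
  have hy0 : 0 < y := by positivity
  have hx : (ENNReal.ofReal μ)⁻¹ = ENNReal.ofReal μ⁻¹ := FinalHW.inv_eq hμ
  have hhalf := half_bound (μ := μ) hμ hu (m := m) (n := n) (D := D) (k := k) hm hk hk1 hD
    (y := ENNReal.ofReal y) ?_ ?_
  · have hH : mass (ENNReal.ofReal y) (fun l => Half l ∧ l.length ≤ (n - 1) + 1) ≤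
        ENNReal.ofReal (HB μ m D k) := by
      rw [Nat.sub_add_cancel hn1]
      exact hhalf
    have h1 := FinalHW.walk_le hy0.le (FinalHW.HB_pos hμ m D k) hH
    rw [Nat.sub_add_cancel hn1] at h1
    have h2 : μ ^ (n - 1) * y ^ n ≤ HB μ m D k ^ 2 :=
      (mul_le_mul_of_nonneg_right (hc (n - 1)) (by positivity)).trans h1
    have h3 : μ ^ (n - 1) * y ^ n = (2:ℝ) ^ ((n:ℝ) / (m:ℝ)) / μ := by
      rw [hy, mul_pow, hθl]
      have h4 : μ ^ n = μ ^ (n - 1) * μ := by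
        conv_lhs => rw [← Nat.sub_add_cancel hn1, pow_succ]
      rw [inv_pow, h4]
      field_simp
    rw [h3, div_le_iff₀ hμ0] at h2
    linarith
  · intro l hl
    rw [hx, ← ENNReal.ofReal_pow hy0.le, ← ENNReal.ofReal_pow (by positivity)]
    have h1 : y ^ l ≤ 2 * μ⁻¹ ^ l := by
      rw [hy, mul_pow, hθl, mul_comm]
      refine mul_le_mul_of_nonneg_right ?_ (by positivity)
      calc (2:ℝ) ^ ((l:ℝ) / (m:ℝ)) ≤ (2:ℝ) ^ (1:ℝ) := by
            refine Real.rpow_le_rpow_of_exponent_le (by norm_num) ?_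
            rw [div_le_one hm0]
            exact_mod_cast hl.le
        _ = 2 := Real.rpow_one 2
    calc ENNReal.ofReal (y ^ l) ≤ ENNReal.ofReal (2 * μ⁻¹ ^ l) := ENNReal.ofReal_le_ofReal h1
      _ = 2 * ENNReal.ofReal (μ⁻¹ ^ l) := by
          rw [ENNReal.ofReal_mul (by norm_num)]
          norm_num
  · refine (lo_le (ENNReal.ofReal y) hm).trans ?_
    have h1 : ∀ l ∈ Finset.Icc m n, (bn l : ℝ≥0∞) * ENNReal.ofReal y ^ l ≤
        ENNReal.ofReal ((n:ℝ)⁻¹) := by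
      intro l hl
      rw [Finset.mem_Icc] at hl
      rw [← ENNReal.ofReal_pow hy0.le, ← ENNReal.ofReal_natCast,
        ← ENNReal.ofReal_mul (Nat.cast_nonneg _)]
      refine ENNReal.ofReal_le_ofReal ?_
      have h2 := (hcon l hl.1 hl.2).le
      have h3 : (bn l : ℝ) * y ^ l = (bn l : ℝ) / μ ^ l * θ ^ l := by
        rw [hy, mul_pow, inv_pow]
        field_simp
      rw [h3]
      have h4 : (2:ℝ) ^ (-(2 * (l:ℝ) / (m:ℝ))) * θ ^ l ≤ 1 := by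
        rw [hθl, ← Real.rpow_add (by norm_num)]
        refine Real.rpow_le_one_of_one_le_of_nonpos (by norm_num) ?_
        have : 0 ≤ (l:ℝ) / (m:ℝ) := by positivity
        have h5 : 2 * (l:ℝ) / (m:ℝ) = 2 * ((l:ℝ) / (m:ℝ)) := by ring
        rw [h5]
        linarith
      have h5 : (n:ℝ)⁻¹ ^ 4 ≤ (n:ℝ)⁻¹ := by
        have h6 : (n:ℝ)⁻¹ ≤ 1 := inv_le_one_of_one_le₀ hn0
        have h7 : (0:ℝ) ≤ (n:ℝ)⁻¹ := by positivity
        exact pow_le_of_le_one h7 h6 (by norm_num)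
      calc (bn l : ℝ) / μ ^ l * θ ^ l ≤
          ((n:ℝ)⁻¹ ^ 4 * (2:ℝ) ^ (-(2 * (l:ℝ) / (m:ℝ)))) * θ ^ l :=
            mul_le_mul_of_nonneg_right h2 (by positivity)
        _ = (n:ℝ)⁻¹ ^ 4 * ((2:ℝ) ^ (-(2 * (l:ℝ) / (m:ℝ))) * θ ^ l) := by ring
        _ ≤ (n:ℝ)⁻¹ ^ 4 * 1 := mul_le_mul_of_nonneg_left h4 (by positivity)
        _ ≤ (n:ℝ)⁻¹ := by rw [mul_one]; exact h5
    calc ∑ l ∈ Finset.Icc m n, (bn l : ℝ≥0∞) * ENNReal.ofReal y ^ l
        ≤ ∑ l ∈ Finset.Icc m n, ENNReal.ofReal ((n:ℝ)⁻¹) := Finset.sum_le_sum h1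
      _ = ((Finset.Icc m n).card : ℝ≥0∞) * ENNReal.ofReal ((n:ℝ)⁻¹) := by
          rw [Finset.sum_const, nsmul_eq_mul]
      _ ≤ (n : ℝ≥0∞) * ENNReal.ofReal ((n:ℝ)⁻¹) := by
          refine mul_le_mul_left ?_ _
          rw [Nat.card_Icc]
          exact_mod_cast (by omega : n + 1 - m ≤ n)
      _ = 1 := by
          rw [← ENNReal.ofReal_natCast, ← ENNReal.ofReal_mul (Nat.cast_nonneg _),
            mul_inv_cancel₀ (by linarith), ENNReal.ofReal_one]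

theorem upper {μ : ℝ} (hμ : 1 ≤ μ)
    (hT : Tendsto (fun n : ℕ => ((Nat.card (WalkFun n) : ℕ) : ℝ) ^ ((1:ℝ) / (n:ℝ))) atTop (𝓝 μ)) :
    ∃ C : ℝ, 0 < C ∧ ∀ n : ℕ, 2 ≤ n →
      (Nat.card (WalkFun n) : ℝ) ≤ μ ^ n * Real.exp (C * (n:ℝ) ^ (1 / 3 : ℝ) * Real.log n) := by
  have hu := uu_le_one hμ hT
  have hμ0 : 0 < μ := by linarith
  obtain ⟨C, hC, h⟩ := params_b μ hμ
  refine ⟨C, hC, fun n hn => ?_⟩
  obtain ⟨m, D, k, θ, hm, hk, hk1, hD, hθ, hθm, hexp⟩ := h n hn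
  have hθ0 : 0 < θ := by linarith
  set y : ℝ := (μ * θ)⁻¹ with hy
  have hy0 : 0 < y := by positivity
  have hx : (ENNReal.ofReal μ)⁻¹ = ENNReal.ofReal μ⁻¹ := FinalHW.inv_eq hμ
  have hyx : y ≤ μ⁻¹ := by
    rw [hy]
    refine inv_anti₀ hμ0 ?_
    nlinarith
  have hhalf := half_bound (μ := μ) hμ hu (m := m) (n := n + 1) (D := D) (k := k) hm hk hk1 hD
    (y := ENNReal.ofReal y) ?_ ?_
  · have h1 := FinalHW.walk_le hy0.le (FinalHW.HB_pos hμ m D k) hhalf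
    have h2 : (Nat.card (WalkFun n) : ℝ) ≤ HB μ m D k ^ 2 * (μ * θ) ^ (n + 1) := by
      rw [hy, inv_pow, ← div_eq_mul_inv, div_le_iff₀ (by positivity)] at h1
      exact h1
    refine h2.trans ?_
    calc HB μ m D k ^ 2 * (μ * θ) ^ (n + 1) = μ ^ n * (HB μ m D k ^ 2 * μ * θ ^ (n + 1)) := by
          rw [mul_pow, pow_succ μ n]
          ring
      _ ≤ _ := mul_le_mul_of_nonneg_left hexp (by positivity)
  · intro l _
    rw [hx]
    calc ENNReal.ofReal y ^ l ≤ ENNReal.ofReal μ⁻¹ ^ l := by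
          gcongr
      _ ≤ 2 * ENNReal.ofReal μ⁻¹ ^ l := by
          calc ENNReal.ofReal μ⁻¹ ^ l = 1 * ENNReal.ofReal μ⁻¹ ^ l := (one_mul _).symm
            _ ≤ 2 * ENNReal.ofReal μ⁻¹ ^ l := by
                refine mul_le_mul_left ?_ _
                exact one_le_two
  · have h1 := lo_le' (x := (ENNReal.ofReal μ)⁻¹) (y := ENNReal.ofReal y) (θ := ENNReal.ofReal θ) hu
      (by rw [ENNReal.one_le_ofReal]; exact hθ) ENNReal.ofReal_ne_top (by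
        rw [hx, ← ENNReal.ofReal_mul hy0.le]
        refine ENNReal.ofReal_le_ofReal (le_of_eq ?_)
        rw [hy]
        field_simp) (m := m) (n := n + 1)
    have h2 : ((n + 1 : ℕ) : ℝ≥0∞) ≤ ENNReal.ofReal θ ^ m := by
      rw [← ENNReal.ofReal_pow hθ0.le, ← ENNReal.ofReal_natCast]
      refine ENNReal.ofReal_le_ofReal ?_
      push_cast
      exact hθm
    set S1 := ∑ T ∈ Finset.range (n + 1), mass (ENNReal.ofReal y) (LoB m (n + 1) (T + 1)) with hS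
    have h3 : ((n + 1 : ℕ) : ℝ≥0∞) * S1 ≤ ((n + 1 : ℕ) : ℝ≥0∞) * 1 := by
      rw [mul_one]
      exact (mul_le_mul_left h2 _).trans h1
    exact (ENNReal.mul_le_mul_iff_right (by positivity) (ENNReal.natCast_ne_top _)).mp h3

theorem bridges {μ : ℝ} (hμ : 1 ≤ μ)
    (hT : Tendsto (fun n : ℕ => ((Nat.card (WalkFun n) : ℕ) : ℝ) ^ ((1:ℝ) / (n:ℝ))) atTop (𝓝 μ))
    (hc : ∀ n : ℕ, μ ^ n ≤ (Nat.card (WalkFun n) : ℝ)) :
    ∃ C : ℝ, 0 < C ∧ ∀ n : ℕ, 2 ≤ n →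
      μ ^ n * Real.exp (-(C * (n:ℝ) ^ (1 / 3 : ℝ) * Real.log n ^ 2)) ≤ (bn n : ℝ) := by
  have hu := uu_le_one hμ hT
  have hμ0 : 0 < μ := by linarith
  have hb : ∀ n, (0:ℝ) < bn n := fun n => by
    have := bn_pos n
    exact_mod_cast this
  set F : ℕ → ℝ := fun n => n * Real.log μ - Real.log (bn n) with hF
  have h0 : F 0 = 0 := by simp [hF, bn_zero]
  have hsub : ∀ a b, F (a + b) ≤ F a + F b := by
    intro a b
    have h1 : Real.log (bn a) + Real.log (bn b) ≤ Real.log (bn (a + b)) := by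
      rw [← Real.log_mul (hb a).ne' (hb b).ne']
      refine Real.log_le_log (mul_pos (hb a) (hb b)) ?_
      exact_mod_cast bn_mul a b
    simp only [hF]
    push_cast
    linarith
  obtain ⟨N0, hN0⟩ := params_a μ hμ
  obtain ⟨C, hC, h⟩ := F_bound (F := F) h0 hsub (N0 := max N0 1) (by
    intro n hn
    have hn0 : N0 ≤ n := (le_max_left _ _).trans hn
    have hn1 : 1 ≤ n := (le_max_right _ _).trans hn
    obtain ⟨m, D, k, hm, hmn, hk, hk1, hD, hlog, hHB⟩ := hN0 n hn0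
    obtain ⟨l, hl1, hl2, hl3⟩ := good_len hμ hu hc hm hmn hk hk1 hD hHB
    refine ⟨m, l, hm, hl1, hl2, hlog, ?_⟩
    have hnr : (0:ℝ) < n := by exact_mod_cast hn1
    have hmr : (0:ℝ) < m := by exact_mod_cast hm
    have h1 := Real.log_le_log (by positivity) hl3
    rw [Real.log_mul (by positivity) (by positivity), Real.log_pow, Real.log_inv,
      Real.log_rpow (by norm_num), Real.log_div (hb l).ne' (by positivity), Real.log_pow] at h1
    have h2 : 2 * (l:ℝ) / m * Real.log 2 ≤ 2 * (l:ℝ) / m := by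
      have h3 : Real.log 2 ≤ 1 := by
        have := Real.log_two_lt_d9
        linarith
      have h4 : 0 ≤ 2 * (l:ℝ) / m := by positivity
      nlinarith
    simp only [hF]
    push_cast at h1
    linarith)
  refine ⟨C, hC, fun n hn => ?_⟩
  have h1 := h n hn
  simp only [hF] at h1
  have h2 : Real.log (μ ^ n * Real.exp (-(C * (n:ℝ) ^ (1 / 3 : ℝ) * Real.log n ^ 2))) ≤
      Real.log (bn n) := by
    rw [Real.log_mul (by positivity) (by positivity), Real.log_pow, Real.log_exp]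
    linarith
  exact (Real.log_le_log_iff (by positivity) (hb n)).mp h2

theorem lower {μ : ℝ} (hμ : 1 ≤ μ)
    (hT : Tendsto (fun n : ℕ => ((Nat.card (WalkFun n) : ℕ) : ℝ) ^ ((1:ℝ) / (n:ℝ))) atTop (𝓝 μ))
    (hc : ∀ n : ℕ, μ ^ n ≤ (Nat.card (WalkFun n) : ℝ)) :
    ∃ C : ℝ, 0 < C ∧ ∀ n : ℕ, 2 ≤ n →
      μ ^ (2 * n) * Real.exp (-(C * (n:ℝ) ^ (1 / 3 : ℝ) * Real.log n ^ 2)) ≤
        (Nat.card (PolyFun n) : ℝ) / (4 * (n:ℝ)) := by
  have hμ0 : 0 < μ := by linarith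
  have hlμ : 0 ≤ Real.log μ := Real.log_nonneg hμ
  obtain ⟨C, hC, h⟩ := bridges hμ hT hc
  -- all lengths at least one
  have hb : ∀ m : ℕ, 1 ≤ m → μ ^ m * Real.exp (-(C * ((m + 1 : ℕ) : ℝ) ^ (1 / 3 : ℝ) *
      Real.log ((m + 1 : ℕ) : ℝ) ^ 2 + Real.log μ)) ≤ (bn m : ℝ) := by
    intro m hm
    have hm1 : (0:ℝ) ≤ ((m + 1 : ℕ) : ℝ) ^ (1 / 3 : ℝ) * Real.log ((m + 1 : ℕ) : ℝ) ^ 2 := by
      positivity
    rcases Nat.lt_or_ge m 2 with h2 | h2
    · have : m = 1 := by omega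
      subst this
      have h3 : (1:ℝ) ≤ bn 1 := by exact_mod_cast bn_pos 1
      refine le_trans ?_ h3
      calc μ ^ 1 * Real.exp (-(C * ((1 + 1 : ℕ) : ℝ) ^ (1 / 3 : ℝ) *
          Real.log ((1 + 1 : ℕ) : ℝ) ^ 2 + Real.log μ)) ≤ μ ^ 1 * Real.exp (-(Real.log μ)) := by
            refine mul_le_mul_of_nonneg_left (Real.exp_le_exp.mpr ?_) (by positivity)
            have := mul_nonneg hC.le hm1
            linarith
        _ = 1 := by
            rw [pow_one, Real.exp_neg, Real.exp_log hμ0, mul_inv_cancel₀ hμ0.ne']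
    · refine le_trans ?_ (h m h2)
      refine mul_le_mul_of_nonneg_left (Real.exp_le_exp.mpr ?_) (by positivity)
      have hmr : (1:ℝ) ≤ m := by exact_mod_cast hm
      have h3 : (m:ℝ) ^ (1 / 3 : ℝ) ≤ ((m + 1 : ℕ) : ℝ) ^ (1 / 3 : ℝ) :=
        Real.rpow_le_rpow (by positivity) (by push_cast; linarith) (by norm_num)
      have h4 : Real.log m ≤ Real.log ((m + 1 : ℕ) : ℝ) :=
        Real.log_le_log (by positivity) (by push_cast; linarith)
      have h5 : 0 ≤ Real.log m := Real.log_nonneg hmr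
      have h6 : C * (m:ℝ) ^ (1 / 3 : ℝ) * Real.log m ^ 2 ≤ C * ((m + 1 : ℕ) : ℝ) ^ (1 / 3 : ℝ) *
          Real.log ((m + 1 : ℕ) : ℝ) ^ 2 := by
        gcongr
      linarith
  refine ⟨2 * C + 100 * (1 + Real.log μ), by positivity, fun n hn => ?_⟩
  obtain ⟨m, rfl⟩ : ∃ m, n = m + 1 := ⟨n - 1, by omega⟩
  have hm : 1 ≤ m := by omega
  have hmr : (1:ℝ) ≤ m := by exact_mod_cast hm
  have h1 := hb m hm
  have h2 := poly_ge hm
  set P : ℝ := (Nat.card (PolyFun (m + 1)) : ℝ) / (4 * ((m + 1 : ℕ) : ℝ)) with hP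
  set N : ℝ := ((m + 1 : ℕ) : ℝ) with hN
  have hNm : N = m + 1 := by rw [hN]; push_cast; ring
  have hN2 : 2 ≤ N := by rw [hNm]; linarith
  have hlogN : Real.log 2 ≤ Real.log N := Real.log_le_log (by norm_num) hN2
  have hl2 : (0.69:ℝ) < Real.log 2 := by
    have := Real.log_two_gt_d9
    linarith
  have hA1 : 1 ≤ N ^ (1 / 3 : ℝ) := Real.one_le_rpow (by linarith) (by norm_num)
  set A : ℝ := N ^ (1 / 3 : ℝ) with hA
  set Lg : ℝ := Real.log N with hLg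
  -- the polynomial factor
  have hpoly : (m:ℝ) ^ 2 * (2 * m + 1) ^ 4 ≤ Real.exp (10 * Lg) := by
    have h3 : Real.exp (10 * Lg) = N ^ 10 := by
      rw [hLg, mul_comm, Real.exp_mul, Real.exp_log (by linarith)]
      exact_mod_cast Real.rpow_natCast N 10
    rw [h3]
    have h4 : (m:ℝ) ≤ N := by rw [hNm]; linarith
    have h5 : 2 * (m:ℝ) + 1 ≤ N ^ 2 := by rw [hNm]; nlinarith
    calc (m:ℝ) ^ 2 * (2 * m + 1) ^ 4 ≤ N ^ 2 * (N ^ 2) ^ 4 := by
          gcongr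
      _ = N ^ 10 := by ring
  have hb0 : 0 ≤ (bn m : ℝ) := Nat.cast_nonneg _
  have h3 : (μ ^ m * Real.exp (-(C * A * Lg ^ 2 + Real.log μ))) ^ 2 ≤ (bn m : ℝ) ^ 2 :=
    pow_le_pow_left₀ (by positivity) h1 2
  have hP0 : 0 ≤ P := by positivity
  have h4 : (μ ^ m * Real.exp (-(C * A * Lg ^ 2 + Real.log μ))) ^ 2 ≤ Real.exp (10 * Lg) * P :=
    h3.trans (h2.trans (mul_le_mul_of_nonneg_right hpoly hP0))
  have h5 : μ ^ (2 * (m + 1)) * Real.exp (-((2 * C + 100 * (1 + Real.log μ)) * A * Lg ^ 2)) ≤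
      Real.exp (-(10 * Lg)) * (μ ^ m * Real.exp (-(C * A * Lg ^ 2 + Real.log μ))) ^ 2 := by
    have e1 : (μ ^ m * Real.exp (-(C * A * Lg ^ 2 + Real.log μ))) ^ 2 =
        μ ^ (2 * m) * Real.exp (-(2 * (C * A * Lg ^ 2 + Real.log μ))) := by
      rw [mul_pow, ← pow_mul, ← Real.exp_nat_mul]
      congr 1
      · congr 1; ring
      · congr 1; push_cast; ring
    have e2 : μ ^ (2 * (m + 1)) = μ ^ (2 * m) * Real.exp (2 * Real.log μ) := by
      rw [mul_comm 2 (Real.log μ), Real.exp_mul, Real.exp_log hμ0]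
      have : μ ^ (2:ℝ) = μ ^ 2 := by exact_mod_cast Real.rpow_natCast μ 2
      rw [this]
      ring
    rw [e1, e2]
    have e3 : Real.exp (-(10 * Lg)) * (μ ^ (2 * m) *
        Real.exp (-(2 * (C * A * Lg ^ 2 + Real.log μ)))) =
        μ ^ (2 * m) * (Real.exp (-(10 * Lg)) * Real.exp (-(2 * (C * A * Lg ^ 2 + Real.log μ)))) := by
      ring
    rw [e3, mul_assoc, ← Real.exp_add, ← Real.exp_add]
    refine mul_le_mul_of_nonneg_left (Real.exp_le_exp.mpr ?_) (by positivity)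
    have hLg0 : 0.69 < Lg := lt_of_lt_of_le hl2 hlogN
    have f1 : Lg ≤ 2 * (A * Lg ^ 2) := by
      have : Lg ≤ 2 * Lg ^ 2 := by nlinarith
      have h6 : Lg ^ 2 ≤ A * Lg ^ 2 := by nlinarith [sq_nonneg Lg]
      linarith
    have f2 : (1:ℝ) ≤ 4 * (A * Lg ^ 2) := by
      have : (1:ℝ) ≤ 4 * Lg ^ 2 := by nlinarith
      have h6 : Lg ^ 2 ≤ A * Lg ^ 2 := by nlinarith [sq_nonneg Lg]
      linarith
    have f3 : Real.log μ ≤ 4 * (A * Lg ^ 2 * Real.log μ) := by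
      have f4 := mul_le_mul_of_nonneg_right f2 hlμ
      rw [one_mul] at f4
      linarith
    have f5 : 0 ≤ A * Lg ^ 2 := by positivity
    have f6 : 0 ≤ A * Lg ^ 2 * Real.log μ := mul_nonneg f5 hlμ
    have f7 : (2 * C + 100 * (1 + Real.log μ)) * A * Lg ^ 2 =
        2 * (C * A * Lg ^ 2) + 100 * (A * Lg ^ 2) + 100 * (A * Lg ^ 2 * Real.log μ) := by ring
    rw [f7]
    linarith
  have h6 : Real.exp (-(10 * Lg)) * (μ ^ m * Real.exp (-(C * A * Lg ^ 2 + Real.log μ))) ^ 2 ≤ P := by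
    calc Real.exp (-(10 * Lg)) * (μ ^ m * Real.exp (-(C * A * Lg ^ 2 + Real.log μ))) ^ 2
        ≤ Real.exp (-(10 * Lg)) * (Real.exp (10 * Lg) * P) :=
          mul_le_mul_of_nonneg_left h4 (Real.exp_pos _).le
      _ = P := by
          rw [← mul_assoc, ← Real.exp_add, neg_add_cancel, Real.exp_zero, one_mul]
  exact h5.trans h6

end Pool.Agent.Work.MP_376faf_co_hw
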