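import Mathlib

set_option autoImplicit false

/-!
Planar separation for lattice paths by parity (no Jordan curve theorem needed).
-/

namespace Pool.Agent.Work.MP_376faf_co_hw.HP

open Finset

/-- Two lattice points are neighbours. -/
def Nb (a b : ℤ × ℤ) : Prop := |b.1 - a.1| + |b.2 - a.2| = 1

lemma Nb.cases {a b : ℤ × ℤ} (h : Nb a b) :
    (b.1 = a.1 + 1 ∧ b.2 = a.2) ∨ (b.1 = a.1 - 1 ∧ b.2 = a.2) ∨
      (b.1 = a.1 ∧ b.2 = a.2 + 1) ∨ (b.1 = a.1 ∧ b.2 = a.2 - 1) := by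
  unfold Nb at h
  rcases abs_cases (b.1 - a.1) with ⟨h1, h2⟩ | ⟨h1, h2⟩ <;>
    rcases abs_cases (b.2 - a.2) with ⟨h3, h4⟩ | ⟨h3, h4⟩ <;> omega

/-- The edge from `p` to `q` joins the columns `a` and `a + 1`. -/
def Cross (a : ℤ) (p q : ℤ × ℤ) : Prop := (p.1 = a ∧ q.1 = a + 1) ∨ (p.1 = a + 1 ∧ q.1 = a)

instance (a : ℤ) (p q : ℤ × ℤ) : Decidable (Cross a p q) := by
  unfold Cross; infer_instance

/-- The number modulo 2 of the edges of `w` between the columns `a` and `a + 1` below the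
height `b`. -/
def nc (w : ℕ → ℤ × ℤ) (m : ℕ) (a b : ℤ) : ZMod 2 :=
  ∑ i ∈ range m, if Cross a (w i) (w (i + 1)) ∧ (w i).2 < b then 1 else 0

lemma nc_vert {w : ℕ → ℤ × ℤ} {m : ℕ} (hw : ∀ i < m, Nb (w i) (w (i + 1))) {a b : ℤ}
    (h : ∀ i ≤ m, w i ≠ (a, b)) : nc w m a (b + 1) = nc w m a b := by
  unfold nc
  refine sum_congr rfl fun i hi => ?_
  rw [mem_range] at hi
  have h1 := h i hi.le
  have h2 := h (i + 1) hi
  have h3 := (hw i hi).cases
  have h1' : ¬ ((w i).1 = a ∧ (w i).2 = b) := fun hh => h1 (Prod.ext hh.1 hh.2)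
  have h2' : ¬ ((w (i + 1)).1 = a ∧ (w (i + 1)).2 = b) := fun hh => h2 (Prod.ext hh.1 hh.2)
  unfold Cross
  split_ifs with h4 h5 h5
  · rfl
  · exfalso
    omega
  · exfalso
    omega
  · rfl

lemma nc_hor {w : ℕ → ℤ × ℤ} {m : ℕ} (hw : ∀ i < m, Nb (w i) (w (i + 1))) {a b : ℤ}
    (h : ∀ i ≤ m, w i ≠ (a, b)) (h0 : (w 0).1 ≠ a) (hm : (w m).1 ≠ a) :
    nc w m (a - 1) b = nc w m a b := by
  have key : nc w m (a - 1) b + nc w m a b = 0 := by
    unfold nc
    rw [← sum_add_distrib]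
    have htel : ∑ i ∈ range m, ((if (w (i + 1)).1 = a ∧ (w (i + 1)).2 < b then (1 : ZMod 2) else 0) -
        (if (w i).1 = a ∧ (w i).2 < b then (1 : ZMod 2) else 0)) = 0 := by
      rw [sum_range_sub (fun i => if (w i).1 = a ∧ (w i).2 < b then (1 : ZMod 2) else 0),
        if_neg (fun hh => hm hh.1), if_neg (fun hh => h0 hh.1), sub_zero]
    refine Eq.trans ?_ htel
    refine sum_congr rfl fun i hi => ?_
    rw [mem_range] at hi
    have h1 := h i hi.le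
    have h2 := h (i + 1) hi
    have h3 := (hw i hi).cases
    have h1' : ¬ ((w i).1 = a ∧ (w i).2 = b) := fun hh => h1 (Prod.ext hh.1 hh.2)
    have h2' : ¬ ((w (i + 1)).1 = a ∧ (w (i + 1)).2 = b) := fun hh => h2 (Prod.ext hh.1 hh.2)
    unfold Cross
    split_ifs <;> first | (exfalso; omega) | decide
  have h5 : nc w m a b + nc w m a b = 0 := CharTwo.add_self_eq_zero _
  exact add_right_cancel (key.trans h5.symm)

/-- **Separation.** A path `u` in the columns `A, …, B`, disjoint from the path `w` whose ends are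
not in these columns, starts in the column `A` and ends in the column `B` with the same parity of
the number of edges of `w` below it. -/
theorem sep {w : ℕ → ℤ × ℤ} {m : ℕ} (hw : ∀ i < m, Nb (w i) (w (i + 1))) {u : ℕ → ℤ × ℤ} {n : ℕ}
    (hu : ∀ j < n, Nb (u j) (u (j + 1))) (hdis : ∀ j ≤ n, ∀ i ≤ m, w i ≠ u j) {A B : ℤ}
    (hcol : ∀ j ≤ n, A ≤ (u j).1 ∧ (u j).1 ≤ B) (h0 : (w 0).1 < A ∨ B < (w 0).1)
    (hm : (w m).1 < A ∨ B < (w m).1) (hu0 : (u 0).1 = A) (hun : (u n).1 = B) :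
    nc w m (A - 1) (u 0).2 = nc w m B (u n).2 := by
  have hinv : ∀ j ≤ n, nc w m (u j).1 (u j).2 = nc w m (u 0).1 (u 0).2 := by
    intro j
    induction j with
    | zero => intro _; rfl
    | succ j ih =>
      intro hj
      rw [← ih (by omega)]
      have hc := hcol j (by omega)
      have hc' := hcol (j + 1) hj
      rcases (hu j (by omega)).cases with ⟨h1, h2⟩ | ⟨h1, h2⟩ | ⟨h1, h2⟩ | ⟨h1, h2⟩
      · rw [h1, h2]
        have h3 := nc_hor hw (a := (u j).1 + 1) (b := (u j).2) (fun i hi hh => hdis (j + 1) hj i hi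
          (by rw [hh]; exact Prod.ext h1.symm h2.symm)) (by omega) (by omega)
        rw [add_sub_cancel_right] at h3
        exact h3.symm
      · rw [h1, h2]
        exact nc_hor hw (a := (u j).1) (b := (u j).2) (fun i hi hh => hdis j (by omega) i hi
          (by rw [hh])) (by omega) (by omega)
      · rw [h1, h2]
        exact nc_vert hw (fun i hi hh => hdis j (by omega) i hi (by rw [hh]))
      · rw [h1, h2]
        have h3 := nc_vert hw (a := (u j).1) (b := (u j).2 - 1) (fun i hi hh =>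
          hdis (j + 1) hj i hi (by rw [hh]; exact Prod.ext h1.symm h2.symm))
        rw [sub_add_cancel] at h3
        exact h3.symm
  have h1 := hinv n le_rfl
  rw [hun, hu0] at h1
  rw [h1]
  have hAB := hcol 0 (by omega)
  rw [hu0] at hAB
  exact nc_hor hw (a := A) (b := (u 0).2) (fun i hi hh => hdis 0 (by omega) i hi
    (by rw [hh]; exact Prod.ext hu0.symm rfl)) (by omega) (by omega)

/-- If exactly one edge of `w` joins the columns `a` and `a + 1`. -/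
lemma nc_single {w : ℕ → ℤ × ℤ} {m : ℕ} {a : ℤ} {i₀ : ℕ} (hi₀ : i₀ < m)
    (hc : Cross a (w i₀) (w (i₀ + 1)))
    (huniq : ∀ i < m, Cross a (w i) (w (i + 1)) → i = i₀) (b : ℤ) :
    nc w m a b = if (w i₀).2 < b then 1 else 0 := by
  unfold nc
  rw [sum_eq_single i₀]
  · by_cases h : (w i₀).2 < b
    · rw [if_pos ⟨hc, h⟩, if_pos h]
    · rw [if_neg (fun hh => h hh.2), if_neg h]
  · intro i hi hne
    rw [mem_range] at hi
    exact if_neg fun hh => hne (huniq i hi hh.1)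
  · intro h
    exact absurd (mem_range.2 hi₀) h

/-- Separation, when both lines are crossed exactly once by `w`: the order of the two crossings is
preserved. -/
theorem sep_iff {w : ℕ → ℤ × ℤ} {m : ℕ} (hw : ∀ i < m, Nb (w i) (w (i + 1))) {u : ℕ → ℤ × ℤ}
    {n : ℕ} (hu : ∀ j < n, Nb (u j) (u (j + 1))) (hdis : ∀ j ≤ n, ∀ i ≤ m, w i ≠ u j) {A B : ℤ}
    (hcol : ∀ j ≤ n, A ≤ (u j).1 ∧ (u j).1 ≤ B) (h0 : (w 0).1 < A ∨ B < (w 0).1)
    (hm : (w m).1 < A ∨ B < (w m).1) (hu0 : (u 0).1 = A) (hun : (u n).1 = B)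
    {i₀ i₁ : ℕ} (hi₀ : i₀ < m) (hi₁ : i₁ < m) (hc₀ : Cross (A - 1) (w i₀) (w (i₀ + 1)))
    (huniq₀ : ∀ i < m, Cross (A - 1) (w i) (w (i + 1)) → i = i₀)
    (hc₁ : Cross B (w i₁) (w (i₁ + 1)))
    (huniq₁ : ∀ i < m, Cross B (w i) (w (i + 1)) → i = i₁) :
    (w i₀).2 < (u 0).2 ↔ (w i₁).2 < (u n).2 := by
  have h := sep hw hu hdis hcol h0 hm hu0 hun
  rw [nc_single hi₀ hc₀ huniq₀, nc_single hi₁ hc₁ huniq₁] at h
  by_cases h1 : (w i₀).2 < (u 0).2 <;> by_cases h2 : (w i₁).2 < (u n).2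
  · exact ⟨fun _ => h2, fun _ => h1⟩
  · rw [if_pos h1, if_neg h2] at h
    exact absurd h one_ne_zero
  · rw [if_neg h1, if_pos h2] at h
    exact absurd h zero_ne_one
  · exact ⟨fun hh => absurd hh h1, fun hh => absurd hh h2⟩

/-- The path `P 0, …, P n` passes from the columns `< t` to the columns `≥ t` only once, with the
step from `P i₀` to `P (i₀ + 1)`. -/
def CutAt (P : ℕ → ℤ × ℤ) (n : ℕ) (t : ℤ) (i₀ : ℕ) : Prop :=
  i₀ < n ∧ (P i₀).1 = t - 1 ∧ (P (i₀ + 1)).1 = t ∧ (∀ i ≤ i₀, (P i).1 ≤ t - 1) ∧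
    ∀ i, i₀ < i → i ≤ n → t ≤ (P i).1

lemma CutAt.cross {P : ℕ → ℤ × ℤ} {n : ℕ} {t : ℤ} {i₀ : ℕ} (h : CutAt P n t i₀) :
    Cross (t - 1) (P i₀) (P (i₀ + 1)) := by
  obtain ⟨-, h1, h2, -, -⟩ := h
  exact Or.inl ⟨h1, by rw [h2]; ring⟩

lemma CutAt.uniq {P : ℕ → ℤ × ℤ} {n : ℕ} {t : ℤ} {i₀ : ℕ} (h : CutAt P n t i₀) :
    ∀ i < n, Cross (t - 1) (P i) (P (i + 1)) → i = i₀ := by
  obtain ⟨-, -, -, h3, h4⟩ := h
  intro i hi hc
  by_contra hne
  rcases lt_or_gt_of_ne hne with h | h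
  · have h5 := h3 i h.le
    have h6 := h3 (i + 1) h
    rcases hc with ⟨h7, h8⟩ | ⟨h7, h8⟩ <;> omega
  · have h5 := h4 i h hi.le
    have h6 := h4 (i + 1) (by omega) hi
    rcases hc with ⟨h7, h8⟩ | ⟨h7, h8⟩ <;> omega

lemma CutAt.height {P : ℕ → ℤ × ℤ} {n : ℕ} {t : ℤ} {i₀ : ℕ} (h : CutAt P n t i₀)
    (hP : ∀ i < n, Nb (P i) (P (i + 1))) : (P (i₀ + 1)).2 = (P i₀).2 := by
  obtain ⟨h0, h1, h2, -, -⟩ := h
  have := (hP i₀ h0).cases
  omega

/-- **Hairpin lemma**, abstract form. Two paths from the origin, disjoint otherwise: at a line which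
both cross exactly once they have different heights, and the order of the heights is the same at
all these lines. -/
theorem hairpin_abs {P Q : ℕ → ℤ × ℤ} {n m : ℕ} (hP : ∀ i < n, Nb (P i) (P (i + 1)))
    (hQ : ∀ i < m, Nb (Q i) (Q (i + 1))) (hQ0 : (Q 0).1 = 0)
    (hdis : ∀ i ≤ n, ∀ j ≤ m, P i = Q j → i = 0 ∧ j = 0)
    {t : ℤ} (ht : 1 ≤ t) {i₀ j₀ : ℕ} (hPt : CutAt P n t i₀) (hQt : CutAt Q m t j₀) :
    (P i₀).2 ≠ (Q j₀).2 ∧
    ∀ (t' : ℤ), t < t' → ∀ i₁ j₁ : ℕ, CutAt P n t' i₁ → CutAt Q m t' j₁ →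
      ((Q j₀).2 < (P i₀).2 ↔ (Q j₁).2 < (P i₁).2) := by
  refine ⟨?_, ?_⟩
  · intro h
    have h1 : P (i₀ + 1) = Q (j₀ + 1) := by
      apply Prod.ext
      · rw [hPt.2.2.1, hQt.2.2.1]
      · rw [hPt.height hP, hQt.height hQ, h]
    have := (hdis (i₀ + 1) hPt.1 (j₀ + 1) hQt.1 h1).1
    omega
  · intro t' htt i₁ j₁ hPt' hQt'
    have hi : i₀ + 1 ≤ i₁ := by
      by_contra hcon
      push Not at hcon
      have h1 := hPt.2.2.2.1 i₁ (by omega)
      have h2 := hPt'.2.1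
      omega
    have h := sep_iff (w := Q) (m := m) hQ (u := fun j => P (i₀ + 1 + j)) (n := i₁ - (i₀ + 1))
      (fun j hj => by
        have := hP (i₀ + 1 + j) (by have := hPt'.1; omega)
        exact this)
      (fun j hj i hi' hh => by
        have := (hdis (i₀ + 1 + j) (by have := hPt'.1; omega) i hi' hh.symm).1
        omega)
      (A := t) (B := t' - 1)
      (fun j hj => ⟨hPt.2.2.2.2 _ (by omega) (by have := hPt'.1; omega),
        hPt'.2.2.2.1 _ (by omega)⟩)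
      (Or.inl (by rw [hQ0]; omega))
      (Or.inr (by
        have h1 := hQt'.2.2.2.2 m hQt'.1 le_rfl
        omega))
      hPt.2.2.1
      (by
        show (P (i₀ + 1 + (i₁ - (i₀ + 1)))).1 = t' - 1
        rw [show i₀ + 1 + (i₁ - (i₀ + 1)) = i₁ by omega]
        exact hPt'.2.1)
      hQt.1 hQt'.1 hQt.cross hQt.uniq hQt'.cross hQt'.uniq
    simp only [add_zero] at h
    rw [show i₀ + 1 + (i₁ - (i₀ + 1)) = i₁ by omega, hPt.height hP] at h
    exact h

end Pool.Agent.Work.MP_376faf_co_hw.HP
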