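import Pool.Agent.Work.MP_376faf_co_hw.Defs
import Pool.Agent.Work.MP_376faf_co_hw.Sep

/-! Module B: the hairpin lemma (planarity). -/

set_option autoImplicit false

namespace Pool.Agent.Work.MP_376faf_co_hw

open Pool.Agent.Work.MP_376faf_co_lower
open scoped ENNReal

/-- the walk c crosses the line between the columns t-1 and t exactly once, at height h -/
def Crs (c : List Pt) (t : ℕ) (h : ℤ) : Prop := ∃ i < c.length, pos c i = ((t : ℤ) - 1, h) ∧
  pos c (i + 1) = ((t : ℤ), h) ∧ (∀ j ≤ i, (pos c j).1 ≤ (t : ℤ) - 1) ∧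
  ∀ j, i < j → j ≤ c.length → (t : ℤ) ≤ (pos c j).1

namespace HP

theorem nb_pos {A : List Pt} (uA : ∀ s ∈ A, Un s) : ∀ i < A.length, Nb (pos A i) (pos A (i + 1)) := by
  intro i hi
  have h1 := uA A[i] (List.getElem_mem hi)
  unfold Nb
  rw [pos_succ A hi]
  unfold Un at h1
  simp only [Prod.fst_add, Prod.snd_add, add_sub_cancel_left]
  exact h1

theorem cutAt_of_crs {c : List Pt} {t : ℕ} {h : ℤ} (hc : Crs c t h) :
    ∃ i, CutAt (pos c) c.length t i ∧ (pos c i).2 = h := by
  obtain ⟨i, hi, h1, h2, h3, h4⟩ := hc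
  exact ⟨i, ⟨hi, by rw [h1], by rw [h2], h3, h4⟩, by rw [h1]⟩

theorem crs_unique {c : List Pt} (_uc : ∀ s ∈ c, Un s) {t : ℕ} {h h' : ℤ} (h1 : Crs c t h)
    (h2 : Crs c t h') : h = h' := by
  obtain ⟨i, hi, hh⟩ := cutAt_of_crs h1
  obtain ⟨j, hj, hh'⟩ := cutAt_of_crs h2
  have : j = i := hi.uniq j hj.1 hj.cross
  rw [← hh, ← hh', this]

end HP

open HP in
/-- two disjoint walks which both cross two lines exactly once do this in the same order -/
theorem sep {A B : List Pt} (uA : ∀ s ∈ A, Un s) (uB : ∀ s ∈ B, Un s)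
    (hAB : ∀ i ≤ A.length, ∀ j ≤ B.length, pos A i = pos B j → i = 0 ∧ j = 0)
    {t t' : ℕ} (ht : 1 ≤ t) (htt : t < t') {a b a' b' : ℤ} (h1 : Crs A t a) (h2 : Crs B t b)
    (h3 : Crs A t' a') (h4 : Crs B t' b') : a ≠ b ∧ a' ≠ b' ∧ (b < a ↔ b' < a') := by
  obtain ⟨i, hi, rfl⟩ := cutAt_of_crs h1
  obtain ⟨j, hj, rfl⟩ := cutAt_of_crs h2
  obtain ⟨i', hi', rfl⟩ := cutAt_of_crs h3
  obtain ⟨j', hj', rfl⟩ := cutAt_of_crs h4
  have h0 : (pos B 0).1 = 0 := by simp
  obtain ⟨e1, e2⟩ := hairpin_abs (nb_pos uA) (nb_pos uB) h0 hAB (by exact_mod_cast ht) hi hj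
  obtain ⟨e3, -⟩ := hairpin_abs (nb_pos uA) (nb_pos uB) h0 hAB (t := (t' : ℤ))
    (by exact_mod_cast (ht.trans htt.le)) hi' hj'
  exact ⟨e1, e3, e2 t' (by exact_mod_cast htt) i' j' hi' hj'⟩

open HP in
theorem crs_ne {A B : List Pt} (uA : ∀ s ∈ A, Un s) (uB : ∀ s ∈ B, Un s)
    (hAB : ∀ i ≤ A.length, ∀ j ≤ B.length, pos A i = pos B j → i = 0 ∧ j = 0)
    {t : ℕ} (ht : 1 ≤ t) {a b : ℤ} (h1 : Crs A t a) (h2 : Crs B t b) : a ≠ b := by
  obtain ⟨i, hi, rfl⟩ := cutAt_of_crs h1
  obtain ⟨j, hj, rfl⟩ := cutAt_of_crs h2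
  exact (hairpin_abs (nb_pos uA) (nb_pos uB) (by simp) hAB (by exact_mod_cast ht) hi hj).1

namespace HP

theorem bridge_head {s : Pt} {l : List Pt} (h : Bridge (s :: l)) : s = eE := by
  have h1 := h.1.1 s (List.mem_cons_self)
  have h2 := (h.2 1 one_pos (by simp)).1
  have h3 : pos (s :: l) 1 = s := by simp [pos]
  rw [h3] at h2
  unfold Un at h1
  unfold eE
  apply Prod.ext
  · rcases abs_cases s.1 with ⟨h4, h5⟩ | ⟨h4, h5⟩ <;>
      rcases abs_cases s.2 with ⟨h6, h7⟩ | ⟨h6, h7⟩ <;> simp only <;> omega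
  · rcases abs_cases s.1 with ⟨h4, h5⟩ | ⟨h4, h5⟩ <;>
      rcases abs_cases s.2 with ⟨h6, h7⟩ | ⟨h6, h7⟩ <;> simp only <;> omega

theorem bridge_sum_nonneg {l : List Pt} (h : Bridge l) : 0 ≤ l.sum.1 := by
  rcases Nat.eq_zero_or_pos l.length with h0 | h0
  · rw [List.eq_nil_of_length_eq_zero h0]
    simp
  · have := (h.2 l.length h0 le_rfl).1
    rw [pos_len] at this
    exact this.le

/-- A common form of the two uses: `c = p0 ++ r`, `eE :: p0` is a bridge of span `t`, the first step
of `r` is `eE` and the positions of `r` have positive first coordinates. -/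
theorem crs_of_split {c p0 r : List Pt} {t : ℕ} {h : ℤ} (hc : c = p0 ++ eE :: r)
    (hp : Bridge (eE :: p0)) (hsum : (eE :: p0).sum = ((t : ℤ), h))
    (hr : ∀ j, 0 < j → j ≤ (eE :: r).length → 1 ≤ (pos (eE :: r) j).1) : Crs c t h := by
  have hp0 : p0.sum = ((t : ℤ) - 1, h) := by
    rw [List.sum_cons] at hsum
    have h1 : (eE + p0.sum).1 = (t : ℤ) := by rw [hsum]
    have h2 : (eE + p0.sum).2 = h := by rw [hsum]
    simp only [eE, Prod.fst_add, Prod.snd_add] at h1 h2
    apply Prod.ext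
    · simp only; omega
    · simp only; omega
  subst hc
  refine ⟨p0.length, by simp, ?_, ?_, ?_, ?_⟩
  · rw [pos_append_left _ _ le_rfl, pos_len, hp0]
  · rw [pos_append_right, hp0]
    have : pos (eE :: r) 1 = eE := by simp [pos]
    rw [this]
    simp [eE]
  · intro j hj
    rw [pos_append_left _ _ hj]
    have h1 := (hp.2 (j + 1) (by omega) (by simp; omega)).2
    rw [pos_len, hsum] at h1
    have h2 : pos (eE :: p0) (j + 1) = eE + pos p0 j := by simp [pos]
    rw [h2] at h1
    simp only [eE, Prod.fst_add] at h1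
    omega
  · intro j hj hj'
    obtain ⟨k, rfl⟩ := Nat.exists_eq_add_of_lt hj
    rw [List.length_append] at hj'
    rw [show p0.length + k + 1 = p0.length + (k + 1) by ring, pos_append_right, hp0]
    have h1 := hr (k + 1) (by omega) (by omega)
    simp only [Prod.fst_add]
    omega

theorem crs_of_pre_rb {b : List Pt} (hb : Bridge b) {t : ℕ} {h : ℤ} (ht : 1 ≤ t)
    (hp : Pre (rb b) t h) : Crs b.reverse t h := by
  obtain ⟨p, q, hpq, hp, hq, hsum⟩ := hp
  cases p with
  | nil =>
    exfalso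
    have h1 : (([] : List Pt).sum).1 = ((t : ℤ), h).1 := by rw [hsum]
    simp at h1
    omega
  | cons s p0 =>
    have hs := bridge_head hp
    subst hs
    cases b with
    | nil =>
      exfalso
      simp [rb] at hpq
    | cons s' η =>
      have hs' := bridge_head hb
      subst hs'
      have hη : η.reverse = p0 ++ q := by
        simp only [rb, List.cons_append, List.cons.injEq, true_and] at hpq
        exact hpq
      have hrev : (eE :: η).reverse = p0 ++ (q ++ [eE]) := by
        rw [List.reverse_cons, hη, List.append_assoc]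
      cases q with
      | nil =>
        refine crs_of_split (r := []) (by rw [hrev]; rfl) hp hsum ?_
        intro j hj hj'
        simp only [List.length_cons, List.length_nil] at hj'
        have : j = 1 := by omega
        subst this
        simp [pos, eE]
      | cons s'' q0 =>
        have hs'' := bridge_head hq
        subst hs''
        refine crs_of_split (r := q0 ++ [eE]) (by rw [hrev]; rfl) hp hsum ?_
        intro j hj hj'
        have h1 : eE :: (q0 ++ [eE]) = (eE :: q0) ++ [eE] := rfl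
        rw [h1] at hj' ⊢
        by_cases hjl : j ≤ (eE :: q0).length
        · rw [pos_append_left _ _ hjl]
          exact (hq.2 j hj hjl).1
        · rw [pos_ge _ (by rw [List.length_append] at hj' ⊢; simp at hj' ⊢; simp at hjl; omega)]
          have h2 := bridge_sum_nonneg hq
          rw [List.sum_append]
          simp only [Prod.fst_add, List.sum_singleton, eE] at h2 ⊢
          omega

theorem crs_of_pre_E {b : List Pt} {t : ℕ} {h : ℤ} (ht : 1 ≤ t)
    (htb : (t : ℤ) ≤ b.sum.1) (hp : Pre (eE :: b) t h) : Crs b t h := by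
  obtain ⟨p, q, hpq, hp, hq, hsum⟩ := hp
  cases p with
  | nil =>
    exfalso
    have h1 : (([] : List Pt).sum).1 = ((t : ℤ), h).1 := by rw [hsum]
    simp at h1
    omega
  | cons s p0 =>
    have hs := bridge_head hp
    subst hs
    have hb' : b = p0 ++ q := by
      simp only [List.cons_append, List.cons.injEq, true_and] at hpq
      exact hpq
    cases q with
    | nil =>
      exfalso
      rw [List.append_nil] at hb'
      subst hb'
      rw [List.sum_cons] at hsum
      have h1 : (eE + b.sum).1 = (t : ℤ) := by rw [hsum]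
      simp only [eE, Prod.fst_add] at h1
      omega
    | cons s'' q0 =>
      have hs'' := bridge_head hq
      subst hs''
      refine crs_of_split hb' hp hsum ?_
      intro j hj hj'
      exact (hq.2 j hj hj').1

theorem pos_ng' (l : List Pt) (i : ℕ) : pos (ng l) i = - pos l i := by
  unfold pos ng
  rw [← List.map_take, sum_map_neg]

theorem pos_reverse (l : List Pt) {i : ℕ} (_hi : i ≤ l.length) :
    pos l.reverse i = l.sum - pos l (l.length - i) := by
  unfold pos
  rw [List.take_reverse, List.sum_reverse]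
  have : l.sum = (l.take (l.length - i)).sum + (l.drop (l.length - i)).sum := by
    rw [← List.sum_append, List.take_append_drop]
  rw [this]
  abel

end HP

open HP in
/-- b1 followed by -b2 self-avoiding: at common renewal lines b1 and b2 keep their order -/
theorem hairpin {b1 b2 : List Pt} (h1 : Bridge b1) (h2 : Bridge b2) (hw : Walk (b1 ++ ng b2)) :
    ∃ σ : ℤ, (σ = 1 ∨ σ = -1) ∧ ∀ t : ℕ, 1 ≤ t → (t : ℤ) ≤ b2.sum.1 → ∀ h h' : ℤ,
      Pre (rb b1) t h → Pre (eE :: b2) t h' → 0 < σ * (h - h') := by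
  have uA : ∀ s ∈ b1.reverse, Un s := fun s hs => h1.1.1 s (List.mem_reverse.1 hs)
  have uB : ∀ s ∈ b2, Un s := h2.1.1
  have hAB : ∀ i ≤ b1.reverse.length, ∀ j ≤ b2.length, pos b1.reverse i = pos b2 j →
      i = 0 ∧ j = 0 := by
    intro i hi j hj hij
    rw [List.length_reverse] at hi
    rw [pos_reverse b1 hi] at hij
    have e1 : pos (b1 ++ ng b2) (b1.length - i) = pos b1 (b1.length - i) :=
      pos_append_left _ _ (by omega)
    have e2 : pos (b1 ++ ng b2) (b1.length + j) = b1.sum - pos b2 j := by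
      rw [pos_append_right, pos_ng', sub_eq_add_neg]
    have e3 : pos (b1 ++ ng b2) (b1.length - i) = pos (b1 ++ ng b2) (b1.length + j) := by
      rw [e1, e2, ← hij]
      abel
    have hl : (b1 ++ ng b2).length = b1.length + b2.length := by
      rw [List.length_append]
      simp [ng]
    have := hw.2 (show b1.length - i ∈ Set.Iic (b1 ++ ng b2).length by
        rw [Set.mem_Iic, hl]; omega)
      (show b1.length + j ∈ Set.Iic (b1 ++ ng b2).length by rw [Set.mem_Iic, hl]; omega) e3
    omega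
  by_cases hex : ∃ t : ℕ, 1 ≤ t ∧ (t : ℤ) ≤ b2.sum.1 ∧ ∃ h h' : ℤ,
      Pre (rb b1) t h ∧ Pre (eE :: b2) t h'
  · obtain ⟨t, ht, htb, a, b, ha, hb⟩ := hex
    have ca := crs_of_pre_rb h1 ht ha
    have cb := crs_of_pre_E ht htb hb
    have hne := crs_ne uA uB hAB ht ca cb
    have hall : ∀ t' : ℕ, 1 ≤ t' → (t' : ℤ) ≤ b2.sum.1 → ∀ h h' : ℤ,
        Pre (rb b1) t' h → Pre (eE :: b2) t' h' → h ≠ h' ∧ (h' < h ↔ b < a) := by
      intro t' ht' htb' h h' hh hh'
      have ch := crs_of_pre_rb h1 ht' hh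
      have ch' := crs_of_pre_E ht' htb' hh'
      rcases lt_trichotomy t t' with hlt | heq | hgt
      · obtain ⟨-, e2, e3⟩ := sep uA uB hAB ht hlt ca cb ch ch'
        exact ⟨e2, e3.symm⟩
      · subst heq
        have e1 := crs_unique uA ca ch
        have e2 := crs_unique uB cb ch'
        subst e1
        subst e2
        exact ⟨hne, Iff.rfl⟩
      · obtain ⟨e1, -, e3⟩ := sep uA uB hAB ht' hgt ch ch' ca cb
        exact ⟨e1, e3⟩
    rcases lt_or_gt_of_ne hne with hlt | hgt
    · refine ⟨-1, Or.inr rfl, ?_⟩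
      intro t' ht' htb' h h' hh hh'
      obtain ⟨e1, e2⟩ := hall t' ht' htb' h h' hh hh'
      have : ¬ h' < h := fun hcon => absurd (e2.1 hcon) (by omega)
      omega
    · refine ⟨1, Or.inl rfl, ?_⟩
      intro t' ht' htb' h h' hh hh'
      obtain ⟨e1, e2⟩ := hall t' ht' htb' h h' hh hh'
      have := e2.2 hgt
      omega
  · refine ⟨1, Or.inl rfl, ?_⟩
    intro t ht htb h h' hh hh'
    exact absurd ⟨t, ht, htb, h, h', hh, hh'⟩ hex

end Pool.Agent.Work.MP_376faf_co_hw
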