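import Pool.Agent.Work.MP_376faf_co_hw.ZSum
import Pool.Agent.Work.MP_376faf_co_hw.Energy
import Pool.Agent.Work.MP_376faf_co_hw.Chain
import Pool.Agent.Work.MP_376faf_co_hw.Decomp

/-! Module HalfB: bound for the mass of half-plane walks. -/

set_option autoImplicit false

namespace Pool.Agent.Work.MP_376faf_co_hw

open Pool.Agent.Work.MP_376faf_co_lower
open scoped ENNReal

theorem tsum_opt {α : Type*} (f : Option α → ℝ≥0∞) : ∑' o, f o = (∑' a, f (some a)) + f none := by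
  rw [← (Equiv.optionEquivSumPUnit.{0} α).symm.tsum_eq f,
    Summable.tsum_sum ENNReal.summable ENNReal.summable]
  simp

/-- weights of the pieces of the chain; `none` stands for the long pieces -/
noncomputable def nuW (x K : ℝ≥0∞) (lam : ℕ → ℝ≥0∞) (S : ℕ) : Option (BW S) → ℝ≥0∞
  | none => lam S
  | some c => K * x ^ c.1.length

/-- the averaged kernel on the pieces -/
noncomputable def kerW (x : ℝ≥0∞) (S T : ℕ) (ξ : Option (BW S)) : Option (BW T) → ℝ≥0∞
  | none => 1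
  | some c => kT x T (ξ.map Subtype.val) c.1

/-- the continuation sums -/
noncomputable def gamW (x K : ℝ≥0∞) (lam : ℕ → ℝ≥0∞) (S : ℕ) (ξ : Option (BW S)) : ℝ≥0∞ :=
  chain x K lam (kT x) S (ξ.map Subtype.val)

theorem gamW_eq (x K : ℝ≥0∞) (lam : ℕ → ℝ≥0∞) (S : ℕ) (ξ : Option (BW S)) :
    gamW x K lam S ξ = 1 + ∑ T ∈ Finset.range S, ∑' η, nuW x K lam T η * kerW x S T ξ η *
      gamW x K lam T η := by
  rw [gamW, chain_eq]
  congr 1
  refine Finset.sum_congr rfl fun T _ => ?_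
  rw [tsum_opt]
  simp only [nuW, kerW, gamW, Option.map_none, Option.map_some, mul_one]
  rw [← ENNReal.tsum_mul_left]
  congr 1
  refine tsum_congr fun c => ?_
  ring

theorem nuW_sum {x K : ℝ≥0∞} {lam : ℕ → ℝ≥0∞} (hu : ∀ t, uu x t ≤ 1) (hl : ∀ S, lam S ≤ 1) (S : ℕ) :
    ∑' ξ, nuW x K lam S ξ ≤ K + 1 := by
  rw [tsum_opt]
  simp only [nuW]
  rw [ENNReal.tsum_mul_left]
  refine add_le_add ?_ (hl S)
  calc K * ∑' c : BW S, x ^ c.1.length = K * uu x S := rfl
    _ ≤ K * 1 := by gcongr; exact hu S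
    _ = K := mul_one K

theorem zzW_le {x K : ℝ≥0∞} {lam : ℕ → ℝ≥0∞} (hu : ∀ t, uu x t ≤ 1) (hl : ∀ S, lam S ≤ 1) (S T : ℕ) :
    Energy.zz (nuW x K lam) (kerW x) S T ≤ K ^ 2 * zz x S T + (K * lam T + (K + 1) * lam S) := by
  have hS : ∑' c : BW S, x ^ c.1.length ≤ 1 := hu S
  have hT : ∑' c : BW T, x ^ c.1.length ≤ 1 := hu T
  unfold Energy.zz
  rw [tsum_opt]
  have h1 : ∑' c : BW S, nuW x K lam S (some c) * ∑' η, nuW x K lam T η * kerW x S T (some c) η ^ 2
      ≤ K ^ 2 * zz x S T + K * lam T := by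
    calc ∑' c : BW S, nuW x K lam S (some c) * ∑' η, nuW x K lam T η * kerW x S T (some c) η ^ 2
        = ∑' c : BW S, (K ^ 2 * ∑' c' : BW T, x ^ c.1.length * x ^ c'.1.length *
            th x (lst (T / 2) (rb c.1) c'.1) ^ 2 + K * lam T * x ^ c.1.length) := by
          refine tsum_congr fun c => ?_
          rw [tsum_opt, ← ENNReal.tsum_mul_left, mul_add, ← ENNReal.tsum_mul_left]
          simp only [nuW, kerW, kT, Option.map_some, one_pow, mul_one]
          congr 1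
          · refine tsum_congr fun c' => ?_
            ring
          · ring
      _ = K ^ 2 * zz x S T + K * lam T * ∑' c : BW S, x ^ c.1.length := by
          rw [ENNReal.tsum_add, ENNReal.tsum_mul_left, ENNReal.tsum_mul_left]
          congr 2
          unfold zz
          rw [ENNReal.tsum_prod']
      _ ≤ K ^ 2 * zz x S T + K * lam T * 1 := by gcongr
      _ = _ := by rw [mul_one]
  have h2 : nuW x K lam S none * ∑' η, nuW x K lam T η * kerW x S T none η ^ 2 ≤
      (K + 1) * lam S := by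
    have h3 : ∑' η, nuW x K lam T η * kerW x S T none η ^ 2 = ∑' η, nuW x K lam T η := by
      refine tsum_congr fun η => ?_
      cases η with
      | none => simp [kerW]
      | some c => simp [kerW, kT]
    rw [h3]
    calc nuW x K lam S none * ∑' η, nuW x K lam T η ≤ lam S * (K + 1) := by
          simp only [nuW]
          gcongr
          exact nuW_sum hu hl T
      _ = _ := mul_comm _ _
  calc _ ≤ (K ^ 2 * zz x S T + K * lam T) + (K + 1) * lam S := add_le_add h1 h2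
    _ = _ := by rw [add_assoc]

theorem zzW_sum {x : ℝ≥0∞} (hx : x ≠ 0) (hu : ∀ t, uu x t ≤ 1) {K : ℝ≥0∞} (hK : 1 ≤ K)
    (hK1 : K ≠ ⊤) {lam : ℕ → ℝ≥0∞} {m k : ℕ} (hk : m ≤ 2 ^ k) (hl : ∀ S, lam S ≤ 1)
    (hlam : ∑ S ∈ Finset.range (m + 1), lam S ≤ 1) (d : ℕ) (hd : 1 ≤ d) :
    ∑ T ∈ Finset.range (m + 1 - d), Energy.zz (nuW x K lam) (kerW x) (T + d) T ≤
      ENNReal.ofReal (K.toReal ^ 2 * (4 + 24 * (k * (k + 1)))) := by
  have e : ENNReal.ofReal (K.toReal ^ 2 * (4 + 24 * (k * (k + 1)))) =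
      K ^ 2 * (4 + 24 * ((k : ℝ≥0∞) * (k + 1))) := by
    rw [ENNReal.ofReal_mul (by positivity), ENNReal.ofReal_pow (by positivity),
      ENNReal.ofReal_toReal hK1]
    have : (4 + 24 * ((k : ℝ) * (k + 1))) = ((4 + 24 * (k * (k + 1)) : ℕ) : ℝ) := by push_cast; ring
    rw [this, ENNReal.ofReal_natCast]
    push_cast
    ring
  rw [e]
  have h1 : ∑ T ∈ Finset.range (m + 1 - d), zz x (T + d) T ≤ 1 + 24 * ((k : ℝ≥0∞) * (k + 1)) :=
    le_trans (Finset.sum_le_sum_of_subset (Finset.range_subset_range.mpr (by omega))) (zsum hx hu k d)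
  have h2 : ∑ T ∈ Finset.range (m + 1 - d), lam T ≤ 1 :=
    le_trans (Finset.sum_le_sum_of_subset (Finset.range_subset_range.mpr (by omega))) hlam
  have h3 : ∑ T ∈ Finset.range (m + 1 - d), lam (T + d) ≤ 1 := by
    refine le_trans ?_ hlam
    rw [← Finset.sum_image (s := Finset.range (m + 1 - d)) (g := fun T => T + d) (f := lam)
      (fun a _ b _ h => by simpa using h)]
    refine Finset.sum_le_sum_of_subset fun T hT => ?_
    simp only [Finset.mem_image, Finset.mem_range] at hT ⊢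
    omega
  calc ∑ T ∈ Finset.range (m + 1 - d), Energy.zz (nuW x K lam) (kerW x) (T + d) T
      ≤ ∑ T ∈ Finset.range (m + 1 - d), (K ^ 2 * zz x (T + d) T +
          (K * lam T + (K + 1) * lam (T + d))) := Finset.sum_le_sum fun T _ => zzW_le hu hl _ _
    _ = K ^ 2 * ∑ T ∈ Finset.range (m + 1 - d), zz x (T + d) T +
          (K * ∑ T ∈ Finset.range (m + 1 - d), lam T +
            (K + 1) * ∑ T ∈ Finset.range (m + 1 - d), lam (T + d)) := by
        rw [Finset.sum_add_distrib, Finset.sum_add_distrib, Finset.mul_sum, Finset.mul_sum,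
          Finset.mul_sum]
    _ ≤ K ^ 2 * (1 + 24 * ((k : ℝ≥0∞) * (k + 1))) + (K * 1 + (K + 1) * 1) := by gcongr
    _ ≤ K ^ 2 * (1 + 24 * ((k : ℝ≥0∞) * (k + 1))) + (K ^ 2 + (K ^ 2 + K ^ 2)) := by
        have hKK : K ≤ K ^ 2 := by
          calc K = K * 1 := (mul_one K).symm
            _ ≤ K * K := by gcongr
            _ = K ^ 2 := (sq K).symm
        rw [mul_one, mul_one]
        gcongr
        exact hK.trans hKK
    _ = _ := by ring

theorem le_one_add_sq (a : ℝ≥0∞) : a ≤ 1 + a ^ 2 := by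
  rcases le_total a 1 with h | h
  · exact h.trans le_self_add
  · calc a = a * 1 := (mul_one a).symm
      _ ≤ a * a := by gcongr
      _ = a ^ 2 := (sq a).symm
      _ ≤ 1 + a ^ 2 := le_add_self

/-- kernel norms; lam S: mass of the long pieces -/
theorem chain_bound {x : ℝ≥0∞} (hx : x ≠ 0) (hu : ∀ t, uu x t ≤ 1) {K : ℝ≥0∞} (hK : 1 ≤ K)
    (hK1 : K ≠ ⊤) {lam : ℕ → ℝ≥0∞} {m k : ℕ} (hk : m ≤ 2 ^ k) (hl : ∀ S, lam S ≤ 1)
    (hlam : ∑ S ∈ Finset.range (m + 1), lam S ≤ 1) {D : ℕ} (hD : 1 ≤ D) :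
    chain x K lam (kT x) (m + 1) none ≤ 1 + ((m : ℝ≥0∞) + 1) * ((K + 1) +
      ENNReal.ofReal ((1 + 1 / (D : ℝ)) ^ (2 * m)) * (2 * (K + 1) * ((m : ℝ≥0∞) + 1) *
        ENNReal.ofReal (Real.exp (2 * (D * (K.toReal ^ 2 * (4 + 24 * (k * (k + 1))))))))) := by
  have hE : ∀ T ≤ m, Energy.EA (nuW x K lam) (gamW x K lam) T ≤
      ENNReal.ofReal ((1 + 1 / (D : ℝ)) ^ (2 * m)) * (2 * (K + 1) * ((m : ℝ≥0∞) + 1) *
        ENNReal.ofReal (Real.exp (2 * (D * (K.toReal ^ 2 * (4 + 24 * (k * (k + 1)))))))) := by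
    intro T hT
    refine (Energy.energy (nuW x K lam) (kerW x) (gamW x K lam) hD (U := K + 1)
      (x0 := K.toReal ^ 2 * (4 + 24 * (k * (k + 1)))) (by positivity) (nuW_sum hu hl)
      (zzW_sum hx hu hK hK1 hk hl hlam) (fun S ξ => (gamW_eq x K lam S ξ).le) hT).trans ?_
    have h1 : (1 + 1 / (D : ℝ)) ^ (2 * T) ≤ (1 + 1 / (D : ℝ)) ^ (2 * m) :=
      pow_le_pow_right₀ (by simp) (by omega)
    have h2 : (T : ℝ≥0∞) ≤ m := by exact_mod_cast hT
    gcongr
  have h0 : chain x K lam (kT x) (m + 1) none = gamW x K lam (m + 1) none := rfl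
  rw [h0, gamW_eq]
  gcongr
  calc ∑ T ∈ Finset.range (m + 1), ∑' η, nuW x K lam T η * kerW x (m + 1) T none η *
        gamW x K lam T η
      ≤ ∑ T ∈ Finset.range (m + 1), ((K + 1) +
          ENNReal.ofReal ((1 + 1 / (D : ℝ)) ^ (2 * m)) * (2 * (K + 1) * ((m : ℝ≥0∞) + 1) *
            ENNReal.ofReal (Real.exp (2 * (D * (K.toReal ^ 2 * (4 + 24 * (k * (k + 1))))))))) := by
        refine Finset.sum_le_sum fun T hT => ?_
        rw [Finset.mem_range] at hT
        calc ∑' η, nuW x K lam T η * kerW x (m + 1) T none η * gamW x K lam T η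
            ≤ ∑' η, (nuW x K lam T η + nuW x K lam T η * gamW x K lam T η ^ 2) := by
              refine ENNReal.tsum_le_tsum fun η => ?_
              have h3 : kerW x (m + 1) T none η = 1 := by
                cases η with
                | none => simp [kerW]
                | some c => simp [kerW, kT]
              rw [h3, mul_one]
              calc nuW x K lam T η * gamW x K lam T η
                  ≤ nuW x K lam T η * (1 + gamW x K lam T η ^ 2) := by
                    gcongr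
                    exact le_one_add_sq _
                _ = _ := by rw [mul_add, mul_one]
          _ = ∑' η, nuW x K lam T η + Energy.EA (nuW x K lam) (gamW x K lam) T := by
              rw [ENNReal.tsum_add]
              rfl
          _ ≤ _ := add_le_add (nuW_sum hu hl T) (hE T (by omega))
    _ = _ := by
        rw [Finset.sum_const, Finset.card_range, nsmul_eq_mul]
        push_cast
        rfl

theorem half_pos_le {l : List Pt} (h : Half l) : ∀ i ≤ l.length, (pos l i).1 ≤ i := by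
  intro i
  induction i with
  | zero => simp
  | succ i ih =>
    intro hi
    have h1 := ih (by omega)
    rw [pos_succ l (by omega)]
    have h2 : Un l[i] := h.1.1 _ (List.getElem_mem _)
    unfold Un at h2
    have h3 := abs_nonneg (l[i]).2
    have h4 := le_abs_self (l[i]).1
    simp only [Prod.fst_add]
    push_cast
    omega

theorem half_HL {n M : ℕ} (hnM : n ≤ M) {l : List Pt} (h : Half l ∧ l.length ≤ n) : HL n M l := by
  refine ⟨⟨h.1, fun i hi => ?_⟩, h.2⟩
  have := half_pos_le h.1 i hi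
  have := h.2
  omega

theorem lo_zero {y : ℝ≥0∞} {m n : ℕ} (hm : 1 ≤ m) : mass y (LoB m n 0) = 0 := by
  unfold mass
  rw [ENNReal.tsum_eq_zero]
  rintro ⟨l, h1, h2, h3⟩
  exfalso
  have : l = [] := eq_nil h1.1 (by rw [h1.2]; simp)
  subst this
  simp at h2
  omega

theorem lo_big {y : ℝ≥0∞} {m n A : ℕ} (hA : n < A) : mass y (LoB m n A) = 0 := by
  unfold mass
  rw [ENNReal.tsum_eq_zero]
  rintro ⟨l, h1, h2, h3⟩
  exfalso
  have h4 := half_pos_le h1.1.half l.length le_rfl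
  rw [pos_len, h1.2] at h4
  omega

theorem lo_le_one {y : ℝ≥0∞} {m n : ℕ} (hm : 1 ≤ m)
    (hL : ∑ T ∈ Finset.range n, mass y (LoB m n (T + 1)) ≤ 1) (A : ℕ) : mass y (LoB m n A) ≤ 1 := by
  rcases Nat.eq_zero_or_pos A with h0 | h0
  · subst h0
    rw [lo_zero hm]
    exact zero_le
  rcases lt_or_ge n A with h1 | h1
  · rw [lo_big h1]
    exact zero_le
  · obtain ⟨T, rfl⟩ : ∃ T, A = T + 1 := ⟨A - 1, by omega⟩
    refine le_trans ?_ hL
    exact Finset.single_le_sum (f := fun T => mass y (LoB m n (T + 1))) (fun _ _ => zero_le)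
      (Finset.mem_range.2 (by omega))

theorem lo_sum {y : ℝ≥0∞} {m n : ℕ} (hL : ∑ T ∈ Finset.range n, mass y (LoB m n (T + 1)) ≤ 1)
    (s : Finset ℕ) : ∑ T ∈ s, mass y (LoB m n (T + 1)) ≤ 1 := by
  refine le_trans ?_ hL
  calc ∑ T ∈ s, mass y (LoB m n (T + 1)) = ∑ T ∈ s.filter (fun T => T < n), mass y (LoB m n (T + 1)) := by
        rw [Finset.sum_filter]
        refine Finset.sum_congr rfl fun T _ => ?_
        split_ifs with h
        · rfl
        · exact lo_big (by omega)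
    _ ≤ _ := by
        refine Finset.sum_le_sum_of_subset fun T hT => ?_
        rw [Finset.mem_filter] at hT
        exact Finset.mem_range.2 hT.2

theorem lam_sum {y : ℝ≥0∞} {m n : ℕ} (hm : 1 ≤ m)
    (hL : ∑ T ∈ Finset.range n, mass y (LoB m n (T + 1)) ≤ 1) :
    ∑ S ∈ Finset.range (m + 1), mass y (LoB m n (S - 1)) ≤ 1 := by
  obtain ⟨m', rfl⟩ : ∃ m', m = m' + 1 := ⟨m - 1, by omega⟩
  rw [Finset.sum_range_succ', Finset.sum_range_succ']
  simp only [Nat.add_sub_cancel, Nat.zero_sub, Nat.zero_add]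
  rw [lo_zero hm, add_zero, add_zero]
  refine le_trans (le_of_eq ?_) (lo_sum hL (Finset.range m'))
  rfl

/-- x = 1/mu, y close to x, short bridges: length < m ≤ 2^k; D is the block parameter -/
theorem half_bound {μ : ℝ} (hμ : 1 ≤ μ) (hu : ∀ t, uu (ENNReal.ofReal μ)⁻¹ t ≤ 1)
    {m n D k : ℕ} (hm : 1 ≤ m) (hk : m ≤ 2 ^ k) (hk1 : 1 ≤ k) (hD : 1 ≤ D) {y : ℝ≥0∞}
    (hy : ∀ l < m, y ^ l ≤ 2 * (ENNReal.ofReal μ)⁻¹ ^ l)
    (hL : ∑ T ∈ Finset.range n, mass y (LoB m n (T + 1)) ≤ 1) :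
    mass y (fun l => Half l ∧ l.length ≤ n) ≤ ENNReal.ofReal (200 * μ * ((m:ℝ) + 1) ^ 2 *
      (1 + 1 / (D:ℝ)) ^ (2 * m) * Real.exp (500 * μ ^ 2 * (k:ℝ) ^ 2 * D)) := by
  have hμ0 : 0 < μ := by linarith
  set x : ℝ≥0∞ := (ENNReal.ofReal μ)⁻¹ with hxdef
  have hx0 : x ≠ 0 := by simp [hxdef]
  have hμx : ENNReal.ofReal μ * x = 1 :=
    ENNReal.mul_inv_cancel (by simpa using hμ0) ENNReal.ofReal_ne_top
  set K : ℝ≥0∞ := ENNReal.ofReal (2 * μ) with hKdef
  have hK : 1 ≤ K := by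
    rw [hKdef, ← ENNReal.ofReal_one]
    exact ENNReal.ofReal_le_ofReal (by linarith)
  have hKt : K ≠ ⊤ := ENNReal.ofReal_ne_top
  have hKr : K.toReal = 2 * μ := ENNReal.toReal_ofReal (by linarith)
  have hyK : ∀ l < m, y ^ l ≤ K * x ^ (l + 1) := by
    intro l hl
    refine (hy l hl).trans (le_of_eq ?_)
    rw [hKdef, ENNReal.ofReal_mul (by norm_num), pow_succ]
    calc 2 * x ^ l = 2 * x ^ l * 1 := (mul_one _).symm
      _ = 2 * x ^ l * (ENNReal.ofReal μ * x) := by rw [hμx]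
      _ = ENNReal.ofReal 2 * ENNReal.ofReal μ * (x ^ l * x) := by
          rw [show ENNReal.ofReal 2 = 2 by simp]
          ring
  -- the short part
  have h1 : mass y (HL n (m - 1)) ≤ chain x K (fun S => mass y (LoB m n (S - 1))) (kT x) (m + 1) none := by
    have h2 := hw_chain (n := n) hm hyK (m - 1)
    rw [show m - 1 + 2 = m + 1 by omega] at h2
    exact h2.trans (chain_compare hx0 hu K _ (m + 1)).2
  have h2 := h1.trans (chain_bound hx0 hu hK hKt hk (fun S => lo_le_one hm hL (S - 1))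
    (lam_sum hm hL) hD)
  -- the long part
  have h3 : mass y (fun l => Half l ∧ l.length ≤ n) ≤ mass y (HL n (max (m - 1) n)) :=
    mass_mono y fun l hl => half_HL (le_max_right _ _) hl
  have h4 := hw_long (y := y) (m := m) (n := n) (M := m - 1) (M' := max (m - 1) n) (by omega)
    (le_max_left _ _)
  have h5 : ∏ T ∈ Finset.Ico (m - 1) (max (m - 1) n), (1 + mass y (LoB m n (T + 1))) ≤
      ENNReal.ofReal (Real.exp 2) := by
    calc ∏ T ∈ Finset.Ico (m - 1) (max (m - 1) n), (1 + mass y (LoB m n (T + 1)))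
        ≤ ∏ T ∈ Finset.Ico (m - 1) (max (m - 1) n), (1 + 2 * mass y (LoB m n (T + 1))) := by
          refine Finset.prod_le_prod' fun T _ => ?_
          gcongr
          calc mass y (LoB m n (T + 1)) = 1 * mass y (LoB m n (T + 1)) := (one_mul _).symm
            _ ≤ _ := by gcongr; norm_num
      _ ≤ ENNReal.ofReal (Real.exp (2 * 1)) := by
          refine Energy.prod_le_exp zero_le_one ?_
          rw [ENNReal.ofReal_one]
          exact lo_sum hL _
      _ = _ := by rw [mul_one]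
  set E : ℝ := (1 + 1 / (D:ℝ)) ^ (2 * m) with hE
  set X : ℝ := Real.exp (2 * (D * (K.toReal ^ 2 * (4 + 24 * (k * (k + 1)))))) with hX
  have hE1 : 1 ≤ E := one_le_pow₀ (by simp)
  have hX1 : 1 ≤ X := Real.one_le_exp (by positivity)
  have hXle : X ≤ Real.exp (500 * μ ^ 2 * (k:ℝ) ^ 2 * D) := by
    rw [hX, hKr]
    refine Real.exp_le_exp.2 ?_
    have hk1' : (1:ℝ) ≤ k := by exact_mod_cast hk1
    have hD1 : (1:ℝ) ≤ D := by exact_mod_cast hD
    have h6 : (4 + 24 * ((k:ℝ) * (k + 1))) ≤ 52 * (k:ℝ) ^ 2 := by nlinarith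
    calc 2 * (D * ((2 * μ) ^ 2 * (4 + 24 * (k * (k + 1)))))
        ≤ 2 * (D * ((2 * μ) ^ 2 * (52 * (k:ℝ) ^ 2))) := by gcongr
      _ = 416 * (μ ^ 2 * (k:ℝ) ^ 2 * D) := by ring
      _ ≤ 500 * (μ ^ 2 * (k:ℝ) ^ 2 * D) := by gcongr; norm_num
      _ = _ := by ring
  have h7 : 1 + ((m : ℝ≥0∞) + 1) * ((K + 1) +
      ENNReal.ofReal E * (2 * (K + 1) * ((m : ℝ≥0∞) + 1) * ENNReal.ofReal X)) =
      ENNReal.ofReal (1 + ((m : ℝ) + 1) * ((2 * μ + 1) + E * (2 * (2 * μ + 1) * ((m : ℝ) + 1) * X))) := by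
    have hm1 : ENNReal.ofReal ((m : ℝ) + 1) = (m : ℝ≥0∞) + 1 := by
      rw [ENNReal.ofReal_add (by positivity) (by norm_num)]
      simp
    have hK1 : ENNReal.ofReal (2 * μ + 1) = K + 1 := by
      rw [ENNReal.ofReal_add (by positivity) (by norm_num)]
      simp [hKdef]
    rw [← hm1, ← hK1, show (2 : ℝ≥0∞) = ENNReal.ofReal 2 by simp,
      show (1 : ℝ≥0∞) = ENNReal.ofReal 1 by simp, ← ENNReal.ofReal_mul (by norm_num),
      ← ENNReal.ofReal_mul (by positivity), ← ENNReal.ofReal_mul (by positivity),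
      ← ENNReal.ofReal_mul (by positivity), ← ENNReal.ofReal_add (by positivity) (by positivity),
      ← ENNReal.ofReal_mul (by positivity), ← ENNReal.ofReal_add (by norm_num) (by positivity)]
  rw [h7] at h2
  have h8 : 1 + ((m : ℝ) + 1) * ((2 * μ + 1) + E * (2 * (2 * μ + 1) * ((m : ℝ) + 1) * X)) ≤
      8 * (μ * ((m : ℝ) + 1) ^ 2 * E * X) := by
    have hm1 : (2:ℝ) ≤ (m : ℝ) + 1 := by
      have : (1:ℝ) ≤ m := by exact_mod_cast hm
      linarith
    have hEX : 1 ≤ E * X := one_le_mul_of_one_le_of_one_le hE1 hX1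
    set M : ℝ := (m : ℝ) + 1
    have hM2 : 2 * M ≤ M ^ 2 := by nlinarith
    have a1 : 1 ≤ (1 / 4) * (μ * M ^ 2 * (E * X)) := by
      have : 1 * 4 * 1 ≤ μ * M ^ 2 * (E * X) := by
        gcongr
        nlinarith
      linarith
    have a2 : M * (2 * μ + 1) ≤ (3 / 2) * (μ * M ^ 2 * (E * X)) := by
      calc M * (2 * μ + 1) ≤ M * (3 * μ) := by gcongr; linarith
        _ = (3 / 2) * (μ * (2 * M) * 1) := by ring
        _ ≤ _ := by gcongr
    have a3 : M * (E * (2 * (2 * μ + 1) * M * X)) ≤ 6 * (μ * M ^ 2 * (E * X)) := by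
      calc M * (E * (2 * (2 * μ + 1) * M * X)) ≤ M * (E * (2 * (3 * μ) * M * X)) := by
            gcongr
            linarith
        _ = _ := by ring
    have a4 : (0:ℝ) ≤ μ * M ^ 2 * (E * X) := by positivity
    calc 1 + M * ((2 * μ + 1) + E * (2 * (2 * μ + 1) * M * X))
        = 1 + M * (2 * μ + 1) + M * (E * (2 * (2 * μ + 1) * M * X)) := by ring
      _ ≤ (1 / 4) * (μ * M ^ 2 * (E * X)) + (3 / 2) * (μ * M ^ 2 * (E * X)) +
          6 * (μ * M ^ 2 * (E * X)) := by gcongr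
      _ ≤ 8 * (μ * M ^ 2 * (E * X)) := by linarith
      _ = _ := by ring
  have he : Real.exp 2 ≤ 8 := by
    have h9 := Real.exp_one_lt_d9
    have h10 : Real.exp 2 = Real.exp 1 * Real.exp 1 := by
      rw [← Real.exp_add]
      norm_num
    rw [h10]
    have h11 := Real.exp_pos 1
    nlinarith
  calc mass y (fun l => Half l ∧ l.length ≤ n) ≤ mass y (HL n (m - 1)) *
        ∏ T ∈ Finset.Ico (m - 1) (max (m - 1) n), (1 + mass y (LoB m n (T + 1))) := h3.trans h4
    _ ≤ ENNReal.ofReal (8 * (μ * ((m : ℝ) + 1) ^ 2 * E * X)) * ENNReal.ofReal (Real.exp 2) :=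
        mul_le_mul' (h2.trans (ENNReal.ofReal_le_ofReal h8)) h5
    _ = ENNReal.ofReal (8 * (μ * ((m : ℝ) + 1) ^ 2 * E * X) * Real.exp 2) := by
        rw [← ENNReal.ofReal_mul (by positivity)]
    _ ≤ _ := by
        refine ENNReal.ofReal_le_ofReal ?_
        calc 8 * (μ * ((m : ℝ) + 1) ^ 2 * E * X) * Real.exp 2
            ≤ 8 * (μ * ((m : ℝ) + 1) ^ 2 * E * Real.exp (500 * μ ^ 2 * (k:ℝ) ^ 2 * D)) * 8 := by
              gcongr
          _ = 64 * (μ * ((m : ℝ) + 1) ^ 2 * E * Real.exp (500 * μ ^ 2 * (k:ℝ) ^ 2 * D)) := by ring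
          _ ≤ 200 * (μ * ((m : ℝ) + 1) ^ 2 * E * Real.exp (500 * μ ^ 2 * (k:ℝ) ^ 2 * D)) := by
              gcongr
              norm_num
          _ = _ := by ring

end Pool.Agent.Work.MP_376faf_co_hw
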