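import Pool.Agent.Work.MP_376faf_co_hw.PreB

/-! Module LstDec: decomposition of pairs at the last common prefix span in [0,W]. -/

set_option autoImplicit false

namespace Pool.Agent.Work.MP_376faf_co_hw

open Pool.Agent.Work.MP_376faf_co_lower
open scoped ENNReal

theorem ld_rep (n : ℕ) : BridgeW n (List.replicate n eE) := by
  induction n with
  | zero => exact ⟨bridge_nil, by simp⟩
  | succ n ih =>
    refine ⟨?_, ?_⟩
    · rw [List.replicate_succ]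
      exact bridge_append (a := [eE]) bridge_E ih.1
    · rw [List.replicate_succ, List.sum_cons, Prod.fst_add, ih.2]
      simp [eE]
      ring

theorem uu_ne_zero {x : ℝ≥0∞} (hx : x ≠ 0) (t : ℕ) : uu x t ≠ 0 := by
  unfold uu mass
  intro h
  rw [ENNReal.tsum_eq_zero] at h
  have := h ⟨List.replicate t eE, ld_rep t⟩
  exact pow_ne_zero _ hx this

theorem com_left {k k' a a' : List Pt} {t s : ℕ} (hk : BridgeW t k) (hk' : BridgeW t k')
    (ha : Bridge a) (ha' : Bridge a') (hs : s ≤ t) : Com (k ++ a) (k' ++ a') s ↔ Com k k' s := by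
  unfold Com
  have h1 : (s : ℤ) ≤ k.sum.1 := by rw [hk.2]; exact_mod_cast hs
  have h2 : (s : ℤ) ≤ k'.sum.1 := by rw [hk'.2]; exact_mod_cast hs
  simp only [pre_left hk.1 ha h1, pre_left hk'.1 ha' h2]

theorem com_right {k k' a a' : List Pt} {t s : ℕ} (hk : BridgeW t k) (hk' : BridgeW t k')
    (ha : Bridge a) (ha' : Bridge a') : Com (k ++ a) (k' ++ a') (t + s) ↔ Com a a' s := by
  have h1 : k.sum = ((t : ℤ), k.sum.2) := Prod.ext hk.2 rfl
  have h2 : k'.sum = ((t : ℤ), k'.sum.2) := Prod.ext hk'.2 rfl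
  constructor
  · rintro ⟨h, h', hp, hp'⟩
    refine ⟨h - k.sum.2, h' - k'.sum.2, ?_, ?_⟩
    · rw [← pre_right hk.1 ha h1]
      convert hp using 1
      ring
    · rw [← pre_right hk'.1 ha' h2]
      convert hp' using 1
      ring
  · rintro ⟨h, h', hp, hp'⟩
    exact ⟨_, _, (pre_right hk.1 ha h1).2 hp, (pre_right hk'.1 ha' h2).2 hp'⟩

theorem ld_self {k k' : List Pt} {t : ℕ} (hk : BridgeW t k) (hk' : BridgeW t k') :
    Com k k' t := ⟨_, _, pre_full hk, pre_full hk'⟩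

theorem ld_zero {k k' : List Pt} (hk : Bridge k) (hk' : Bridge k') :
    Com k k' 0 := ⟨_, _, pre_zero hk, pre_zero hk'⟩

/-- a, a' without common prefix span in [1,V] -/
def NoC (V : ℕ) (a a' : List Pt) : Prop := ∀ s, 1 ≤ s → s ≤ V → ¬ Com a a' s

theorem ld_not {k k' a a' : List Pt} {t W : ℕ} (hk : BridgeW t k) (hk' : BridgeW t k')
    (ha : Bridge a) (ha' : Bridge a') (hn : NoC (W - t) a a') {s : ℕ} (h1 : t < s)
    (h2 : s ≤ W) : ¬ Com (k ++ a) (k' ++ a') s := by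
  intro hc
  obtain ⟨r, rfl⟩ : ∃ r, s = t + r := ⟨s - t, by omega⟩
  exact hn r (by omega) (by omega) ((com_right hk hk' ha ha').1 hc)

theorem lst_cat {k k' a a' : List Pt} {t W : ℕ} (hk : BridgeW t k) (hk' : BridgeW t k')
    (ha : Bridge a) (ha' : Bridge a') (ht : t ≤ W) (hn : NoC (W - t) a a') :
    lst W (k ++ a) (k' ++ a') = t := by
  classical
  unfold lst
  rw [Nat.findGreatest_eq_iff]
  refine ⟨ht, fun _ => (com_left hk hk' ha ha' le_rfl).2 (ld_self hk hk'), ?_⟩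
  intro s h1 h2
  exact ld_not hk hk' ha ha' hn h1 h2

theorem nc_catW {k k' a a' : List Pt} {t W : ℕ} (hk : BridgeW t k) (hk' : BridgeW t k')
    (ha : Bridge a) (ha' : Bridge a') (ht : t ≤ W) (hn : NoC (W - t) a a') :
    nc W (k ++ a) (k' ++ a') = nc t k k' := by
  classical
  unfold nc
  congr 1
  ext s
  simp only [Finset.mem_filter, Finset.mem_Icc]
  constructor
  · rintro ⟨⟨h1, h2⟩, h3⟩
    have hs : s ≤ t := by
      by_contra hcon
      exact ld_not hk hk' ha ha' hn (by omega) h2 h3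
    exact ⟨⟨h1, hs⟩, (com_left hk hk' ha ha' hs).1 h3⟩
  · rintro ⟨⟨h1, h2⟩, h3⟩
    exact ⟨⟨h1, h2.trans ht⟩, (com_left hk hk' ha ha' h2).2 h3⟩

theorem pos_cat {k k' a a' : List Pt} {t W : ℕ} (hk : BridgeW t k) (hk' : BridgeW t k')
    (ha : Bridge a) (ha' : Bridge a') (ht : t ≤ W) (hn : NoC (W - t) a a') :
    Pos W (k ++ a) (k' ++ a') ↔ Pos t k k' := by
  unfold Pos
  have hl : ∀ {s : ℕ} {h : ℤ}, s ≤ t → (Pre (k ++ a) s h ↔ Pre k s h) := fun hs =>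
    pre_left hk.1 ha (by rw [hk.2]; exact_mod_cast hs)
  have hl' : ∀ {s : ℕ} {h : ℤ}, s ≤ t → (Pre (k' ++ a') s h ↔ Pre k' s h) := fun hs =>
    pre_left hk'.1 ha' (by rw [hk'.2]; exact_mod_cast hs)
  constructor
  · rintro ⟨σ, hσ, H⟩
    exact ⟨σ, hσ, fun s h1 h2 h h' hp hp' => H s h1 (h2.trans ht) h h' ((hl h2).2 hp)
      ((hl' h2).2 hp')⟩
  · rintro ⟨σ, hσ, H⟩
    refine ⟨σ, hσ, fun s h1 h2 h h' hp hp' => ?_⟩
    have hs : s ≤ t := by
      by_contra hcon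
      exact ld_not hk hk' ha ha' hn (by omega) h2 ⟨h, h', hp, hp'⟩
    exact H s h1 hs h h' ((hl hs).1 hp) ((hl' hs).1 hp')

theorem ld_catW {s t : ℕ} {k a : List Pt} (hk : BridgeW t k) (ha : BridgeW (s - t) a)
    (ht : t ≤ s) : BridgeW s (k ++ a) := by
  refine ⟨bridge_append hk.1 ha.1, ?_⟩
  rw [List.sum_append, Prod.fst_add, hk.2, ha.2]
  omega

/-- index set of the decomposition -/
abbrev LstI (S S' W : ℕ) : Type :=
  Σ t : Fin (W + 1), {q : BW (S - t.1) × BW (S' - t.1) // NoC (W - t.1) q.1.1 q.2.1} ×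
    (BW t.1 × BW t.1)

def lstF {S S' W : ℕ} (hW : W ≤ S) (hW' : W ≤ S') (z : LstI S S' W) : BW S × BW S' :=
  (⟨z.2.2.1.1 ++ z.2.1.1.1.1, ld_catW z.2.2.1.2 z.2.1.1.1.2 (by have := z.1.2; omega)⟩,
   ⟨z.2.2.2.1 ++ z.2.1.1.2.1, ld_catW z.2.2.2.2 z.2.1.1.2.2 (by have := z.1.2; omega)⟩)

theorem lstF_inj {S S' W : ℕ} (hW : W ≤ S) (hW' : W ≤ S') :
    Function.Injective (lstF (S := S) (S' := S') hW hW') := by
  rintro ⟨⟨t, ht⟩, ⟨⟨a, a'⟩, hn⟩, ⟨k, k'⟩⟩ ⟨⟨s, hs⟩, ⟨⟨b, b'⟩, hn'⟩, ⟨l, l'⟩⟩ h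
  have h1 : k.1 ++ a.1 = l.1 ++ b.1 := congrArg (fun z : BW S × BW S' => z.1.1) h
  have h2 : k'.1 ++ a'.1 = l'.1 ++ b'.1 := congrArg (fun z : BW S × BW S' => z.2.1) h
  have h3 : lst W (k.1 ++ a.1) (k'.1 ++ a'.1) = t :=
    lst_cat k.2 k'.2 a.2.1 a'.2.1 (by omega) hn
  have h4 : lst W (l.1 ++ b.1) (l'.1 ++ b'.1) = s :=
    lst_cat l.2 l'.2 b.2.1 b'.2.1 (by omega) hn'
  rw [h1, h2, h4] at h3
  subst h3
  obtain ⟨h5, h6⟩ := levi_eq k.2.1 a.2.1 l.2.1 b.2.1 h1 (by rw [k.2.2, l.2.2])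
  obtain ⟨h7, h8⟩ := levi_eq k'.2.1 a'.2.1 l'.2.1 b'.2.1 h2 (by rw [k'.2.2, l'.2.2])
  have e1 : k = l := Subtype.ext h5
  have e2 : a = b := Subtype.ext h6
  have e3 : k' = l' := Subtype.ext h7
  have e4 : a' = b' := Subtype.ext h8
  subst e1 e2 e3 e4
  rfl

theorem lstF_surj {S S' W : ℕ} (hW : W ≤ S) (hW' : W ≤ S') :
    Function.Surjective (lstF (S := S) (S' := S') hW hW') := by
  classical
  rintro ⟨⟨c, hc⟩, ⟨c', hc'⟩⟩
  have hle : lst W c c' ≤ W := Nat.findGreatest_le _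
  have hcom : Com c c' (lst W c c') := by
    rcases Nat.eq_zero_or_pos (lst W c c') with h0 | h0
    · rw [h0]
      exact ld_zero hc.1 hc'.1
    · exact Nat.findGreatest_of_ne_zero rfl h0.ne'
  have hgr : ∀ s, lst W c c' < s → s ≤ W → ¬ Com c c' s := fun s h1 h2 =>
    Nat.findGreatest_is_greatest h1 h2
  generalize lst W c c' = t at hle hcom hgr
  obtain ⟨h, h', ⟨k, a, rfl, hk, ha, hks⟩, ⟨k', a', rfl, hk', ha', hks'⟩⟩ := hcom
  have hkW : BridgeW t k := ⟨hk, by rw [hks]⟩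
  have hkW' : BridgeW t k' := ⟨hk', by rw [hks']⟩
  have haW : BridgeW (S - t) a := by
    refine ⟨ha, ?_⟩
    have := hc.2
    rw [List.sum_append, Prod.fst_add, hkW.2] at this
    omega
  have haW' : BridgeW (S' - t) a' := by
    refine ⟨ha', ?_⟩
    have := hc'.2
    rw [List.sum_append, Prod.fst_add, hkW'.2] at this
    omega
  have hn : NoC (W - t) a a' := by
    intro s h1 h2 h3
    exact hgr (t + s) (by omega) (by omega) ((com_right hkW hkW' ha ha').2 h3)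
  exact ⟨⟨⟨t, by omega⟩, ⟨(⟨a, haW⟩, ⟨a', haW'⟩), hn⟩, (⟨k, hkW⟩, ⟨k', hkW'⟩)⟩, rfl⟩

theorem lst_dec {S S' W : ℕ} (hW : W ≤ S) (hW' : W ≤ S') (Φ : List Pt → List Pt → ℝ≥0∞) :
    ∑' p : BW S × BW S', Φ p.1.1 p.2.1 = ∑ t ∈ Finset.range (W + 1),
      ∑' q : {q : BW (S - t) × BW (S' - t) // NoC (W - t) q.1.1 q.2.1},
        ∑' k : BW t × BW t, Φ (k.1.1 ++ q.1.1.1) (k.2.1 ++ q.1.2.1) := by
  let e : LstI S S' W ≃ BW S × BW S' :=
    Equiv.ofBijective (lstF hW hW') ⟨lstF_inj hW hW', lstF_surj hW hW'⟩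
  rw [← e.tsum_eq (fun p : BW S × BW S' => Φ p.1.1 p.2.1),
    ENNReal.tsum_sigma' (f := fun z : LstI S S' W => Φ (e z).1.1 (e z).2.1), tsum_fintype,
    Finset.sum_range]
  refine Finset.sum_congr rfl (fun t _ => ?_)
  rw [ENNReal.tsum_prod']
  rfl

end Pool.Agent.Work.MP_376faf_co_hw
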