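import Pool.Agent.Work.MP_376faf_co_hw.Defs

/-! Module E1: the abstract recursion. -/

set_option autoImplicit false

namespace Pool.Agent.Work.MP_376faf_co_hw

open Pool.Agent.Work.MP_376faf_co_lower
open scoped ENNReal

lemma prod_one_add_eq (w : ℕ → ℝ≥0∞) (M : ℕ) :
    ∏ T ∈ Finset.range M, (1 + w T) =
      1 + ∑ T ∈ Finset.range M, (∏ S ∈ Finset.range T, (1 + w S)) * w T := by
  induction M with
  | zero => simp
  | succ M ih =>
    rw [Finset.prod_range_succ, Finset.sum_range_succ, mul_add, mul_one, ← add_assoc, ← ih]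

/-- q is at least 1 and r is its inverse -/
theorem rec_bound {H L : ℕ → ℝ≥0∞} {V : ℕ → ℕ → ℕ → ℝ≥0∞} {P q r : ℝ≥0∞} {m : ℕ}
    (hP : 1 ≤ P) (hq : 1 ≤ q) (hqr : q * r = 1)
    (hV : ∀ T e1 e2, m ≤ T + e1 + e2 + 3 → V T e1 e2 = 0)
    (hH : ∀ M, H M ≤ P + P * ∑ T ∈ Finset.range M, L T * H T +
      ∑ p ∈ (Finset.range M ×ˢ Finset.range M ×ˢ Finset.range M).filter
          (fun p => p.1 + p.2.1 + p.2.2 + 3 ≤ M), V p.1 p.2.1 p.2.2 * H p.1) (M : ℕ) :
    H M ≤ P * q ^ (min M m) * ∏ T ∈ Finset.range M,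
      (1 + (P * L T + ∑ e ∈ Finset.range m ×ˢ Finset.range m, r ^ (e.1 + e.2 + 2) * V T e.1 e.2)) := by
  set w : ℕ → ℝ≥0∞ := fun T => P * L T + ∑ e ∈ Finset.range m ×ˢ Finset.range m,
    r ^ (e.1 + e.2 + 2) * V T e.1 e.2 with hw
  set W : ℕ → ℝ≥0∞ := fun M => ∏ T ∈ Finset.range M, (1 + w T) with hWdef
  have hW : ∀ M, W M = 1 + ∑ T ∈ Finset.range M, W T * w T := prod_one_add_eq w
  change H M ≤ P * q ^ (min M m) * W M
  induction M using Nat.strong_induction_on with
  | _ M ih =>
    set Q : ℝ≥0∞ := q ^ (min M m) with hQ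
    have hQ1 : 1 ≤ Q := one_le_pow₀ hq
    have h1 : P * ∑ T ∈ Finset.range M, L T * H T ≤
        ∑ T ∈ Finset.range M, P * Q * (W T * (P * L T)) := by
      rw [Finset.mul_sum]
      refine Finset.sum_le_sum (fun T hT => ?_)
      have hTM : T < M := Finset.mem_range.mp hT
      have h2 : q ^ (min T m) ≤ Q := pow_le_pow_right₀ hq (min_le_min_right m hTM.le)
      calc P * (L T * H T) ≤ P * (L T * (P * q ^ (min T m) * W T)) := by
            gcongr; exact ih T hTM
        _ ≤ P * (L T * (P * Q * W T)) := by gcongr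
        _ = P * Q * (W T * (P * L T)) := by ring
    have h2 : ∑ p ∈ (Finset.range M ×ˢ Finset.range M ×ˢ Finset.range M).filter
          (fun p => p.1 + p.2.1 + p.2.2 + 3 ≤ M), V p.1 p.2.1 p.2.2 * H p.1 ≤
        ∑ T ∈ Finset.range M, P * Q * (W T * ∑ e ∈ Finset.range m ×ˢ Finset.range m,
          r ^ (e.1 + e.2 + 2) * V T e.1 e.2) := by
      have hg : ∑ p ∈ (Finset.range M ×ˢ Finset.range M ×ˢ Finset.range M).filter
          (fun p => p.1 + p.2.1 + p.2.2 + 3 ≤ M), V p.1 p.2.1 p.2.2 * H p.1 ≤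
          ∑ p ∈ (Finset.range M ×ˢ Finset.range M ×ˢ Finset.range M).filter
          (fun p => p.1 + p.2.1 + p.2.2 + 3 ≤ M),
          P * Q * (W p.1 * (r ^ (p.2.1 + p.2.2 + 2) * V p.1 p.2.1 p.2.2)) := by
        refine Finset.sum_le_sum (fun p hp => ?_)
        obtain ⟨hp1, hp2⟩ := Finset.mem_filter.mp hp
        obtain ⟨T, e1, e2⟩ := p
        simp only at hp2 ⊢
        have hTM : T < M := by omega
        by_cases hm : m ≤ T + e1 + e2 + 3
        · rw [hV T e1 e2 hm]; simp
        · rw [not_le] at hm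
          have h3 : min T m = T := min_eq_left (by omega)
          have h4 : q ^ T = q ^ (T + (e1 + e2 + 2)) * r ^ (e1 + e2 + 2) := by
            rw [pow_add, mul_assoc, ← mul_pow, hqr, one_pow, mul_one]
          have h5 : q ^ (T + (e1 + e2 + 2)) ≤ Q :=
            pow_le_pow_right₀ hq (le_min (by omega) (by omega))
          calc V T e1 e2 * H T ≤ V T e1 e2 * (P * q ^ (min T m) * W T) := by
                gcongr; exact ih T hTM
            _ = V T e1 e2 * (P * (q ^ (T + (e1 + e2 + 2)) * r ^ (e1 + e2 + 2)) * W T) := by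
                rw [h3, h4]
            _ ≤ V T e1 e2 * (P * (Q * r ^ (e1 + e2 + 2)) * W T) := by gcongr
            _ = P * Q * (W T * (r ^ (e1 + e2 + 2) * V T e1 e2)) := by ring
      refine hg.trans ?_
      have hg2 : ∑ p ∈ (Finset.range M ×ˢ Finset.range M ×ˢ Finset.range M).filter
          (fun p => p.1 + p.2.1 + p.2.2 + 3 ≤ M),
          P * Q * (W p.1 * (r ^ (p.2.1 + p.2.2 + 2) * V p.1 p.2.1 p.2.2)) ≤
          ∑ p ∈ Finset.range M ×ˢ (Finset.range m ×ˢ Finset.range m),
          P * Q * (W p.1 * (r ^ (p.2.1 + p.2.2 + 2) * V p.1 p.2.1 p.2.2)) := by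
        refine Finset.sum_le_sum_of_ne_zero (fun p hp hne => ?_)
        obtain ⟨hp1, hp2⟩ := Finset.mem_filter.mp hp
        obtain ⟨T, e1, e2⟩ := p
        simp only at hp2 hne
        have hm : ¬ m ≤ T + e1 + e2 + 3 := by
          intro hm
          apply hne
          rw [hV T e1 e2 hm]; simp
        simp only [Finset.mem_product, Finset.mem_range]
        omega
      refine hg2.trans (le_of_eq ?_)
      rw [Finset.sum_product]
      refine Finset.sum_congr rfl (fun T _ => ?_)
      simp only [Finset.mul_sum]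
    calc H M ≤ P + P * ∑ T ∈ Finset.range M, L T * H T +
        ∑ p ∈ (Finset.range M ×ˢ Finset.range M ×ˢ Finset.range M).filter
          (fun p => p.1 + p.2.1 + p.2.2 + 3 ≤ M), V p.1 p.2.1 p.2.2 * H p.1 := hH M
      _ ≤ P * Q * 1 + ∑ T ∈ Finset.range M, P * Q * (W T * (P * L T)) +
          ∑ T ∈ Finset.range M, P * Q * (W T * ∑ e ∈ Finset.range m ×ˢ Finset.range m,
          r ^ (e.1 + e.2 + 2) * V T e.1 e.2) := by
          refine add_le_add (add_le_add ?_ h1) h2
          calc P = P * 1 * 1 := by ring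
            _ ≤ P * Q * 1 := by gcongr
      _ = P * Q * (1 + ∑ T ∈ Finset.range M, W T * w T) := by
          rw [add_assoc, ← Finset.sum_add_distrib, mul_add, Finset.mul_sum]
          congr 1
          refine Finset.sum_congr rfl (fun T _ => ?_)
          rw [hw]
          simp only
          ring
      _ = P * Q * W M := by rw [← hW]

end Pool.Agent.Work.MP_376faf_co_hw
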