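import Pool.Agent.Work.MP_376faf_co_hw.LstDec

/-! Module Window: windows of the renewal sequence u_r^2. -/

set_option autoImplicit false

namespace Pool.Agent.Work.MP_376faf_co_hw

open Pool.Agent.Work.MP_376faf_co_lower
open scoped ENNReal

/-- mass of pairs of bridges of span a without common prefix span strictly between K and a -/
noncomputable def hh (x : ℝ≥0∞) (K a : ℕ) : ℝ≥0∞ :=
  ∑' p : {p : BW a × BW a // ∀ s, K < s → s < a → ¬ Com p.1.1 p.2.1 s},
    x ^ p.1.1.1.length * x ^ p.1.2.1.length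

theorem w_sq (x : ℝ≥0∞) (r : ℕ) :
    uu x r ^ 2 = ∑' p : BW r × BW r, x ^ p.1.1.length * x ^ p.2.1.length := by
  rw [pow_two]
  unfold uu mass
  exact (tsum_mul (fun a : BW r => x ^ a.1.length) (fun a : BW r => x ^ a.1.length)).symm

/-- index set of the decomposition at a common prefix span in T -/
abbrev WI (K : ℕ) (T : Finset ℕ) (r : ℕ) : Type :=
  Σ a : {a // a ∈ T}, {p : BW a.1 × BW a.1 // ∀ s, K < s → s < a.1 → ¬ Com p.1.1 p.2.1 s} ×
    (BW (r - a.1) × BW (r - a.1))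

theorem wi_sum (x : ℝ≥0∞) (K : ℕ) (T : Finset ℕ) (r : ℕ) :
    ∑ a ∈ T, hh x K a * uu x (r - a) ^ 2 = ∑' z : WI K T r,
      (x ^ z.2.1.1.1.1.length * x ^ z.2.1.1.2.1.length) *
      (x ^ z.2.2.1.1.length * x ^ z.2.2.2.1.length) := by
  rw [ENNReal.tsum_sigma' (f := fun z : WI K T r =>
      (x ^ z.2.1.1.1.1.length * x ^ z.2.1.1.2.1.length) *
      (x ^ z.2.2.1.1.length * x ^ z.2.2.2.1.length)),
    ← Finset.tsum_subtype T (fun a => hh x K a * uu x (r - a) ^ 2)]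
  refine tsum_congr (fun a => ?_)
  rw [w_sq]
  unfold hh
  exact (tsum_mul (fun p : {p : BW a.1 × BW a.1 // ∀ s, K < s → s < a.1 → ¬ Com p.1.1 p.2.1 s} =>
      x ^ p.1.1.1.length * x ^ p.1.2.1.length)
    (fun p : BW (r - a.1) × BW (r - a.1) => x ^ p.1.1.length * x ^ p.2.1.length)).symm

def wiF {K : ℕ} {T : Finset ℕ} {r : ℕ} (hT : ∀ a ∈ T, a ≤ r) (z : WI K T r) : BW r × BW r :=
  (⟨z.2.1.1.1.1 ++ z.2.2.1.1, ld_catW z.2.1.1.1.2 z.2.2.1.2 (hT _ z.1.2)⟩,
   ⟨z.2.1.1.2.1 ++ z.2.2.2.1, ld_catW z.2.1.1.2.2 z.2.2.2.2 (hT _ z.1.2)⟩)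

theorem wiF_inj {K : ℕ} {T : Finset ℕ} {r : ℕ} (hT : ∀ a ∈ T, a ≤ r) (hK : ∀ a ∈ T, K < a) :
    Function.Injective (wiF (K := K) hT) := by
  rintro ⟨⟨a, ha⟩, ⟨⟨p, p'⟩, hp⟩, ⟨q, q'⟩⟩ ⟨⟨b, hb⟩, ⟨⟨l, l'⟩, hl⟩, ⟨m, m'⟩⟩ h
  have h1 : p.1 ++ q.1 = l.1 ++ m.1 := congrArg (fun z : BW r × BW r => z.1.1) h
  have h2 : p'.1 ++ q'.1 = l'.1 ++ m'.1 := congrArg (fun z : BW r × BW r => z.2.1) h
  have hab : a = b := by
    rcases lt_trichotomy a b with h3 | h3 | h3
    · exfalso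
      have hc : Com (p.1 ++ q.1) (p'.1 ++ q'.1) a :=
        (com_left p.2 p'.2 q.2.1 q'.2.1 le_rfl).2 (ld_self p.2 p'.2)
      rw [h1, h2] at hc
      exact hl a (hK a ha) h3 ((com_left l.2 l'.2 m.2.1 m'.2.1 h3.le).1 hc)
    · exact h3
    · exfalso
      have hc : Com (l.1 ++ m.1) (l'.1 ++ m'.1) b :=
        (com_left l.2 l'.2 m.2.1 m'.2.1 le_rfl).2 (ld_self l.2 l'.2)
      rw [← h1, ← h2] at hc
      exact hp b (hK b hb) h3 ((com_left p.2 p'.2 q.2.1 q'.2.1 h3.le).1 hc)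
  subst hab
  obtain ⟨h5, h6⟩ := levi_eq p.2.1 q.2.1 l.2.1 m.2.1 h1 (by rw [p.2.2, l.2.2])
  obtain ⟨h7, h8⟩ := levi_eq p'.2.1 q'.2.1 l'.2.1 m'.2.1 h2 (by rw [p'.2.2, l'.2.2])
  have e1 : p = l := Subtype.ext h5
  have e2 : q = m := Subtype.ext h6
  have e3 : p' = l' := Subtype.ext h7
  have e4 : q' = m' := Subtype.ext h8
  subst e1 e2 e3 e4
  rfl

theorem wiF_surj {K r : ℕ} (h : K < r) :
    Function.Surjective (wiF (K := K) (T := Finset.Ioc K r) (r := r)
      (fun _ ha => (Finset.mem_Ioc.1 ha).2)) := by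
  classical
  rintro ⟨⟨c, hc⟩, ⟨c', hc'⟩⟩
  have hex : ∃ a, K < a ∧ Com c c' a := ⟨r, h, ld_self hc hc'⟩
  have hle : Nat.find hex ≤ r := Nat.find_min' hex ⟨h, ld_self hc hc'⟩
  have hK : K < Nat.find hex := (Nat.find_spec hex).1
  have hcom : Com c c' (Nat.find hex) := (Nat.find_spec hex).2
  have hmin : ∀ s, K < s → s < Nat.find hex → ¬ Com c c' s := fun s h1 h2 h3 =>
    Nat.find_min hex h2 ⟨h1, h3⟩
  generalize Nat.find hex = t at hle hK hcom hmin
  obtain ⟨g, g', ⟨k, a, rfl, hk, ha, hks⟩, ⟨k', a', rfl, hk', ha', hks'⟩⟩ := hcom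
  have hkW : BridgeW t k := ⟨hk, by rw [hks]⟩
  have hkW' : BridgeW t k' := ⟨hk', by rw [hks']⟩
  have haW : BridgeW (r - t) a := by
    refine ⟨ha, ?_⟩
    have := hc.2
    rw [List.sum_append, Prod.fst_add, hkW.2] at this
    omega
  have haW' : BridgeW (r - t) a' := by
    refine ⟨ha', ?_⟩
    have := hc'.2
    rw [List.sum_append, Prod.fst_add, hkW'.2] at this
    omega
  refine ⟨⟨⟨t, Finset.mem_Ioc.2 ⟨hK, hle⟩⟩, ⟨(⟨k, hkW⟩, ⟨k', hkW'⟩), ?_⟩,
    (⟨a, haW⟩, ⟨a', haW'⟩)⟩, rfl⟩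
  intro s h1 h2 h3
  exact hmin s h1 h2 ((com_left hkW hkW' ha ha' h2.le).2 h3)

/-- decomposition at the first common prefix span larger than K -/
theorem first_common (x : ℝ≥0∞) {K r : ℕ} (h : K < r) :
    uu x r ^ 2 ≤ ∑ a ∈ Finset.Ioc K r, hh x K a * uu x (r - a) ^ 2 := by
  rw [wi_sum, w_sq]
  refine tsum_le_inj (Function.surjInv (wiF_surj h)) (Function.injective_surjInv _) ?_
  intro p
  have h1 := Function.surjInv_eq (wiF_surj h) p
  generalize Function.surjInv (wiF_surj h) p = z at h1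
  subst h1
  simp only [wiF, List.length_append]
  apply le_of_eq
  rw [pow_add, pow_add]
  ring

theorem common_le (x : ℝ≥0∞) (K R r : ℕ) :
    ∑ a ∈ (Finset.Ioc K R).filter (fun a => a ≤ r), hh x K a * uu x (r - a) ^ 2 ≤ uu x r ^ 2 := by
  rw [wi_sum, w_sq]
  refine tsum_le_inj (wiF (K := K) (T := (Finset.Ioc K R).filter (fun a => a ≤ r)) (r := r)
    (fun a ha => (Finset.mem_filter.1 ha).2)) (wiF_inj _ (fun a ha =>
      (Finset.mem_Ioc.1 (Finset.mem_filter.1 ha).1).1)) ?_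
  intro z
  simp only [wiF, List.length_append]
  apply le_of_eq
  rw [pow_add, pow_add]
  ring

theorem hh_sum_le_one {x : ℝ≥0∞} (hu : ∀ t, uu x t ≤ 1) (K R : ℕ) :
    ∑ a ∈ Finset.Ioc K R, hh x K a ≤ 1 := by
  set H := ∑ a ∈ Finset.Ioc K R, hh x K a with hH
  set W : ℕ → ℝ≥0∞ := fun n => ∑ r ∈ Finset.range (n + 1), uu x r ^ 2 with hW
  have hW0 : 1 ≤ W 0 := by
    simp only [hW, zero_add, Finset.range_one, Finset.sum_singleton]
    unfold uu mass
    refine one_le_pow₀ ?_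
    refine le_trans ?_ (ENNReal.le_tsum (⟨[], bridge_nil, by simp⟩ : {l // BridgeW 0 l}))
    simp
  have hstep : ∀ n, H * W n ≤ W (n + R) := by
    intro n
    have h1 : ∑ r ∈ Finset.range (n + R + 1),
        ∑ a ∈ (Finset.Ioc K R).filter (fun a => a ≤ r), hh x K a * uu x (r - a) ^ 2 ≤
        W (n + R) := Finset.sum_le_sum (fun r _ => common_le x K R r)
    refine le_trans ?_ h1
    simp only [Finset.sum_filter]
    rw [Finset.sum_comm, hH, Finset.sum_mul]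
    refine Finset.sum_le_sum (fun a ha => ?_)
    rw [Finset.mem_Ioc] at ha
    simp only [hW]
    rw [Finset.mul_sum, ← Finset.sum_filter]
    have h2 : ∑ i ∈ Finset.range (n + 1), hh x K a * uu x i ^ 2 =
        ∑ r ∈ (Finset.range (n + 1)).image (fun i => i + a), hh x K a * uu x (r - a) ^ 2 := by
      rw [Finset.sum_image (fun i _ j _ hij => by simpa using hij)]
      simp
    rw [h2]
    refine Finset.sum_le_sum_of_subset ?_
    intro r hr
    rw [Finset.mem_image] at hr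
    obtain ⟨i, hi, rfl⟩ := hr
    rw [Finset.mem_range] at hi
    rw [Finset.mem_filter, Finset.mem_range]
    constructor <;> omega
  have hpow : ∀ j, H ^ j ≤ W (j * R) := by
    intro j
    induction j with
    | zero => simpa using hW0
    | succ j ih =>
      rw [pow_succ', Nat.succ_mul]
      exact (mul_le_mul_right ih _).trans (hstep _)
  have hlin : ∀ n, W n ≤ (n : ℝ≥0∞) + 1 := by
    intro n
    simp only [hW]
    refine (Finset.sum_le_card_nsmul _ _ 1 (fun r _ => pow_le_one' (hu r) 2)).trans ?_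
    rw [Finset.card_range, nsmul_eq_mul, mul_one]
    push_cast
    exact le_rfl
  by_contra hcon
  push Not at hcon
  have hfin : H ≠ ⊤ := by
    have h1 := (hpow 1).trans (hlin _)
    rw [pow_one] at h1
    exact ne_top_of_le_ne_top (by simp) h1
  set q : ℝ := H.toReal with hq
  have hq1 : 1 < q := by
    rw [hq, ← ENNReal.toReal_one]
    exact (ENNReal.toReal_lt_toReal (by simp) hfin).2 hcon
  have hreal : ∀ j : ℕ, q ^ j ≤ (j : ℝ) * R + 1 := by
    intro j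
    have h1 := (hpow j).trans (hlin _)
    have h2 := ENNReal.toReal_mono
      (ENNReal.add_ne_top.2 ⟨ENNReal.natCast_ne_top _, ENNReal.one_ne_top⟩) h1
    rw [ENNReal.toReal_pow] at h2
    refine h2.trans ?_
    rw [ENNReal.toReal_add (ENNReal.natCast_ne_top _) ENNReal.one_ne_top, ENNReal.toReal_natCast,
      ENNReal.toReal_one, Nat.cast_mul]
  have ht : Filter.Tendsto (fun j : ℕ => ((R : ℝ) * ((j : ℝ) ^ 1 / q ^ j) +
      1 * ((j : ℝ) ^ 0 / q ^ j) : ℝ)) Filter.atTop (nhds ((R : ℝ) * 0 + 1 * 0)) :=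
    ((tendsto_pow_const_div_const_pow_of_one_lt 1 hq1).const_mul _).add
      ((tendsto_pow_const_div_const_pow_of_one_lt 0 hq1).const_mul _)
  have h3 : (1 : ℝ) ≤ (R : ℝ) * 0 + 1 * 0 := by
    refine ge_of_tendsto' ht (fun j => ?_)
    have h4 : 0 < q ^ j := by positivity
    have h5 := hreal j
    rw [pow_one, pow_zero, ← mul_div_assoc, ← mul_div_assoc, ← add_div, le_div_iff₀ h4]
    linarith
  norm_num at h3

theorem window {x : ℝ≥0∞} (hu : ∀ t, uu x t ≤ 1) (K L : ℕ) :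
    ∑ r ∈ Finset.Ioc K (K + L), uu x r ^ 2 ≤ ∑ r ∈ Finset.range L, uu x r ^ 2 := by
  have h1 : ∑ r ∈ Finset.Ioc K (K + L), uu x r ^ 2 ≤
      ∑ r ∈ Finset.Ioc K (K + L), ∑ a ∈ Finset.Ioc K (K + L),
        if a ≤ r then hh x K a * uu x (r - a) ^ 2 else 0 := by
    refine Finset.sum_le_sum (fun r hr => ?_)
    rw [Finset.mem_Ioc] at hr
    refine (first_common x hr.1).trans ?_
    rw [← Finset.sum_filter]
    refine Finset.sum_le_sum_of_subset ?_
    intro a ha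
    rw [Finset.mem_Ioc] at ha
    rw [Finset.mem_filter, Finset.mem_Ioc]
    exact ⟨⟨ha.1, ha.2.trans hr.2⟩, ha.2⟩
  refine h1.trans ?_
  rw [Finset.sum_comm]
  have h2 : ∀ a ∈ Finset.Ioc K (K + L), (∑ r ∈ Finset.Ioc K (K + L),
      if a ≤ r then hh x K a * uu x (r - a) ^ 2 else 0) ≤
      hh x K a * ∑ r ∈ Finset.range L, uu x r ^ 2 := by
    intro a ha
    rw [Finset.mem_Ioc] at ha
    rw [← Finset.sum_filter, ← Finset.mul_sum]
    refine mul_le_mul_right ?_ _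
    have h3 : ∑ r ∈ (Finset.Ioc K (K + L)).filter (fun r => a ≤ r), uu x (r - a) ^ 2 =
        ∑ i ∈ ((Finset.Ioc K (K + L)).filter (fun r => a ≤ r)).image (fun r => r - a),
          uu x i ^ 2 := by
      rw [Finset.sum_image]
      intro i hi j hj hij
      rw [Finset.mem_coe, Finset.mem_filter, Finset.mem_Ioc] at hi hj
      simp only at hij
      omega
    rw [h3]
    refine Finset.sum_le_sum_of_subset ?_
    intro i hi
    rw [Finset.mem_image] at hi
    obtain ⟨r, hr, rfl⟩ := hi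
    rw [Finset.mem_filter, Finset.mem_Ioc] at hr
    rw [Finset.mem_range]
    omega
  refine (Finset.sum_le_sum h2).trans ?_
  rw [← Finset.sum_mul]
  calc _ ≤ 1 * ∑ r ∈ Finset.range L, uu x r ^ 2 := mul_le_mul_left (hh_sum_le_one hu K _) _
    _ = _ := one_mul _

end Pool.Agent.Work.MP_376faf_co_hw
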