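import Pool.Agent.Work.MP_376faf_co_hw.LstDec
import Pool.Agent.Work.MP_376faf_co_hw.Window

/-! Module Renew: the sum of the inverse numbers of common prefix spans. -/

set_option autoImplicit false

namespace Pool.Agent.Work.MP_376faf_co_hw

open Pool.Agent.Work.MP_376faf_co_lower
open scoped ENNReal

/-- sum over pairs with spans T+d and T of the inverse number of common prefix spans in [0,V] -/
noncomputable def yy (x : ℝ≥0∞) (V S S' : ℕ) : ℝ≥0∞ :=
  ∑' p : BW S × BW S', x ^ p.1.1.length * x ^ p.2.1.length * ((nc V p.1.1 p.2.1 : ℝ≥0∞) + 1)⁻¹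

namespace Renew

/-- harmonic sums with n terms -/
noncomputable def harm (n : ℕ) : ℝ≥0∞ := ∑ j ∈ Finset.range n, ((j : ℝ≥0∞) + 1)⁻¹

theorem harm_mono {m n : ℕ} (h : m ≤ n) : harm m ≤ harm n :=
  Finset.sum_le_sum_of_subset (Finset.range_mono h)

theorem harm_succ (n : ℕ) : harm (n + 1) = harm n + ((n : ℝ≥0∞) + 1)⁻¹ :=
  Finset.sum_range_succ _ _

theorem sum_rank (S : Finset ℕ) : ∑ t ∈ S, (((S.filter (fun s => t < s)).card : ℝ≥0∞) + 1)⁻¹ =
    harm S.card := by
  classical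
  induction S using Finset.induction_on_min with
  | empty => simp [harm]
  | insert a S ha ih =>
    have hn : a ∉ S := fun h => (ha a h).false
    rw [Finset.sum_insert hn, Finset.card_insert_of_notMem hn, harm_succ, add_comm, ← ih]
    congr 1
    · refine Finset.sum_congr rfl (fun t ht => ?_)
      congr 3
      rw [Finset.filter_insert, if_neg (not_lt.2 (ha t ht).le)]
    · congr 3
      rw [Finset.filter_insert, if_neg (lt_irrefl _), Finset.filter_true_of_mem ha]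

theorem sum_rank_le (S : Finset ℕ) (n : ℕ) (hn : S.card ≤ n) (f : ℕ → ℕ)
    (hf : ∀ t ∈ S, (S.filter (fun s => t < s)).card ≤ f t) :
    ∑ t ∈ S, ((f t : ℝ≥0∞) + 1)⁻¹ ≤ harm n := by
  refine le_trans ?_ (harm_mono hn)
  rw [← sum_rank]
  refine Finset.sum_le_sum (fun t ht => ?_)
  rw [ENNReal.inv_le_inv]
  gcongr
  exact_mod_cast hf t ht

/-- sum over pairs -/
noncomputable def sumP (x : ℝ≥0∞) (A B : ℕ) (f : List Pt → List Pt → ℝ≥0∞) : ℝ≥0∞ :=
  ∑' p : BW A × BW B, x ^ p.1.1.length * x ^ p.2.1.length * f p.1.1 p.2.1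

theorem sumP_one (x : ℝ≥0∞) (A B : ℕ) : sumP x A B (fun _ _ => 1) = uu x A * uu x B := by
  unfold sumP
  simp only [mul_one]
  exact tsum_mul (fun a : BW A => x ^ a.1.length) (fun b : BW B => x ^ b.1.length)

theorem cat {A B : ℕ} {a b : List Pt} (ha : BridgeW A a) (hb : BridgeW B b) :
    BridgeW (B + A) (a ++ b) :=
  ⟨bridge_append ha.1 hb.1, by
    rw [List.sum_append, Prod.fst_add, ha.2, hb.2]
    push_cast
    ring⟩

theorem com_self {t A B : ℕ} {k k' c c' : List Pt} (hk : BridgeW t k) (hk' : BridgeW t k')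
    (hc : BridgeW A c) (hc' : BridgeW B c') : Com (k ++ c) (k' ++ c') t :=
  ⟨k.sum.2, k'.sum.2, ⟨k, c, rfl, hk.1, hc.1, Prod.ext hk.2 rfl⟩,
    ⟨k', c', rfl, hk'.1, hc'.1, Prod.ext hk'.2 rfl⟩⟩

open Classical in
/-- weight of t among the common prefix spans -/
noncomputable def gt (V t : ℕ) (q q' : List Pt) : ℝ≥0∞ :=
  if Com q q' t then
    ((((Finset.range (V + 1)).filter (fun s => t < s ∧ Com q q' s)).card : ℝ≥0∞) + 1)⁻¹
  else 0

theorem gt_sum (V : ℕ) (q q' : List Pt) : ∑ t ∈ Finset.range (V + 1), gt V t q q' ≤ hs V := by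
  classical
  unfold gt
  rw [← Finset.sum_filter]
  refine sum_rank_le _ (V + 1) ?_ _ ?_
  · refine (Finset.card_filter_le _ _).trans ?_
    rw [Finset.card_range]
  · intro t ht
    apply Finset.card_le_card
    intro s hs
    rw [Finset.mem_filter, Finset.mem_filter] at hs
    rw [Finset.mem_filter]
    exact ⟨hs.1.1, hs.2, hs.1.2⟩

theorem ins_le (x : ℝ≥0∞) (V A B t : ℕ) :
    uu x t ^ 2 * yy x V A B ≤ sumP x (A + t) (B + t) (gt V t) := by
  classical
  rw [sq, ← sumP_one]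
  unfold yy sumP
  rw [← tsum_mul]
  refine tsum_le_inj (fun r : (BW t × BW t) × (BW A × BW B) =>
    ((⟨r.1.1.1 ++ r.2.1.1, cat r.1.1.2 r.2.1.2⟩, ⟨r.1.2.1 ++ r.2.2.1, cat r.1.2.2 r.2.2.2⟩) :
      BW (A + t) × BW (B + t))) ?_ ?_
  · rintro ⟨⟨⟨k, hk⟩, ⟨k', hk'⟩⟩, ⟨⟨c, hc⟩, ⟨c', hc'⟩⟩⟩ ⟨⟨⟨l, hl⟩, ⟨l', hl'⟩⟩, ⟨⟨d, hd⟩, ⟨d', hd'⟩⟩⟩ h
    simp only [Subtype.mk.injEq, Prod.mk.injEq] at h
    obtain ⟨h1, h2⟩ := h
    obtain ⟨rfl, rfl⟩ := levi_eq hk.1 hc.1 hl.1 hd.1 h1 (by rw [hk.2, hl.2])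
    obtain ⟨rfl, rfl⟩ := levi_eq hk'.1 hc'.1 hl'.1 hd'.1 h2 (by rw [hk'.2, hl'.2])
    rfl
  · rintro ⟨⟨⟨k, hk⟩, ⟨k', hk'⟩⟩, ⟨⟨c, hc⟩, ⟨c', hc'⟩⟩⟩
    simp only [List.length_append, mul_one]
    rw [← mul_assoc, ← pow_add, ← pow_add, ← pow_add, ← pow_add]
    have e : k.length + k'.length + (c.length + c'.length) =
      k.length + c.length + (k'.length + c'.length) := by omega
    rw [e]
    refine mul_le_mul' le_rfl ?_
    unfold gt
    rw [if_pos (com_self hk hk' hc hc'), ENNReal.inv_le_inv]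
    refine add_le_add ?_ le_rfl
    have : ((Finset.range (V + 1)).filter (fun s => t < s ∧ Com (k ++ c) (k' ++ c') s)).card ≤
        nc V c c' := by
      unfold nc
      refine Finset.card_le_card_of_injOn (fun s => s - t) ?_ ?_
      · intro s hs
        simp only [Finset.coe_filter, Finset.mem_range, Set.mem_ofPred_eq] at hs
        simp only [Finset.coe_filter, Finset.mem_Icc, Set.mem_ofPred_eq]
        refine ⟨⟨by omega, by omega⟩, ?_⟩
        rw [← com_right hk hk' hc.1 hc'.1, Nat.add_sub_cancel' hs.2.1.le]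
        exact hs.2.2
      · intro s hs s' hs' h
        simp only [Finset.coe_filter, Finset.mem_range, Set.mem_ofPred_eq] at hs hs'
        simp only at h
        omega
    exact_mod_cast this

theorem sumP_sum {ι : Type*} (S : Finset ι) (x : ℝ≥0∞) (A B : ℕ)
    (f : ι → List Pt → List Pt → ℝ≥0∞) :
    ∑ i ∈ S, sumP x A B (f i) = sumP x A B (fun p q => ∑ i ∈ S, f i p q) := by
  unfold sumP
  rw [← Summable.tsum_finsetSum (fun _ _ => ENNReal.summable)]
  simp only [Finset.mul_sum]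

theorem sumP_mono {x : ℝ≥0∞} {A B : ℕ} {f g : List Pt → List Pt → ℝ≥0∞}
    (h : ∀ p q, f p q ≤ g p q) : sumP x A B f ≤ sumP x A B g :=
  ENNReal.tsum_le_tsum (fun p => mul_le_mul' le_rfl (h p.1.1 p.2.1))

theorem sumP_const (x : ℝ≥0∞) (A B : ℕ) (c : ℝ≥0∞) :
    sumP x A B (fun _ _ => c) = c * (uu x A * uu x B) := by
  rw [← sumP_one]
  unfold sumP
  rw [← ENNReal.tsum_mul_left]
  exact tsum_congr (fun p => by rw [mul_one, mul_comm])

theorem two_mul_le_sq (a b : ℝ≥0∞) : 2 * (a * b) ≤ a ^ 2 + b ^ 2 := by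
  wlog h : a ≤ b generalizing a b
  · rw [mul_comm a b, add_comm]
    exact this b a (le_of_not_ge h)
  obtain ⟨c, rfl⟩ := exists_add_of_le h
  calc 2 * (a * (a + c)) ≤ 2 * (a * (a + c)) + c ^ 2 := le_self_add
    _ = a ^ 2 + (a + c) ^ 2 := by ring

theorem sum_union_le' (S T : Finset ℕ) (f : ℕ → ℝ≥0∞) :
    ∑ i ∈ S ∪ T, f i ≤ ∑ i ∈ S, f i + ∑ i ∈ T, f i := by
  rw [← Finset.sum_union_inter]
  exact le_self_add

end Renew

open Renew

/-- insertion of a pair of span t ≤ V in front -/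
theorem insert_count (x : ℝ≥0∞) (V d : ℕ) (A B : ℕ) :
    (∑ t ∈ Finset.range (V + 1), uu x t ^ 2) * ∑ T ∈ Finset.Ico A B, yy x V (T + d) T ≤
      hs V * ∑ T ∈ Finset.Ico A (B + V), uu x (T + d) * uu x T := by
  classical
  rw [Finset.sum_mul]
  have h1 : ∀ t ∈ Finset.range (V + 1), uu x t ^ 2 * (∑ T ∈ Finset.Ico A B, yy x V (T + d) T) ≤
      ∑ T ∈ Finset.Ico A (B + V), sumP x (T + d) T (gt V t) := by
    intro t ht
    rw [Finset.mem_range] at ht
    rw [Finset.mul_sum]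
    calc ∑ T ∈ Finset.Ico A B, uu x t ^ 2 * yy x V (T + d) T ≤
        ∑ T ∈ Finset.Ico A B, sumP x (T + t + d) (T + t) (gt V t) := by
          refine Finset.sum_le_sum (fun T _ => ?_)
          have := ins_le x V (T + d) T t
          rwa [show T + d + t = T + t + d by omega] at this
      _ = ∑ T ∈ Finset.Ico (A + t) (B + t), sumP x (T + d) T (gt V t) :=
          Finset.sum_Ico_add' (fun T => sumP x (T + d) T (gt V t)) A B t
      _ ≤ _ := by
          refine Finset.sum_le_sum_of_subset ?_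
          intro T hT
          rw [Finset.mem_Ico] at hT ⊢
          omega
  refine (Finset.sum_le_sum h1).trans ?_
  rw [Finset.sum_comm, Finset.mul_sum]
  refine Finset.sum_le_sum (fun T _ => ?_)
  rw [sumP_sum, ← sumP_const]
  exact sumP_mono (fun q q' => gt_sum V q q')

theorem renew {x : ℝ≥0∞} (hx : x ≠ 0) (hu : ∀ t, uu x t ≤ 1) {N : ℕ} (hN : 1 ≤ N) (d : ℕ) :
    ∑ T ∈ Finset.Ico N (2 * N), yy x (N / 2) (T + d) T ≤ 6 * hs (N / 2) := by
  set w0 := N / 2 with hw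
  set U := ∑ t ∈ Finset.range (w0 + 1), uu x t ^ 2 with hU
  have hU1 : U ≠ 0 := by
    have h0 : uu x 0 ^ 2 ≤ U :=
      Finset.single_le_sum (f := fun t => uu x t ^ 2) (fun _ _ => zero_le)
        (Finset.mem_range.2 (Nat.succ_pos _))
    intro h
    rw [h] at h0
    exact pow_ne_zero 2 (uu_ne_zero hx 0) (le_antisymm h0 zero_le)
  have hUt : U ≠ ⊤ := by
    rw [hU, Ne, ENNReal.sum_eq_top]
    push Not
    intro t _
    exact ENNReal.pow_ne_top (ne_top_of_le_ne_top ENNReal.one_ne_top (hu t))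
  have h3 : ∀ e, ∑ T ∈ Finset.Ico N (2 * N + w0), uu x (T + e) ^ 2 ≤ 3 * U := by
    intro e
    rw [Finset.sum_Ico_add' (fun T => uu x T ^ 2) N (2 * N + w0) e]
    have w1 := window hu (N + e - 1) (w0 + 1)
    have w2 := window hu (N + e - 1 + (w0 + 1)) (w0 + 1)
    have w3 := window hu (N + e - 1 + (w0 + 1) + (w0 + 1)) (w0 + 1)
    have hsub : Finset.Ico (N + e) (2 * N + w0 + e) ⊆
        Finset.Ioc (N + e - 1) (N + e - 1 + (w0 + 1)) ∪
        (Finset.Ioc (N + e - 1 + (w0 + 1)) (N + e - 1 + (w0 + 1) + (w0 + 1)) ∪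
        Finset.Ioc (N + e - 1 + (w0 + 1) + (w0 + 1))
          (N + e - 1 + (w0 + 1) + (w0 + 1) + (w0 + 1))) := by
      intro T hT
      simp only [Finset.mem_union, Finset.mem_Ioc, Finset.mem_Ico] at hT ⊢
      omega
    refine (Finset.sum_le_sum_of_subset hsub).trans ?_
    refine (sum_union_le' _ _ _).trans ((add_le_add w1 ((sum_union_le' _ _ _).trans
      (add_le_add w2 w3))).trans (le_of_eq ?_))
    rw [← hU]
    ring
  have h2 : ∑ T ∈ Finset.Ico N (2 * N + w0), uu x (T + d) * uu x T ≤ 3 * U := by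
    have h4 : 2 * ∑ T ∈ Finset.Ico N (2 * N + w0), uu x (T + d) * uu x T ≤ 2 * (3 * U) := by
      rw [Finset.mul_sum]
      calc ∑ T ∈ Finset.Ico N (2 * N + w0), 2 * (uu x (T + d) * uu x T) ≤
            ∑ T ∈ Finset.Ico N (2 * N + w0), (uu x (T + d) ^ 2 + uu x (T + 0) ^ 2) :=
              Finset.sum_le_sum (fun T _ => two_mul_le_sq _ _)
        _ ≤ 3 * U + 3 * U := by
              rw [Finset.sum_add_distrib]
              exact add_le_add (h3 d) (h3 0)
        _ = _ := (two_mul _).symm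
    exact (ENNReal.mul_le_mul_iff_right two_ne_zero ENNReal.ofNat_ne_top).1 h4
  have h1 := (insert_count x w0 d N (2 * N)).trans (mul_le_mul' le_rfl h2)
  rw [← hU, mul_comm (hs _), mul_right_comm, mul_comm (3 * hs _)] at h1
  refine ((ENNReal.mul_le_mul_iff_right hU1 hUt).1 h1).trans (mul_le_mul' ?_ le_rfl)
  norm_num

theorem hs_le {m k : ℕ} (h : m + 1 ≤ 2 ^ k) : hs m ≤ (k : ℝ≥0∞) + 1 := by
  have key : ∀ k : ℕ, harm (2 ^ k) ≤ k + 1 := by
    intro k
    induction k with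
    | zero => simp [harm]
    | succ k ih =>
      have h : harm (2 ^ (k + 1)) ≤ harm (2 ^ k) + 1 := by
        unfold harm
        rw [← Finset.sum_range_add_sum_Ico (fun j : ℕ => ((j : ℝ≥0∞) + 1)⁻¹)
          (Nat.pow_le_pow_right two_pos (Nat.le_succ k))]
        refine add_le_add le_rfl ?_
        calc ∑ j ∈ Finset.Ico ((2 : ℕ) ^ k) (2 ^ (k + 1)), ((j : ℝ≥0∞) + 1)⁻¹ ≤
            ∑ j ∈ Finset.Ico ((2 : ℕ) ^ k) (2 ^ (k + 1)), (((2 ^ k : ℕ) : ℝ≥0∞))⁻¹ := by
              refine Finset.sum_le_sum (fun j hj => ?_)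
              rw [ENNReal.inv_le_inv]
              rw [Finset.mem_Ico] at hj
              exact (by exact_mod_cast hj.1 : ((2 ^ k : ℕ) : ℝ≥0∞) ≤ j).trans le_self_add
          _ = 1 := by
              rw [Finset.sum_const, Nat.card_Ico, nsmul_eq_mul, pow_succ,
                show 2 ^ k * 2 - 2 ^ k = 2 ^ k by omega]
              exact ENNReal.mul_inv_cancel (by simp) (ENNReal.natCast_ne_top _)
      refine h.trans ((add_le_add ih le_rfl).trans (le_of_eq ?_))
      push_cast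
      ring
  exact (harm_mono h).trans (key k)

end Pool.Agent.Work.MP_376faf_co_hw
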