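import Pool.Agent.Work.MP_376faf_co_hw.SA
import Pool.Agent.Work.MP_376faf_co_hw.Blocks

/-! Module SAapp: the probability that the order is preserved, by the number of common spans. -/

set_option autoImplicit false

namespace Pool.Agent.Work.MP_376faf_co_hw

open Pool.Agent.Work.MP_376faf_co_lower
open scoped ENNReal

/-- total weight of ordered pairs with n common prefix spans -/
noncomputable def pmn (x : ℝ≥0∞) (t n : ℕ) : ℝ≥0∞ :=
  ∑' p : {p : BW t × BW t // nc t p.1.1 p.2.1 = n ∧ Pos t p.1.1 p.2.1},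
    x ^ p.1.1.1.length * x ^ p.1.2.1.length

noncomputable def vvn (x : ℝ≥0∞) (t n : ℕ) : ℝ≥0∞ :=
  ∑' p : {p : BW t × BW t // nc t p.1.1 p.2.1 = n}, x ^ p.1.1.1.length * x ^ p.1.2.1.length

open Classical in
theorem pmn_le_sum (x : ℝ≥0∞) (t n : ℕ) : pmn x t n ≤ ∑' f : Fin n → BL.Blk,
    (BL.HH x t f * (if BL.P1 (fun j => BL.dB (f j)) then 1 else 0) +
      BL.HH x t f * (if BL.P1 (fun j => - BL.dB (f j)) then 1 else 0)) := by
  have hex : ∀ p : {p : BW t × BW t // nc t p.1.1 p.2.1 = n ∧ Pos t p.1.1 p.2.1},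
      ∃ f : Fin n → BL.Blk, BL.cat (List.ofFn f) = (p.1.1.1, p.1.2.1) := by
    intro p
    obtain ⟨bs, hbs⟩ := BL.exists_cat (t := t) (p := (p.1.1.1, p.1.2.1)) ⟨p.1.1.2, p.1.2.2⟩
    have h1 : BL.sp bs = t := by
      have h2 := (BL.cat_BB bs).1.2
      rw [hbs] at h2
      have h3 := p.1.1.2.2
      simp only at h2
      rw [h3] at h2
      exact_mod_cast h2.symm
    have h2 : bs.length = n := by
      rw [← BL.nc_cat, hbs, h1]
      exact p.2.1
    subst h2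
    exact ⟨fun i => bs.get i, by rw [List.ofFn_get]; exact hbs⟩
  choose f hf using hex
  unfold pmn
  refine tsum_le_inj f ?_ ?_
  · intro p q hpq
    have h1 := hf p
    rw [hpq, hf q] at h1
    simp only [Prod.mk.injEq] at h1
    exact Subtype.ext (Prod.ext (Subtype.ext h1.1.symm) (Subtype.ext h1.2.symm))
  · intro p
    have h1 : ∑ i, BL.sB (f p i) = t := by
      rw [← BL.sp_ofFn]
      have h2 := (BL.cat_BB (List.ofFn (f p))).1.2
      rw [hf p] at h2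
      have h3 := p.1.1.2.2
      simp only at h2
      rw [h3] at h2
      exact_mod_cast h2.symm
    have h2 : ∑ i, BL.pl (f p i).1 = p.1.1.1.length + p.1.2.1.length := by
      rw [← BL.pl_ofFn, hf p]
      rfl
    have h3 : BL.HH x t (f p) = x ^ p.1.1.1.length * x ^ p.1.2.1.length := by
      unfold BL.HH
      rw [if_pos h1, h2, pow_add]
    rw [← h3]
    have hpos : Pos t (BL.cat (List.ofFn (f p))).1 (BL.cat (List.ofFn (f p))).2 := by
      rw [hf p]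
      exact p.2.2
    rcases BL.pos_P1 h1 hpos with h4 | h4
    · rw [if_pos h4, mul_one]
      exact le_self_add
    · rw [if_pos h4, mul_one]
      exact le_add_self

theorem sum_le_vvn (x : ℝ≥0∞) (t n : ℕ) : ∑' f : Fin n → BL.Blk, BL.HH x t f ≤ vvn x t n := by
  classical
  have h1 : ∑' f : Fin n → BL.Blk, BL.HH x t f =
      ∑' f : {f : Fin n → BL.Blk // ∑ i, BL.sB (f i) = t}, BL.HH x t f.1 := by
    refine Eq.trans ?_ (tsum_subtype {f : Fin n → BL.Blk | ∑ i, BL.sB (f i) = t} (BL.HH x t)).symm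
    refine tsum_congr (fun f => ?_)
    by_cases h : ∑ i, BL.sB (f i) = t
    · rw [Set.indicator_of_mem (by exact h)]
    · rw [Set.indicator_of_notMem (by exact h)]
      unfold BL.HH
      rw [if_neg h]
  rw [h1]
  unfold vvn
  have hW : ∀ f : {f : Fin n → BL.Blk // ∑ i, BL.sB (f i) = t},
      BridgeW t (BL.cat (List.ofFn f.1)).1 ∧ BridgeW t (BL.cat (List.ofFn f.1)).2 := by
    intro f
    have := BL.cat_BB (List.ofFn f.1)
    rw [BL.sp_ofFn, f.2] at this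
    exact this
  refine tsum_le_inj (fun f : {f : Fin n → BL.Blk // ∑ i, BL.sB (f i) = t} =>
    (⟨(⟨(BL.cat (List.ofFn f.1)).1, (hW f).1⟩, ⟨(BL.cat (List.ofFn f.1)).2, (hW f).2⟩), by
      have := BL.nc_cat (List.ofFn f.1)
      rw [BL.sp_ofFn, f.2, List.length_ofFn] at this
      exact this⟩ : {p : BW t × BW t // nc t p.1.1 p.2.1 = n})) ?_ ?_
  · intro f g hfg
    have e := congrArg (fun q : {p : BW t × BW t // nc t p.1.1 p.2.1 = n} =>
      ((q.1.1.1, q.1.2.1) : BL.PP)) hfg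
    exact Subtype.ext (List.ofFn_injective (BL.cat_inj e))
  · intro f
    unfold BL.HH
    rw [if_pos f.2, ← BL.pl_ofFn, ← pow_add]
    rfl

theorem pmn_le (x : ℝ≥0∞) (t n : ℕ) : pmn x t n ^ 2 * ((n : ℝ≥0∞) + 1) ≤ 4 * vvn x t n ^ 2 := by
  classical
  have h1 := pmn_le_sum x t n
  rw [ENNReal.tsum_add, BL.avg_neg (BL.HH x t) (BL.HH_act x t)] at h1
  have h2 := BL.avg (BL.HH x t) (BL.HH_act x t) (n := n)
  set A := ∑' f : Fin n → BL.Blk,
    BL.HH x t f * (if BL.P1 (fun j => BL.dB (f j)) then 1 else 0) with hA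
  set N : ℝ≥0∞ := ((n.factorial * 2 ^ n : ℕ) : ℝ≥0∞) with hN
  have hN0 : N ≠ 0 := by
    rw [hN]
    have : n.factorial * 2 ^ n ≠ 0 := by positivity
    exact_mod_cast this
  have hNt : N ≠ ⊤ := ENNReal.natCast_ne_top _
  have h3 : N * pmn x t n ≤ 2 * (SA.dfac n : ℝ≥0∞) * vvn x t n := by
    calc N * pmn x t n ≤ N * (A + A) := mul_le_mul_right h1 _
      _ = 2 * (N * A) := by ring
      _ ≤ 2 * ((SA.dfac n : ℝ≥0∞) * vvn x t n) :=
          mul_le_mul_right (h2.trans (mul_le_mul_right (sum_le_vvn x t n) _)) _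
      _ = _ := by ring
  have h4 : ((SA.dfac n : ℝ≥0∞)) ^ 2 * ((n : ℝ≥0∞) + 1) ≤ N ^ 2 := by
    rw [hN]
    have := SA.dfac_sq n
    exact_mod_cast this
  have h5 : N ^ 2 * (pmn x t n ^ 2 * ((n : ℝ≥0∞) + 1)) ≤ N ^ 2 * (4 * vvn x t n ^ 2) := by
    calc N ^ 2 * (pmn x t n ^ 2 * ((n : ℝ≥0∞) + 1))
        = (N * pmn x t n) ^ 2 * ((n : ℝ≥0∞) + 1) := by ring
      _ ≤ (2 * (SA.dfac n : ℝ≥0∞) * vvn x t n) ^ 2 * ((n : ℝ≥0∞) + 1) :=
          mul_le_mul_left (pow_le_pow_left' h3 2) _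
      _ = ((SA.dfac n : ℝ≥0∞) ^ 2 * ((n : ℝ≥0∞) + 1)) * (4 * vvn x t n ^ 2) := by ring
      _ ≤ N ^ 2 * (4 * vvn x t n ^ 2) := mul_le_mul_left h4 _
  exact (ENNReal.mul_le_mul_iff_right (pow_ne_zero 2 hN0) (ENNReal.pow_ne_top hNt)).1 h5

/-- arithmetic and geometric mean -/
theorem amgm {X P Q : ℝ≥0∞} (h : X ^ 2 ≤ P * Q) : 2 * X ≤ P + Q := by
  by_cases hP : P = ⊤
  · simp [hP]
  by_cases hQ : Q = ⊤
  · simp [hQ]
  have hX : X ≠ ⊤ := by
    rintro rfl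
    have : P * Q = ⊤ := by
      rw [← top_le_iff]
      refine le_trans ?_ h
      simp
    exact ENNReal.mul_ne_top hP hQ this
  lift P to NNReal using hP
  lift Q to NNReal using hQ
  lift X to NNReal using hX
  have h1 : X ^ 2 ≤ P * Q := by exact_mod_cast h
  have h2 : 2 * X ≤ P + Q := by
    rw [← NNReal.coe_le_coe] at h1 ⊢
    push_cast at h1 ⊢
    nlinarith [sq_nonneg ((P : ℝ) - Q), P.2, Q.2, X.2, sq_nonneg ((P : ℝ) + Q - 2 * X),
      sq_nonneg ((P : ℝ) + Q + 2 * X)]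
  exact_mod_cast h2

/-- Cauchy-Schwarz -/
theorem cs_tsum {ι : Type*} (A B C : ι → ℝ≥0∞) (h : ∀ i, A i ^ 2 ≤ B i * C i) :
    (∑' i, A i) ^ 2 ≤ (∑' i, B i) * ∑' i, C i := by
  have h1 : ∀ i j, 2 * (A i * A j) ≤ B i * C j + B j * C i := by
    intro i j
    apply amgm
    calc (A i * A j) ^ 2 = A i ^ 2 * A j ^ 2 := by ring
      _ ≤ (B i * C i) * (B j * C j) := mul_le_mul' (h i) (h j)
      _ = _ := by ring
  have h2 : 2 * (∑' i, A i) ^ 2 ≤ 2 * ((∑' i, B i) * ∑' i, C i) := by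
    calc 2 * (∑' i, A i) ^ 2 = ∑' p : ι × ι, 2 * (A p.1 * A p.2) := by
          rw [ENNReal.tsum_mul_left, tsum_mul A A, sq]
      _ ≤ ∑' p : ι × ι, (B p.1 * C p.2 + B p.2 * C p.1) :=
          ENNReal.tsum_le_tsum (fun p => h1 p.1 p.2)
      _ = (∑' i, B i) * (∑' i, C i) + (∑' i, C i) * ∑' i, B i := by
          rw [ENNReal.tsum_add, tsum_mul B C]
          congr 1
          rw [← tsum_mul C B]
          exact tsum_congr (fun p => mul_comm _ _)
      _ = _ := by ring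
  exact (ENNReal.mul_le_mul_iff_right (by norm_num) (by norm_num)).1 h2

theorem tsum_fiber {α : Type*} (φ : α → ℕ) (w : α → ℝ≥0∞) :
    ∑' a, w a = ∑' n : ℕ, ∑' a : {a // φ a = n}, w a.1 := by
  rw [← (Equiv.sigmaFiberEquiv φ).tsum_eq w, ENNReal.tsum_sigma']
  rfl

theorem pm_eq (x : ℝ≥0∞) (t : ℕ) : pm x t = ∑' n, pmn x t n := by
  classical
  unfold pm
  rw [tsum_fiber (fun p : BW t × BW t => nc t p.1.1 p.2.1)]
  refine tsum_congr (fun n => ?_)
  unfold pmn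
  refine Eq.trans ?_ (tsum_subtype {p : BW t × BW t | nc t p.1.1 p.2.1 = n ∧ Pos t p.1.1 p.2.1}
    (fun p => x ^ p.1.1.length * x ^ p.2.1.length)).symm
  have := tsum_subtype {p : BW t × BW t | nc t p.1.1 p.2.1 = n}
    (fun p => if Pos t p.1.1 p.2.1 then x ^ p.1.1.length * x ^ p.2.1.length else 0)
  refine this.trans ?_
  refine tsum_congr (fun p => ?_)
  by_cases h1 : nc t p.1.1 p.2.1 = n
  · by_cases h2 : Pos t p.1.1 p.2.1
    · rw [Set.indicator_of_mem (by exact h1), Set.indicator_of_mem (by exact ⟨h1, h2⟩), if_pos h2]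
    · rw [Set.indicator_of_mem (by exact h1), Set.indicator_of_notMem (fun h => h2 h.2),
        if_neg h2]
  · rw [Set.indicator_of_notMem (by exact h1), Set.indicator_of_notMem (fun h => h1 h.1)]

theorem uu_sq (x : ℝ≥0∞) (t : ℕ) : uu x t ^ 2 =
    ∑' p : BW t × BW t, x ^ p.1.1.length * x ^ p.2.1.length := by
  rw [sq, tsum_mul (fun a : BW t => x ^ a.1.length) (fun a : BW t => x ^ a.1.length)]
  rfl

theorem th_sq {x : ℝ≥0∞} (_hx : x ≠ 0) {t : ℕ} (hu : uu x t ≤ 1) : th x t ^ 2 * uu x t ^ 2 ≤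
    ∑' p : BW t × BW t, x ^ p.1.1.length * x ^ p.2.1.length *
      (4 / ((nc t p.1.1 p.2.1 : ℝ≥0∞) + 1)) := by
  have hut : uu x t ≠ ⊤ := ne_top_of_le_ne_top ENNReal.one_ne_top hu
  have h1 : ∑' p : BW t × BW t, x ^ p.1.1.length * x ^ p.2.1.length *
      (4 / ((nc t p.1.1 p.2.1 : ℝ≥0∞) + 1)) =
      ∑' n : ℕ, (4 / ((n : ℝ≥0∞) + 1)) * vvn x t n := by
    rw [tsum_fiber (fun p : BW t × BW t => nc t p.1.1 p.2.1)]
    refine tsum_congr (fun n => ?_)
    unfold vvn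
    rw [← ENNReal.tsum_mul_left]
    refine tsum_congr (fun p => ?_)
    rw [p.2, mul_comm]
  have h2 : uu x t ^ 2 = ∑' n, vvn x t n := by
    rw [uu_sq, tsum_fiber (fun p : BW t × BW t => nc t p.1.1 p.2.1)]
    rfl
  have h3 : pm x t ^ 2 ≤ uu x t ^ 2 * ∑' n : ℕ, (4 / ((n : ℝ≥0∞) + 1)) * vvn x t n := by
    rw [pm_eq, h2]
    refine cs_tsum _ _ _ (fun n => ?_)
    have h4 := pmn_le x t n
    have h5 : ((n : ℝ≥0∞) + 1) ≠ 0 := by simp
    have h6 : ((n : ℝ≥0∞) + 1) ≠ ⊤ := by simp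
    have h7 : pmn x t n ^ 2 ≤ 4 * vvn x t n ^ 2 / ((n : ℝ≥0∞) + 1) := by
      rw [ENNReal.le_div_iff_mul_le (Or.inl h5) (Or.inl h6)]
      exact h4
    refine h7.trans (le_of_eq ?_)
    rw [div_eq_mul_inv, div_eq_mul_inv]
    ring
  rw [h1]
  by_cases h0 : uu x t = 0
  · rw [h0]
    simp
  have hu2 : uu x t ^ 2 ≠ 0 := pow_ne_zero 2 h0
  have hu2t : uu x t ^ 2 ≠ ⊤ := ENNReal.pow_ne_top hut
  have h4 : th x t ^ 2 * uu x t ^ 2 = pm x t ^ 2 / uu x t ^ 2 := by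
    unfold th
    rw [div_eq_mul_inv, mul_pow, sq ((uu x t ^ 2)⁻¹), div_eq_mul_inv, mul_assoc, mul_assoc,
      ENNReal.inv_mul_cancel hu2 hu2t, mul_one]
  rw [h4]
  exact ENNReal.div_le_of_le_mul' h3

end Pool.Agent.Work.MP_376faf_co_hw
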