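import Pool.Agent.Work.MP_376faf_co_hw.LstDec
import Pool.Agent.Work.MP_376faf_co_hw.SAapp

/-! Module Symm: the symmetrisation and the bound for zz by numbers of common prefix spans. -/

set_option autoImplicit false

namespace Pool.Agent.Work.MP_376faf_co_hw

open Pool.Agent.Work.MP_376faf_co_lower
open scoped ENNReal

theorem nonempty_BW (t : ℕ) : Nonempty (BW t) := by
  by_contra h
  rw [not_nonempty_iff] at h
  refine uu_ne_zero (x := 1) one_ne_zero t ?_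
  unfold uu mass
  exact tsum_empty

theorem pair_sq (x : ℝ≥0∞) (t : ℕ) :
    ∑' k : BW t × BW t, x ^ k.1.1.length * x ^ k.2.1.length = uu x t ^ 2 := by
  rw [ENNReal.tsum_prod', sq]
  simp only [ENNReal.tsum_mul_left]
  rw [ENNReal.tsum_mul_right]
  rfl

theorem th_mul {x : ℝ≥0∞} (hx : x ≠ 0) {t : ℕ} (hu : uu x t ≤ 1) : th x t * uu x t ^ 2 = pm x t := by
  unfold th
  refine ENNReal.div_mul_cancel (pow_ne_zero 2 (uu_ne_zero hx t)) ?_
  exact ENNReal.pow_ne_top (ne_top_of_le_ne_top ENNReal.one_ne_top hu)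

open Classical in
theorem symm {x : ℝ≥0∞} (hx : x ≠ 0) (hu : ∀ t, uu x t ≤ 1) {S S' W : ℕ} (hW : W ≤ S)
    (hW' : W ≤ S') (f : List Pt → List Pt → ℝ≥0∞)
    (hf : ∀ t ≤ W, ∀ k l k' l' a a' : List Pt, BridgeW t k → BridgeW t l → BridgeW t k' →
      BridgeW t l' → BridgeW (S - t) a → BridgeW (S' - t) a' →
      f (k ++ a) (k' ++ a') = f (l ++ a) (l' ++ a')) :
    ∑' p : BW S × BW S', x ^ p.1.1.length * x ^ p.2.1.length *
      (if Pos W p.1.1 p.2.1 then f p.1.1 p.2.1 else 0) =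
    ∑' p : BW S × BW S', x ^ p.1.1.length * x ^ p.2.1.length *
      (th x (lst W p.1.1 p.2.1) * f p.1.1 p.2.1) := by
  rw [lst_dec hW hW' (fun a b => x ^ a.length * x ^ b.length * (if Pos W a b then f a b else 0)),
    lst_dec hW hW' (fun a b => x ^ a.length * x ^ b.length * (th x (lst W a b) * f a b))]
  refine Finset.sum_congr rfl fun t ht => ?_
  have ht' : t ≤ W := by rw [Finset.mem_range] at ht; omega
  refine tsum_congr fun q => ?_
  obtain ⟨k0⟩ := nonempty_BW t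
  set f0 := f (k0.1 ++ q.1.1.1) (k0.1 ++ q.1.2.1) with hf0
  have hfk : ∀ k : BW t × BW t, f (k.1.1 ++ q.1.1.1) (k.2.1 ++ q.1.2.1) = f0 := fun k =>
    hf t ht' _ _ _ _ _ _ k.1.2 k0.2 k.2.2 k0.2 q.1.1.2 q.1.2.2
  have e1 : ∀ k : BW t × BW t, x ^ (k.1.1 ++ q.1.1.1).length * x ^ (k.2.1 ++ q.1.2.1).length *
      (if Pos W (k.1.1 ++ q.1.1.1) (k.2.1 ++ q.1.2.1) then
        f (k.1.1 ++ q.1.1.1) (k.2.1 ++ q.1.2.1) else 0) =
      x ^ q.1.1.1.length * x ^ q.1.2.1.length * f0 *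
        (if Pos t k.1.1 k.2.1 then x ^ k.1.1.length * x ^ k.2.1.length else 0) := by
    intro k
    rw [hfk k, List.length_append, List.length_append, pow_add, pow_add]
    have hp := pos_cat k.1.2 k.2.2 q.1.1.2.1 q.1.2.2.1 ht' q.2
    by_cases h : Pos t k.1.1 k.2.1
    · rw [if_pos h, if_pos (hp.2 h)]; ring
    · rw [if_neg h, if_neg (fun h' => h (hp.1 h'))]; ring
  have e2 : ∀ k : BW t × BW t, x ^ (k.1.1 ++ q.1.1.1).length * x ^ (k.2.1 ++ q.1.2.1).length *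
      (th x (lst W (k.1.1 ++ q.1.1.1) (k.2.1 ++ q.1.2.1)) *
        f (k.1.1 ++ q.1.1.1) (k.2.1 ++ q.1.2.1)) =
      x ^ q.1.1.1.length * x ^ q.1.2.1.length * f0 * (th x t *
        (x ^ k.1.1.length * x ^ k.2.1.length)) := by
    intro k
    rw [hfk k, lst_cat k.1.2 k.2.2 q.1.1.2.1 q.1.2.2.1 ht' q.2, List.length_append,
      List.length_append, pow_add, pow_add]
    ring
  simp only [e1, e2]
  rw [ENNReal.tsum_mul_left, ENNReal.tsum_mul_left, ENNReal.tsum_mul_left, pair_sq,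
    th_mul hx (hu t)]
  rfl

theorem zz_le {x : ℝ≥0∞} (hx : x ≠ 0) (hu : ∀ t, uu x t ≤ 1) {S S' : ℕ} (h : S' ≤ S) :
    zz x S S' ≤ ∑' p : BW S × BW S', x ^ p.1.1.length * x ^ p.2.1.length *
      (4 / ((nc (S' / 2) p.1.1 p.2.1 : ℝ≥0∞) + 1)) := by
  have hr : zz x S S' = ∑' p : BW S × BW S', x ^ p.1.1.length * x ^ p.2.1.length *
      th x (lst (S' / 2) p.1.1 p.2.1) ^ 2 := by
    unfold zz
    let e : BW S × BW S' ≃ BW S × BW S' :=
      { toFun := fun p => (⟨rb p.1.1, rb_W p.1.2⟩, p.2)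
        invFun := fun p => (⟨rb p.1.1, rb_W p.1.2⟩, p.2)
        left_inv := fun p => Prod.ext (Subtype.ext (rb_rb p.1.1)) rfl
        right_inv := fun p => Prod.ext (Subtype.ext (rb_rb p.1.1)) rfl }
    rw [← e.tsum_eq (fun p : BW S × BW S' => x ^ p.1.1.length * x ^ p.2.1.length *
      th x (lst (S' / 2) p.1.1 p.2.1) ^ 2)]
    refine tsum_congr fun p => ?_
    simp only [e, Equiv.coe_fn_mk, rb_length]
  rw [hr]
  have hW : S' / 2 ≤ S := by omega
  have hW' : S' / 2 ≤ S' := by omega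
  rw [lst_dec hW hW' (fun a b => x ^ a.length * x ^ b.length * th x (lst (S' / 2) a b) ^ 2),
    lst_dec hW hW' (fun a b => x ^ a.length * x ^ b.length *
      (4 / ((nc (S' / 2) a b : ℝ≥0∞) + 1)))]
  refine Finset.sum_le_sum fun t ht => ?_
  have ht' : t ≤ S' / 2 := by rw [Finset.mem_range] at ht; omega
  refine ENNReal.tsum_le_tsum fun q => ?_
  have e1 : ∀ k : BW t × BW t, x ^ (k.1.1 ++ q.1.1.1).length * x ^ (k.2.1 ++ q.1.2.1).length *
      th x (lst (S' / 2) (k.1.1 ++ q.1.1.1) (k.2.1 ++ q.1.2.1)) ^ 2 =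
      x ^ q.1.1.1.length * x ^ q.1.2.1.length * (th x t ^ 2 *
        (x ^ k.1.1.length * x ^ k.2.1.length)) := by
    intro k
    rw [lst_cat k.1.2 k.2.2 q.1.1.2.1 q.1.2.2.1 ht' q.2, List.length_append,
      List.length_append, pow_add, pow_add]
    ring
  have e2 : ∀ k : BW t × BW t, x ^ (k.1.1 ++ q.1.1.1).length * x ^ (k.2.1 ++ q.1.2.1).length *
      (4 / ((nc (S' / 2) (k.1.1 ++ q.1.1.1) (k.2.1 ++ q.1.2.1) : ℝ≥0∞) + 1)) =
      x ^ q.1.1.1.length * x ^ q.1.2.1.length * (x ^ k.1.1.length * x ^ k.2.1.length *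
        (4 / ((nc t k.1.1 k.2.1 : ℝ≥0∞) + 1))) := by
    intro k
    rw [nc_catW k.1.2 k.2.2 q.1.1.2.1 q.1.2.2.1 ht' q.2, List.length_append,
      List.length_append, pow_add, pow_add]
    ring
  simp only [e1, e2]
  rw [ENNReal.tsum_mul_left, ENNReal.tsum_mul_left, ENNReal.tsum_mul_left, pair_sq]
  exact mul_le_mul' le_rfl (th_sq hx (hu t))

end Pool.Agent.Work.MP_376faf_co_hw
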