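import Pool.Agent.Work.MP_376faf_co_hw.Symm
import Pool.Agent.Work.MP_376faf_co_hw.Renew

/-! Module ZSum: the sum of zz along diagonals. -/

set_option autoImplicit false

namespace Pool.Agent.Work.MP_376faf_co_hw

open Pool.Agent.Work.MP_376faf_co_lower
open scoped ENNReal

theorem zz_zero {x : ℝ≥0∞} (hx : x ≠ 0) (hu : ∀ t, uu x t ≤ 1) (d : ℕ) : zz x d 0 ≤ 1 := by
  classical
  have hl : ∀ a b : List Pt, lst (0 / 2) a b = 0 := fun a b => by
    unfold lst
    rw [Nat.zero_div, Nat.findGreatest_zero]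
  have hth : th x 0 ≤ 1 := by
    unfold th
    refine ENNReal.div_le_of_le_mul ?_
    rw [one_mul, ← pair_sq]
    unfold pm
    refine ENNReal.tsum_le_tsum (fun p => ?_)
    split_ifs
    · exact le_rfl
    · exact zero_le
  unfold zz
  have h1 : ∀ p : BW d × BW 0, x ^ p.1.1.length * x ^ p.2.1.length *
      th x (lst (0 / 2) (rb p.1.1) p.2.1) ^ 2 ≤ x ^ p.1.1.length * x ^ p.2.1.length := by
    intro p
    rw [hl]
    exact mul_le_of_le_one_right' (pow_le_one₀ zero_le hth)
  refine (ENNReal.tsum_le_tsum h1).trans ?_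
  rw [tsum_mul (fun a : BW d => x ^ a.1.length) (fun b : BW 0 => x ^ b.1.length)]
  exact mul_le_one₀ (hu d) zero_le (hu 0)

theorem nc_mono {V W : ℕ} (h : V ≤ W) (k k' : List Pt) : nc V k k' ≤ nc W k k' := by
  classical
  unfold nc
  refine Finset.card_le_card (Finset.filter_subset_filter _ ?_)
  exact Finset.Icc_subset_Icc le_rfl h

theorem zblock {x : ℝ≥0∞} (hx : x ≠ 0) (hu : ∀ t, uu x t ≤ 1) {N : ℕ} (hN : 1 ≤ N) (d : ℕ) :
    ∑ T ∈ Finset.Ico N (2 * N), zz x (T + d) T ≤ 24 * hs (N / 2) := by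
  have h1 : ∀ T ∈ Finset.Ico N (2 * N), zz x (T + d) T ≤ 4 * yy x (N / 2) (T + d) T := by
    intro T hT
    rw [Finset.mem_Ico] at hT
    refine (zz_le hx hu (Nat.le_add_right T d)).trans ?_
    unfold yy
    rw [← ENNReal.tsum_mul_left]
    refine ENNReal.tsum_le_tsum (fun p => ?_)
    rw [div_eq_mul_inv, ← mul_assoc, mul_comm (x ^ p.1.1.length * x ^ p.2.1.length) 4, mul_assoc]
    refine mul_le_mul' le_rfl (mul_le_mul' le_rfl (ENNReal.inv_le_inv.2 ?_))
    gcongr
    exact nc_mono (Nat.div_le_div_right hT.1) _ _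
  refine (Finset.sum_le_sum h1).trans ?_
  rw [← Finset.mul_sum]
  refine (mul_le_mul' le_rfl (renew hx hu hN d)).trans (le_of_eq ?_)
  rw [← mul_assoc]
  norm_num

theorem zsum {x : ℝ≥0∞} (hx : x ≠ 0) (hu : ∀ t, uu x t ≤ 1) (k d : ℕ) :
    ∑ T ∈ Finset.range (2 ^ k), zz x (T + d) T ≤ 1 + 24 * (k * (k + 1)) := by
  have h : ∀ j ≤ k, ∑ T ∈ Finset.range (2 ^ j), zz x (T + d) T ≤ 1 + 24 * (j * (k + 1)) := by
    intro j
    induction j with
    | zero =>
      intro _
      simp only [pow_zero, Finset.range_one, Finset.sum_singleton, zero_add, CharP.cast_eq_zero,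
        zero_mul, mul_zero, add_zero]
      exact zz_zero hx hu d
    | succ j ih =>
      intro hj
      have h1 : Finset.range (2 ^ (j + 1)) = Finset.range (2 ^ j) ∪ Finset.Ico (2 ^ j) (2 * 2 ^ j) := by
        ext a
        simp only [Finset.mem_union, Finset.mem_range, Finset.mem_Ico, pow_succ]
        omega
      rw [h1, Finset.sum_union (by
        rw [Finset.disjoint_left]
        intro a ha hb
        rw [Finset.mem_range] at ha
        rw [Finset.mem_Ico] at hb
        omega)]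
      have h2 : hs (2 ^ j / 2) ≤ (k : ℝ≥0∞) + 1 := by
        have h3 : hs (2 ^ j / 2) ≤ ((j + 1 : ℕ) : ℝ≥0∞) + 1 := by
          refine hs_le ?_
          rw [pow_succ]
          have := Nat.one_le_two_pow (n := j)
          omega
        refine h3.trans ?_
        gcongr
      refine (add_le_add (ih (by omega)) ((zblock hx hu Nat.one_le_two_pow d).trans
        (mul_le_mul' le_rfl h2))).trans (le_of_eq ?_)
      push_cast
      ring
  exact h k le_rfl

end Pool.Agent.Work.MP_376faf_co_hw
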